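import Pool.Agent.H20.FN.AddT

set_option autoImplicit false

/-!
# Linear blocks of quantifiers before Boolean combinations of additive formulas and of one more quantifier
-/

namespace Pool.Agent.H20.E1

/-- Boolean combinations of additive formulas, linear in the variables below `k`, and of such formulas behind one
more quantifier, linear in its variable too -/
inductive MatA : ℕ → {N : ℕ} → Fml N → Prop
  | add {k N : ℕ} {α : Fml N} : α.Additive → α.LinA k → MatA k α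
  | ex {k N : ℕ} {t : Tm N} {β : Fml (N + 1)} : t.LinO k → β.Additive → β.LinA (k + 1) → MatA k (.ex t β)
  | all {k N : ℕ} {t : Tm N} {β : Fml (N + 1)} : t.LinO k → β.Additive → β.LinA (k + 1) → MatA k (.all t β)
  | neg {k N : ℕ} {φ : Fml N} : MatA k φ → MatA k (.neg φ)
  | and {k N : ℕ} {φ ψ : Fml N} : MatA k φ → MatA k ψ → MatA k (.and φ ψ)
  | or {k N : ℕ} {φ ψ : Fml N} : MatA k φ → MatA k ψ → MatA k (.or φ ψ)

/-- a block of universal quantifiers before a formula as in `MatA`; the bounds are linear in the variables of the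
block in front of them -/
inductive AllMatA : ℕ → {N : ℕ} → Fml N → Prop
  | mat {k N : ℕ} {φ : Fml N} : MatA k φ → AllMatA k φ
  | all {k N : ℕ} {t : Tm N} {φ : Fml (N + 1)} : t.LinO k → AllMatA (k + 1) φ → AllMatA k (.all t φ)

/-- the same with existential quantifiers -/
inductive ExMatA : ℕ → {N : ℕ} → Fml N → Prop
  | mat {k N : ℕ} {φ : Fml N} : MatA k φ → ExMatA k φ
  | ex {k N : ℕ} {t : Tm N} {φ : Fml (N + 1)} : t.LinO k → ExMatA (k + 1) φ → ExMatA k (.ex t φ)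

/-- Boolean combinations of `OneA` formulas and of the blocks `AllMatA 0`, `ExMatA 0` -/
inductive BoolAdd : {n : ℕ} → Fml n → Prop
  | oneA {n : ℕ} {φ : Fml n} : OneA φ → BoolAdd φ
  | all {n : ℕ} {φ : Fml n} : AllMatA 0 φ → BoolAdd φ
  | ex {n : ℕ} {φ : Fml n} : ExMatA 0 φ → BoolAdd φ
  | neg {n : ℕ} {φ : Fml n} : BoolAdd φ → BoolAdd (.neg φ)
  | and {n : ℕ} {φ ψ : Fml n} : BoolAdd φ → BoolAdd ψ → BoolAdd (.and φ ψ)
  | or {n : ℕ} {φ ψ : Fml n} : BoolAdd φ → BoolAdd ψ → BoolAdd (.or φ ψ)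

/-- formulas built by conjunction, disjunction and bounded existential quantification from these -/
inductive Adds : {n : ℕ} → Fml n → Prop
  | base {n : ℕ} {φ : Fml n} : BoolAdd φ → Adds φ
  | and {n : ℕ} {φ ψ : Fml n} : Adds φ → Adds ψ → Adds (.and φ ψ)
  | or {n : ℕ} {φ ψ : Fml n} : Adds φ → Adds ψ → Adds (.or φ ψ)
  | ex {n : ℕ} (t : Tm n) {φ : Fml (n + 1)} : Adds φ → Adds (.ex t φ)

theorem linO_add {n : ℕ} {φ : Fml n} : ∀ {k : ℕ}, φ.LinO k → φ.Additive ∧ φ.LinA k := by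
  induction φ with
  | lt s t => intro k h; exact ⟨trivial, h⟩
  | eq s t => intro k h; exact ⟨trivial, h⟩
  | neg φ ih => intro k h; exact ih (k := k) h
  | and φ ψ ih1 ih2 => intro k h; exact ⟨⟨(ih1 h.1).1, (ih2 h.2).1⟩, ⟨(ih1 h.1).2, (ih2 h.2).2⟩⟩
  | or φ ψ ih1 ih2 => intro k h; exact ⟨⟨(ih1 h.1).1, (ih2 h.2).1⟩, ⟨(ih1 h.1).2, (ih2 h.2).2⟩⟩
  | ex t φ ih => intro k h; exact h.elim
  | all t φ ih => intro k h; exact h.elim

theorem MatA.of_mat {k N : ℕ} {φ : Fml N} (h : Mat k φ) : MatA k φ := by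
  induction h with
  | qf h => exact .add (linO_add h).1 (linO_add h).2
  | ex ht h => exact .ex ht (linO_add h).1 (linO_add h).2
  | all ht h => exact .all ht (linO_add h).1 (linO_add h).2
  | neg _ ih => exact .neg ih
  | and _ _ ih1 ih2 => exact .and ih1 ih2
  | or _ _ ih1 ih2 => exact .or ih1 ih2

theorem AllMatA.of_allMat {k N : ℕ} {φ : Fml N} (h : AllMat k φ) : AllMatA k φ := by
  induction h with
  | mat h => exact .mat (.of_mat h)
  | all ht _ ih => exact .all ht ih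

theorem ExMatA.of_exMat {k N : ℕ} {φ : Fml N} (h : ExMat k φ) : ExMatA k φ := by
  induction h with
  | mat h => exact .mat (.of_mat h)
  | ex ht _ ih => exact .ex ht ih

/-- the class `Adds` contains the class `Alts` -/
theorem Adds.of_alts {n : ℕ} {φ : Fml n} (h : Alts φ) : Adds φ := by
  induction h with
  | base h =>
    refine .base ?_
    induction h with
    | oneA h => exact .oneA h
    | all h => exact .all (.of_allMat h)
    | ex h => exact .ex (.of_exMat h)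
    | neg _ ih => exact .neg ih
    | and _ _ ih1 ih2 => exact .and ih1 ih2
    | or _ _ ih1 ih2 => exact .or ih1 ih2
  | and _ _ ih1 ih2 => exact .and ih1 ih2
  | or _ _ ih1 ih2 => exact .or ih1 ih2
  | ex t _ ih => exact .ex t ih

end Pool.Agent.H20.E1

namespace Pool.Agent.H20.FN

open Pool.Agent.H20.E1 Pool.Agent.H20.FL

/-- `XE` in all residue classes modulo `m` -/
def SX (k N m : ℕ) (P : ∀ M : Md, (Fin N → M.R) → Prop) : Prop :=
  ∀ r : Fin N → ℕ, XE k N (fun M q => P M (fun i => (m : M.R) * q i + (r i : M.R)))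

/-- the part of the bound in a residue class -/
def leF {N : ℕ} (m ρ : ℕ) (T : Tm N) : Fml (N + 1) :=
  Fml.le (.add (nsm m (.var 0)) (nsm ρ .one)) T.lift

theorem leF_linO {N k : ℕ} (m ρ : ℕ) {T : Tm N} (h : T.LinO k) : (leF m ρ T).LinO (k + 1) :=
  ⟨⟨⟨nsm_linO (t := .var 0) trivial m, nsm_linO (t := .one) trivial _⟩, lift_linO h⟩,
    ⟨⟨nsm_linO (t := .var 0) trivial m, nsm_linO (t := .one) trivial _⟩, lift_linO h⟩⟩

theorem leF_holds {N : ℕ} (m ρ : ℕ) (T : Tm N) {R : Type} [CommRing R] [LinearOrder R] (u : R) (q : Fin N → R) :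
    (leF m ρ T).holds (Fin.cons u q : Fin (N + 1) → R) ↔ (m : R) * u + (ρ : R) ≤ T.val q := by
  unfold leF
  rw [Fml.holds_le, Tm.val_lift]
  simp only [Tm.val, val_nsm, mul_one]
  exact Iff.rfl

theorem cons_aff {R : Type} [CommRing R] {N : ℕ} (m ρ : ℕ) (r : Fin N → ℕ) (u : R) (q : Fin N → R) :
    (fun i => (m : R) * (Fin.cons u q : Fin (N + 1) → R) i +
        (((Fin.cons ρ r : Fin (N + 1) → ℕ) i : ℕ) : R)) =
        (Fin.cons ((m : R) * u + (ρ : R)) (fun i => (m : R) * q i + (r i : R)) : Fin (N + 1) → R) := by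
  funext i
  refine Fin.cases ?_ (fun i => ?_) i
  · rfl
  · rfl

theorem split_ex {M : Md} {N m : ℕ} (hm : 0 < m) (t : Tm N) (r : Fin N → ℕ) (q : Fin N → M.R)
    (P : (Fin (N + 1) → M.R) → Prop) :
    (∃ a : M.R, 0 ≤ a ∧ a ≤ t.val (fun i => (m : M.R) * q i + (r i : M.R)) ∧
      P (Fin.cons a (fun i => (m : M.R) * q i + (r i : M.R)))) ↔
    ∃ ρ ∈ List.range m, ∃ u : M.R, 0 ≤ u ∧ u ≤ (t.subst (aff m r)).val q ∧
      ((leF m ρ (t.subst (aff m r))).holds (Fin.cons u q : Fin (N + 1) → M.R) ∧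
        P (fun i => (m : M.R) * (Fin.cons u q : Fin (N + 1) → M.R) i +
          (((Fin.cons ρ r : Fin (N + 1) → ℕ) i : ℕ) : M.R))) := by
  have htv : (t.subst (aff m r)).val q = t.val (fun i => (m : M.R) * q i + (r i : M.R)) := by
    rw [Tm.val_subst, val_aff]
  constructor
  · rintro ⟨a, ha0, hat, ha⟩
    obtain ⟨u, ρ, hu, hρ, he'⟩ : ∃ (u : M.R) (ρ : ℕ), 0 ≤ u ∧ ρ < m ∧ a = (m : M.R) * u + (ρ : M.R) :=
      M.toMdl.div hm ha0
    have hmR : (1 : M.R) ≤ (m : M.R) := by exact_mod_cast hm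
    have h5 : 1 * u ≤ (m : M.R) * u := mul_le_mul_of_nonneg_right hmR hu
    have h6 : (0 : M.R) ≤ (ρ : M.R) := Nat.cast_nonneg _
    refine ⟨ρ, List.mem_range.2 hρ, u, hu, ?_, ?_, ?_⟩
    · rw [htv]
      refine le_trans ?_ hat
      rw [he']
      linarith
    · rw [leF_holds, htv, ← he']
      exact hat
    · rw [cons_aff, ← he']
      exact ha
  · rintro ⟨ρ, _, u, hu, _, h1, h2⟩
    rw [leF_holds, htv] at h1
    rw [cons_aff] at h2
    exact ⟨_, add_nonneg (mul_nonneg (Nat.cast_nonneg _) hu) (Nat.cast_nonneg _), h1, h2⟩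

theorem SX.ex {k N m : ℕ} (hm : 0 < m) {t : Tm N} (ht : t.LinO k)
    {P : ∀ M : Md, (Fin (N + 1) → M.R) → Prop} (h : SX (k + 1) (N + 1) m P) :
    SX k N m (fun M v => ∃ a : M.R, 0 ≤ a ∧ a ≤ t.val v ∧ P M (Fin.cons a v)) := by
  intro r
  have hT : (t.subst (aff m r)).LinO k := linO_subst ht (aff_linO m r k) (aff_nov m r k)
  refine (XE.bex (List.range m) (fun ρ _ => XE.ex hT
    (XE.and (XE.qf (leF_linO m ρ hT)) (h (Fin.cons ρ r))))).congr (fun M q _ => ?_)
  exact split_ex hm t r q (P M)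

theorem SX.and {k N m : ℕ} {P Q : ∀ M : Md, (Fin N → M.R) → Prop} (h : SX k N m P) (h' : SX k N m Q) :
    SX k N m (fun M v => P M v ∧ Q M v) := fun r => (h r).and (h' r)

theorem SX.or {k N m : ℕ} {P Q : ∀ M : Md, (Fin N → M.R) → Prop} (h : SX k N m P) (h' : SX k N m Q) :
    SX k N m (fun M v => P M v ∨ Q M v) := fun r => (h r).or (h' r)

theorem SX.congr {k N m : ℕ} {P Q : ∀ M : Md, (Fin N → M.R) → Prop} (h : SX k N m P)
    (hPQ : ∀ (M : Md) (v : Fin N → M.R), Q M v ↔ P M v) : SX k N m Q :=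
  fun r => (h r).congr (fun M q _ => hPQ M _)

theorem SX.of_fam {k N m : ℕ} {α : Fml N} (h : FamL m α) (hk : α.LinA k) : SX k N m (fun _ v => α.holds v) := by
  intro r
  obtain ⟨θ, _, _, h3, h4⟩ := h r
  exact (XE.qf (h3 k hk)).congr (fun M q hq => h4 M.toMdl q hq)

theorem SX.notEx {k N m : ℕ} (hm : 0 < m) {t : Tm N} (ht : t.LinO k) {β : Fml (N + 1)} (h : FamL m β)
    (hk : β.LinA (k + 1)) :
    SX k N m (fun M v => ¬ ∃ a : M.R, 0 ≤ a ∧ a ≤ t.val v ∧ β.holds (Fin.cons a v : Fin (N + 1) → M.R)) := by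
  intro r
  have hT : (t.subst (aff m r)).LinO k := linO_subst ht (aff_linO m r k) (aff_nov m r k)
  choose Θ _ _ h3 h4 using h
  refine (XE.ball (List.range m) (fun ρ _ => XE.notEx hT
    (qf_dn (β := .and (leF m ρ (t.subst (aff m r))) (Θ (Fin.cons ρ r)))
      ⟨leF_linO m ρ hT, h3 _ _ hk⟩).1)).congr (fun M q hq => ?_)
  show (¬ ∃ a : M.R, 0 ≤ a ∧ a ≤ t.val (fun i => (m : M.R) * q i + (r i : M.R)) ∧
    β.holds (Fin.cons a (fun i => (m : M.R) * q i + (r i : M.R)) : Fin (N + 1) → M.R)) ↔ _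
  rw [split_ex hm t r q (fun w => β.holds w)]
  push Not
  refine forall_congr' fun ρ => forall_congr' fun _ => forall_congr' fun u => forall_congr' fun hu =>
    forall_congr' fun _ => ?_
  rw [show (fun i => (m : M.R) * (Fin.cons u q : Fin (N + 1) → M.R) i +
    (((Fin.cons ρ r : Fin (N + 1) → ℕ) i : ℕ) : M.R)) = _ from rfl]
  have := h4 (Fin.cons ρ r) M.toMdl (Fin.cons u q : Fin (N + 1) → M.R) (cons_nonneg hu hq)
  simp only [Fml.holds, not_and]
  exact imp_congr_right fun _ => not_congr this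

theorem matA {k N : ℕ} {φ : Fml N} (h : MatA k φ) : ∃ m0 : ℕ, 0 < m0 ∧ ∀ c : ℕ, 0 < c →
    SX k N (m0 * c) (fun _ v => φ.holds v) ∧ SX k N (m0 * c) (fun _ v => ¬ φ.holds v) := by
  induction h with
  | @add α ha hk =>
    obtain ⟨m, hm, hf⟩ := additive_famL α ha
    exact ⟨m, hm, fun c _ => ⟨SX.of_fam (hf.mul c) hk, SX.of_fam (hf.mul c).neg (show (Fml.neg α).LinA _ from hk)⟩⟩
  | @ex t β ht ha hk =>
    obtain ⟨m, hm, hf⟩ := additive_famL β ha
    refine ⟨m, hm, fun c hc => ⟨SX.ex (Nat.mul_pos hm hc) ht (SX.of_fam (hf.mul c) hk), ?_⟩⟩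
    exact SX.notEx (Nat.mul_pos hm hc) ht (hf.mul c) hk
  | @all t β ht ha hk =>
    obtain ⟨m, hm, hf⟩ := additive_famL β ha
    refine ⟨m, hm, fun c hc => ⟨?_, ?_⟩⟩
    · refine (SX.notEx (Nat.mul_pos hm hc) ht (hf.mul c).neg (show (Fml.neg β).LinA _ from hk)).congr
        (fun M v => ?_)
      simp only [Fml.holds]
      push Not
      exact Iff.rfl
    · refine (SX.ex (Nat.mul_pos hm hc) ht (SX.of_fam (hf.mul c).neg (show (Fml.neg β).LinA _ from hk))).congr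
        (fun M v => ?_)
      simp only [Fml.holds]
      push Not
      exact Iff.rfl
  | neg _ ih =>
    obtain ⟨m, hm, h⟩ := ih
    exact ⟨m, hm, fun c hc => ⟨(h c hc).2, (h c hc).1.congr (fun M v => by simp only [Fml.holds, not_not])⟩⟩
  | and _ _ ih1 ih2 =>
    obtain ⟨m, hm, h⟩ := ih1
    obtain ⟨m', hm', h'⟩ := ih2
    refine ⟨m * m', Nat.mul_pos hm hm', fun c hc => ?_⟩
    have h1 := h (m' * c) (Nat.mul_pos hm' hc)
    have h2 := h' (m * c) (Nat.mul_pos hm hc)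
    rw [← Nat.mul_assoc] at h1 h2
    rw [Nat.mul_comm m' m] at h2
    exact ⟨h1.1.and h2.1, (h1.2.or h2.2).congr (fun M v => by simp only [Fml.holds]; exact not_and_or)⟩
  | or _ _ ih1 ih2 =>
    obtain ⟨m, hm, h⟩ := ih1
    obtain ⟨m', hm', h'⟩ := ih2
    refine ⟨m * m', Nat.mul_pos hm hm', fun c hc => ?_⟩
    have h1 := h (m' * c) (Nat.mul_pos hm' hc)
    have h2 := h' (m * c) (Nat.mul_pos hm hc)
    rw [← Nat.mul_assoc] at h1 h2
    rw [Nat.mul_comm m' m] at h2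
    exact ⟨h1.1.or h2.1, (h1.2.and h2.2).congr (fun M v => by simp only [Fml.holds]; exact not_or)⟩

theorem exMatA {k N : ℕ} {φ : Fml N} (h : ExMatA k φ) : ∃ m : ℕ, 0 < m ∧ ∀ c : ℕ, 0 < c →
    SX k N (m * c) (fun _ v => φ.holds v) := by
  induction h with
  | mat h =>
    obtain ⟨m, hm, h⟩ := matA h
    exact ⟨m, hm, fun c hc => (h c hc).1⟩
  | ex ht _ ih =>
    obtain ⟨m, hm, h⟩ := ih
    exact ⟨m, hm, fun c hc => SX.ex (Nat.mul_pos hm hc) ht (h c hc)⟩

theorem allMatA {k N : ℕ} {φ : Fml N} (h : AllMatA k φ) : ∃ m : ℕ, 0 < m ∧ ∀ c : ℕ, 0 < c →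
    SX k N (m * c) (fun _ v => ¬ φ.holds v) := by
  induction h with
  | mat h =>
    obtain ⟨m, hm, h⟩ := matA h
    exact ⟨m, hm, fun c hc => (h c hc).2⟩
  | @all k N t φ ht _ ih =>
    obtain ⟨m, hm, h⟩ := ih
    refine ⟨m, hm, fun c hc => (SX.ex (Nat.mul_pos hm hc) ht (h c hc)).congr (fun M v => ?_)⟩
    simp only [Fml.holds]
    push Not
    exact Iff.rfl

theorem SX.d {n m : ℕ} (hm : 0 < m) {P : ∀ M : Md, (Fin n → M.R) → Prop} (h : SX 0 n m P) :
    D n P ∧ D n (fun M v => ¬ P M v) :=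
  ⟨dsplit hm (fun b _ => (h b).d.1), dsplit hm (fun b _ => (h b).d.2)⟩

theorem D.boolAdd {n : ℕ} {φ : Fml n} (h : BoolAdd φ) :
    D n (fun _ v => φ.holds v) ∧ D n (fun _ v => ¬ φ.holds v) := by
  induction h with
  | oneA h => exact ⟨D.tame (.one h), D.tame (.one (.neg h))⟩
  | all h =>
    obtain ⟨m, hm, h⟩ := allMatA h
    have h1 := SX.d (Nat.mul_pos hm one_pos) (h 1 one_pos)
    exact ⟨h1.2.congr (fun M v _ => not_not.symm), h1.1⟩
  | ex h =>
    obtain ⟨m, hm, h⟩ := exMatA h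
    exact SX.d (Nat.mul_pos hm one_pos) (h 1 one_pos)
  | neg _ ih =>
    refine ⟨ih.2, ih.1.congr ?_⟩
    intro M v _
    simp only [Fml.holds, not_not]
  | and _ _ ih1 ih2 =>
    refine ⟨ih1.1.and ih2.1, (ih1.2.or ih2.2).congr ?_⟩
    intro M v _
    simp only [Fml.holds]
    exact not_and_or
  | or _ _ ih1 ih2 =>
    refine ⟨ih1.1.or ih2.1, (ih1.2.and ih2.2).congr ?_⟩
    intro M v _
    simp only [Fml.holds]
    exact not_or

theorem D.adds {n : ℕ} {φ : Fml n} (h : Adds φ) : D n (fun _ v => φ.holds v) := by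
  induction h with
  | base h => exact (D.boolAdd h).1
  | and _ _ ih1 ih2 => exact ih1.and ih2
  | or _ _ ih1 ih2 => exact ih1.or ih2
  | ex t _ ih => exact D.ex t ih

end Pool.Agent.H20.FN
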