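import Pool.Agent.H20.FN.Alt
import Pool.Agent.H20.E1.QE2

set_option autoImplicit false

/-!
# Additive formulas which are linear in a block of variables
-/

namespace Pool.Agent.H20.E1

/-- the variables below `k` and the bound variables occur only linearly, with coefficients in which none of them
occurs -/
def Fml.LinA : {n : ℕ} → ℕ → Fml n → Prop
  | _, k, .lt s t => s.LinO k ∧ t.LinO k
  | _, k, .eq s t => s.LinO k ∧ t.LinO k
  | _, k, .neg φ => φ.LinA k
  | _, k, .and φ ψ => φ.LinA k ∧ ψ.LinA k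
  | _, k, .or φ ψ => φ.LinA k ∧ ψ.LinA k
  | _, k, .ex t φ => t.LinO k ∧ φ.LinA (k + 1)
  | _, k, .all t φ => t.LinO k ∧ φ.LinA (k + 1)

end Pool.Agent.H20.E1

namespace Pool.Agent.H20.FN

open Pool.Agent.H20.E1 Pool.Agent.H20.FL

theorem nsm_nov {n k : ℕ} {t : Tm n} (h : t.NoV k) (c : ℕ) : (nsm c t).NoV k := by
  induction c with
  | zero => trivial
  | succ c ih => exact ⟨ih, h⟩

theorem nsm_linO {n k : ℕ} {t : Tm n} (h : t.LinO k) (c : ℕ) : (nsm c t).LinO k := by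
  induction c with
  | zero => trivial
  | succ c ih => exact ⟨ih, h⟩

theorem aff_linO {n : ℕ} (N : ℕ) (r : Fin n → ℕ) (k : ℕ) (i : Fin n) : (aff N r i).LinO k :=
  ⟨nsm_linO (t := .var i) trivial N, nsm_linO (t := .one) trivial _⟩

theorem aff_nov {n : ℕ} (N : ℕ) (r : Fin n → ℕ) (k : ℕ) (i : Fin n) (h : k ≤ i.val) : (aff N r i).NoV k :=
  ⟨nsm_nov (t := .var i) h N, nsm_nov (t := .one) trivial _⟩

theorem nov_subst {n m k k' : ℕ} {σ : Fin n → Tm m} {t : Tm n} (h : t.NoV k)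
    (h2 : ∀ i, k ≤ i.val → (σ i).NoV k') : (t.subst σ).NoV k' := by
  induction t with
  | var i => exact h2 i h
  | zero => trivial
  | one => trivial
  | add s t ihs iht => exact ⟨ihs h.1, iht h.2⟩
  | mul s t ihs iht => exact ⟨ihs h.1, iht h.2⟩

theorem linO_subst {n m k k' : ℕ} {σ : Fin n → Tm m} {t : Tm n} (h : t.LinO k)
    (h1 : ∀ i, (σ i).LinO k') (h2 : ∀ i, k ≤ i.val → (σ i).NoV k') : (t.subst σ).LinO k' := by
  induction t with
  | var i => exact h1 i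
  | zero => trivial
  | one => trivial
  | add s t ihs iht => exact ⟨ihs h.1, iht h.2⟩
  | mul s t ihs iht =>
    rcases h with ⟨h3, h4⟩ | ⟨h3, h4⟩
    · exact Or.inl ⟨nov_subst h3 h2, iht h4⟩
    · exact Or.inr ⟨ihs h3, nov_subst h4 h2⟩

theorem lift_linO {n k : ℕ} {t : Tm n} (h : t.LinO k) : t.lift.LinO (k + 1) := LinO.ren RN.succ h

theorem flinO_subst {n : ℕ} {φ : Fml n} : ∀ {m k k' : ℕ} {σ : Fin n → Tm m} (_ : φ.LinO k)
    (_ : ∀ i, (σ i).LinO k') (_ : ∀ i, k ≤ i.val → (σ i).NoV k'), (φ.subst σ).LinO k' := by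
  induction φ with
  | lt s t => intro m k k' σ h h1 h2; exact ⟨linO_subst h.1 h1 h2, linO_subst h.2 h1 h2⟩
  | eq s t => intro m k k' σ h h1 h2; exact ⟨linO_subst h.1 h1 h2, linO_subst h.2 h1 h2⟩
  | neg φ ih => intro m k k' σ h h1 h2; exact ih (k := k) (k' := k') h h1 h2
  | and φ ψ ih1 ih2 => intro m k k' σ h h1 h2; exact ⟨ih1 h.1 h1 h2, ih2 h.2 h1 h2⟩
  | or φ ψ ih1 ih2 => intro m k k' σ h h1 h2; exact ⟨ih1 h.1 h1 h2, ih2 h.2 h1 h2⟩
  | ex t φ ih => intro m k k' σ h; exact h.elim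
  | all t φ ih => intro m k k' σ h; exact h.elim

theorem linA_linO {n : ℕ} {φ : Fml n} : ∀ {k : ℕ}, φ.IsQF → φ.LinA k → φ.LinO k := by
  induction φ with
  | lt s t => intro k _ h; exact h
  | eq s t => intro k _ h; exact h
  | neg φ ih => intro k hq h; exact ih (k := k) hq h
  | and φ ψ ih1 ih2 => intro k hq h; exact ⟨ih1 hq.1 h.1, ih2 hq.2 h.2⟩
  | or φ ψ ih1 ih2 => intro k hq h; exact ⟨ih1 hq.1 h.1, ih2 hq.2 h.2⟩
  | ex t φ ih => intro k hq; exact hq.elim
  | all t φ ih => intro k hq; exact hq.elim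

theorem rest_nov {n k : ℕ} {t : Tm (n + 1)} (h : t.NoV (k + 1)) : (rest t).NoV k := by
  induction t with
  | var j =>
    revert h
    refine Fin.cases ?_ (fun j => ?_) j
    · intro _; trivial
    · intro h
      have : k + 1 ≤ j.val + 1 := h
      show k ≤ j.val
      omega
  | zero => trivial
  | one => trivial
  | add s t ihs iht => exact ⟨ihs h.1, iht h.2⟩
  | mul s t ihs iht => exact ⟨ihs h.1, iht h.2⟩

theorem rest_linO {n k : ℕ} {t : Tm (n + 1)} (h : t.LinO (k + 1)) : (rest t).LinO k := by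
  induction t with
  | var j =>
    refine Fin.cases ?_ (fun j => ?_) j
    · trivial
    · trivial
  | zero => trivial
  | one => trivial
  | add s t ihs iht => exact ⟨ihs h.1, iht h.2⟩
  | mul s t ihs iht =>
    rcases h with ⟨h3, h4⟩ | ⟨h3, h4⟩
    · exact Or.inl ⟨rest_nov h3, iht h4⟩
    · exact Or.inr ⟨ihs h3, rest_nov h4⟩

theorem dv_nov {n k : ℕ} (N : ℕ) (r : Fin n → ℕ) {t : Tm n} (h : t.NoV k) : (dv N r t).1.NoV k := by
  induction t with
  | var j => exact h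
  | zero => trivial
  | one => trivial
  | add s t ihs iht => exact ⟨ihs h.1, iht h.2⟩
  | mul s t ihs iht =>
    exact ⟨⟨nsm_nov (t := .mul _ _) ⟨ihs h.1, iht h.2⟩ N, nsm_nov (ihs h.1) _⟩, nsm_nov (iht h.2) _⟩

theorem dv_linO {n k : ℕ} (N : ℕ) (r : Fin n → ℕ) {t : Tm n} (h : t.LinO k) : (dv N r t).1.LinO k := by
  induction t with
  | var j => trivial
  | zero => trivial
  | one => trivial
  | add s t ihs iht => exact ⟨ihs h.1, iht h.2⟩
  | mul s t ihs iht =>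
    rcases h with ⟨h3, h4⟩ | ⟨h3, h4⟩
    · exact ⟨⟨nsm_linO (t := .mul _ _) (Or.inl ⟨dv_nov N r h3, iht h4⟩) N, nsm_linO (nov_linO (dv_nov N r h3)) _⟩,
        nsm_linO (iht h4) _⟩
    · exact ⟨⟨nsm_linO (t := .mul _ _) (Or.inr ⟨ihs h3, dv_nov N r h4⟩) N, nsm_linO (ihs h3) _⟩,
        nsm_linO (nov_linO (dv_nov N r h4)) _⟩

theorem plugT_linO {n k : ℕ} {A B : Tm n} {N : ℕ} {r : Fin n → ℕ} {s u : Tm (n + 1)}
    (hA : A.LinO k) (hB : B.LinO k) (hs : s.LinO (k + 1)) : (plugT A B (aff N r) s u).LinO k :=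
  ⟨⟨nsm_linO hA _, linO_subst (rest_linO hs) (aff_linO N r k) (aff_nov N r k)⟩, nsm_linO hB _⟩

theorem plug_linO {n k : ℕ} {A B : Tm n} {N : ℕ} {r : Fin n → ℕ} (hA : A.LinO k)
    (hB : B.LinO k) : ∀ {φ : Fml (n + 1)}, φ.LinO (k + 1) → (plug A B (aff N r) φ).LinO k
  | .lt _ _, h => by
    simp only [plug]
    exact ⟨plugT_linO hA hB h.1, plugT_linO hA hB h.2⟩
  | .eq _ _, h => by
    simp only [plug]
    exact ⟨plugT_linO hA hB h.1, plugT_linO hA hB h.2⟩
  | .neg φ, h => by simp only [plug]; exact plug_linO hA hB (φ := φ) h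
  | .and φ ψ, h => by
    simp only [plug]
    exact ⟨plug_linO hA hB (φ := φ) h.1, plug_linO hA hB (φ := ψ) h.2⟩
  | .or φ ψ, h => by
    simp only [plug]
    exact ⟨plug_linO hA hB (φ := φ) h.1, plug_linO hA hB (φ := ψ) h.2⟩
  | .ex _ _, h => h.elim
  | .all _ _, h => h.elim

theorem tauPos_linO {n k : ℕ} (N : ℕ) (r : Fin n → ℕ) {s u : Tm (n + 1)} (d : ℕ)
    (hs : s.LinO (k + 1)) (hu : u.LinO (k + 1)) :
    (tauPos N r s u d).1.LinO k ∧ (tauPos N r s u d).2.LinO k :=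
  ⟨⟨nsm_linO (dv_linO N r (rest_linO hs)) _, nsm_linO (t := .one) trivial _⟩,
    ⟨nsm_linO (dv_linO N r (rest_linO hu)) _, nsm_linO (t := .one) trivial _⟩⟩

theorem tau_linO {n k : ℕ} (N : ℕ) (r : Fin n → ℕ) {p : Tm (n + 1) × Tm (n + 1)}
    (h1 : p.1.LinO (k + 1)) (h2 : p.2.LinO (k + 1)) : (tau N r p).1.LinO k ∧ (tau N r p).2.LinO k := by
  unfold tau
  split_ifs with h3 h4
  · exact tauPos_linO N r _ h1 h2
  · exact tauPos_linO N r _ h2 h1
  · exact ⟨trivial, trivial⟩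

theorem atoms_linO {m k : ℕ} : ∀ {φ : Fml m}, φ.LinO k → ∀ p ∈ atoms φ, p.1.LinO k ∧ p.2.LinO k
  | .lt s t, h, p, hp => by
    rw [List.mem_singleton.1 hp]
    exact h
  | .eq s t, h, p, hp => by
    rw [List.mem_singleton.1 hp]
    exact h
  | .neg φ, h, p, hp => atoms_linO (φ := φ) h p hp
  | .and φ ψ, h, p, hp => by
    rcases List.mem_append.1 hp with hp | hp
    · exact atoms_linO (φ := φ) h.1 p hp
    · exact atoms_linO (φ := ψ) h.2 p hp
  | .or φ ψ, h, p, hp => by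
    rcases List.mem_append.1 hp with hp | hp
    · exact atoms_linO (φ := φ) h.1 p hp
    · exact atoms_linO (φ := ψ) h.2 p hp
  | .ex _ _, h, p, hp => h.elim
  | .all _ _, h, p, hp => h.elim

theorem disj_linO {n k : ℕ} : ∀ {L : List (Fml n)}, (∀ φ ∈ L, φ.LinO k) → (disj L).LinO k
  | [], _ => ⟨trivial, trivial⟩
  | φ :: L, h => ⟨h φ (List.mem_cons_self ..), disj_linO (fun ψ hψ => h ψ (List.mem_cons_of_mem _ hψ))⟩

theorem elimF_linO {n k : ℕ} (N : ℕ) (r : Fin n → ℕ) {Θ : Fml (n + 1)} {t : Tm n}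
    (h : Θ.LinO (k + 1)) (ht : t.LinO k) : (elimF N r Θ t).LinO k := by
  refine disj_linO (fun φ hφ => ?_)
  obtain ⟨c, hc, rfl⟩ := List.mem_map.1 hφ
  have hcl : c.1.LinO k ∧ c.2.LinO k := by
    rcases List.mem_cons.1 hc with rfl | hc
    · exact ⟨trivial, trivial⟩
    · obtain ⟨p, hp, hc⟩ := List.mem_flatMap.1 hc
      obtain ⟨h1, h2⟩ := atoms_linO h p hp
      have h3 := tau_linO N r h1 h2
      rcases List.mem_cons.1 hc with rfl | hc
      · exact h3
      · rw [List.mem_singleton.1 hc]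
        exact ⟨⟨h3.1, trivial⟩, h3.2⟩
  have hts : (t.subst (aff N r)).LinO k := linO_subst ht (aff_linO N r k) (aff_nov N r k)
  exact ⟨⟨⟨⟨hcl.2, hcl.1⟩, ⟨hcl.2, hcl.1⟩⟩, ⟨⟨hcl.1, ⟨hcl.2, hts⟩⟩, ⟨hcl.1, ⟨hcl.2, hts⟩⟩⟩⟩,
    plug_linO hcl.1 hcl.2 h⟩

/-- quantifier-free in residue classes modulo `m`; additive variables stay additive, linear ones linear -/
def FamL {n : ℕ} (m : ℕ) (φ : Fml n) : Prop :=
  ∀ r : Fin n → ℕ, ∃ θ : Fml n, θ.IsQF ∧ (∀ i, φ.Lin i → θ.Lin i) ∧ (∀ k, φ.LinA k → θ.LinO k) ∧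
    ∀ (M : Mdl) (q : Fin n → M.R), (∀ i, 0 ≤ q i) →
      (φ.holds (fun i => (m : M.R) * q i + (r i : M.R)) ↔ θ.holds q)

theorem famL_qf {n : ℕ} {φ : Fml n} (h : φ.IsQF) : FamL 1 φ := by
  intro r
  refine ⟨φ.subst (aff 1 r), Fml.isQF_subst _ _ h, fun i hi => Fml.lin_subst φ h hi
    (fun k hk => aff_free 1 r i k hk) (aff_lin 1 r i),
    fun k hk => flinO_subst (linA_linO h hk) (aff_linO 1 r k) (aff_nov 1 r k), fun M q _ => ?_⟩
  rw [Fml.holds_subst, val_aff]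

theorem FamL.mul {n : ℕ} {m : ℕ} {φ : Fml n} (h : FamL m φ) (k : ℕ) : FamL (m * k) φ := by
  intro r
  obtain ⟨θ, h1, h2, hk, h3⟩ := h r
  refine ⟨θ.subst (aff k (fun _ => 0)), Fml.isQF_subst _ _ h1, fun i hi =>
    Fml.lin_subst θ h1 (h2 i hi) (fun j hj => aff_free k _ i j hj) (aff_lin k _ i),
    fun l hl => flinO_subst (hk l hl) (aff_linO k _ l) (aff_nov k _ l),
    fun M q hq => ?_⟩
  rw [Fml.holds_subst, val_aff]
  have h4 := h3 M (fun i => (k : M.R) * q i + ((0 : ℕ) : M.R)) (fun i => by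
    have := hq i
    have hk : (0 : M.R) ≤ (k : M.R) := Nat.cast_nonneg k
    rw [Nat.cast_zero, add_zero]
    exact mul_nonneg hk this)
  rw [← h4]
  have e : (fun i => ((m * k : ℕ) : M.R) * q i + (r i : M.R)) =
      fun i => (m : M.R) * ((k : M.R) * q i + ((0 : ℕ) : M.R)) + (r i : M.R) := by
    funext i
    push_cast
    ring
  rw [e]

theorem FamL.neg {n m : ℕ} {φ : Fml n} (h : FamL m φ) : FamL m (.neg φ) := by
  intro r
  obtain ⟨θ, h1, h2, hk, h3⟩ := h r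
  exact ⟨.neg θ, h1, h2, hk, fun M q hq => not_congr (h3 M q hq)⟩

theorem FamL.and {n m : ℕ} {φ ψ : Fml n} (h : FamL m φ) (h' : FamL m ψ) : FamL m (.and φ ψ) := by
  intro r
  obtain ⟨θ, h1, h2, hk, h3⟩ := h r
  obtain ⟨θ', h1', h2', hk', h3'⟩ := h' r
  exact ⟨.and θ θ', ⟨h1, h1'⟩, fun i hi => ⟨h2 i hi.1, h2' i hi.2⟩, fun k hi => ⟨hk k hi.1, hk' k hi.2⟩,
    fun M q hq => and_congr (h3 M q hq) (h3' M q hq)⟩

theorem FamL.or {n m : ℕ} {φ ψ : Fml n} (h : FamL m φ) (h' : FamL m ψ) : FamL m (.or φ ψ) := by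
  intro r
  obtain ⟨θ, h1, h2, hk, h3⟩ := h r
  obtain ⟨θ', h1', h2', hk', h3'⟩ := h' r
  exact ⟨.or θ θ', ⟨h1, h1'⟩, fun i hi => ⟨h2 i hi.1, h2' i hi.2⟩, fun k hi => ⟨hk k hi.1, hk' k hi.2⟩,
    fun M q hq => or_congr (h3 M q hq) (h3' M q hq)⟩

theorem famL_ex {n m : ℕ} (hm : 0 < m) {φ : Fml (n + 1)} (h : FamL m φ) (hl : φ.Lin 0) (t : Tm n) :
    ∃ m' : ℕ, 0 < m' ∧ FamL m' (.ex t φ) := by
  choose Θ h1 h2 hk h3 using h
  let Ψ : (Fin (n + 1) → ℕ) → Fml (n + 1) := fun b =>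
    .and (Fml.le (.add (nsm m (.var 0)) (nsm (b 0) .one)) ((t.subst (aff m (Fin.tail b))).lift))
      (Θ b)
  have hΨq : ∀ b, (Ψ b).IsQF := fun b => ⟨⟨trivial, trivial⟩, h1 b⟩
  have hA : ∀ (b : Fin (n + 1) → ℕ) (i : Fin (n + 1)),
      (Tm.add (nsm m (.var 0)) (nsm (b 0) .one) : Tm (n + 1)).Lin i := fun b i =>
    ⟨nsm_lin (t := .var 0) trivial m, nsm_lin (t := .one) trivial _⟩
  have hΨ0 : ∀ b, (Ψ b).Lin 0 := fun b =>
    ⟨⟨⟨hA b 0, (lift_free0 _).lin⟩, ⟨hA b 0, (lift_free0 _).lin⟩⟩, h2 b 0 hl⟩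
  have hts : ∀ (b : Fin n → ℕ) {i : Fin n}, t.Lin i → (t.subst (aff m b)).Lin i :=
    fun b i hi => Tm.lin_subst hi (fun k hk => aff_free m b i k hk) (aff_lin m b i)
  have hΨi : ∀ b (i : Fin n), t.Lin i → φ.Lin i.succ → (Ψ b).Lin i.succ := fun b i hi hi' =>
    ⟨⟨⟨hA b _, lift_lin (hts _ hi)⟩, ⟨hA b _, lift_lin (hts _ hi)⟩⟩, h2 b _ hi'⟩
  have hΨk : ∀ b (k : ℕ), t.LinO k → φ.LinA (k + 1) → (Ψ b).LinO (k + 1) := fun b k hi hi' =>
    ⟨⟨⟨⟨nsm_linO (t := .var 0) trivial m, nsm_linO (t := .one) trivial _⟩,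
        lift_linO (linO_subst hi (aff_linO m _ k) (aff_nov m _ k))⟩,
      ⟨⟨nsm_linO (t := .var 0) trivial m, nsm_linO (t := .one) trivial _⟩,
        lift_linO (linO_subst hi (aff_linO m _ k) (aff_nov m _ k))⟩⟩, hk b _ hi'⟩
  let N : ℕ := ∏ b : Fin (n + 1) → Fin m, ((atoms (Ψ (fun i => (b i : ℕ)))).map pd).prod
  have hNpos : 0 < N := by
    refine Finset.prod_pos (fun b _ => ?_)
    refine List.prod_pos (fun x hx => ?_)
    obtain ⟨p, _, rfl⟩ := List.mem_map.1 hx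
    exact pd_pos p
  have hNdvd : ∀ b : Fin (n + 1) → ℕ, (∀ i, b i < m) → ∀ p ∈ atoms (Ψ b), pd p ∣ N := by
    intro b hb p hp
    have h4 : ((atoms (Ψ (fun i => ((⟨b i, hb i⟩ : Fin m) : ℕ)))).map pd).prod ∣ N :=
      Finset.dvd_prod_of_mem (fun b : Fin (n + 1) → Fin m =>
        ((atoms (Ψ (fun i => (b i : ℕ)))).map pd).prod) (Finset.mem_univ
          (fun i => (⟨b i, hb i⟩ : Fin m)))
    exact (List.dvd_prod (List.mem_map.2 ⟨p, hp, rfl⟩)).trans h4
  refine ⟨m * N, Nat.mul_pos hm hNpos, fun r => ?_⟩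
  let b' : Fin n → ℕ := fun i => r i % m
  let a : Fin n → ℕ := fun i => r i / m
  refine ⟨disj ((List.range m).map (fun ρ => elimF N a (Ψ (Fin.cons ρ b'))
    (t.subst (aff m b')))), ?_, ?_, ?_, ?_⟩
  · refine disj_qf (fun ψ hψ => ?_)
    obtain ⟨ρ, _, rfl⟩ := List.mem_map.1 hψ
    exact elimF_qf _ _ (hΨq _) _
  · intro i hi
    refine disj_lin (fun ψ hψ => ?_)
    obtain ⟨ρ, _, rfl⟩ := List.mem_map.1 hψ
    exact elimF_lin _ _ (hΨq _) _ (hΨi _ i hi.1 hi.2) (hts _ hi.1)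
  · intro k hi
    refine disj_linO (fun ψ hψ => ?_)
    obtain ⟨ρ, _, rfl⟩ := List.mem_map.1 hψ
    exact elimF_linO _ _ (hΨk _ k hi.1 hi.2) (linO_subst hi.1 (aff_linO m _ k) (aff_nov m _ k))
  · intro M q hq
    rw [disj_holds]
    let p : Fin n → M.R := fun i => (aff N a i).val q
    have hp : ∀ i, p i = (N : M.R) * q i + (a i : M.R) := fun i =>
      congrFun (val_aff N a q) i
    have hp0 : ∀ i, 0 ≤ p i := fun i => by
      rw [hp]
      exact add_nonneg (mul_nonneg (Nat.cast_nonneg _) (hq i)) (Nat.cast_nonneg _)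
    have hx : (fun i => ((m * N : ℕ) : M.R) * q i + (r i : M.R)) =
        fun i => (m : M.R) * p i + (b' i : M.R) := by
      funext i
      rw [hp]
      have h4 : (r i : M.R) = (m : M.R) * (a i : M.R) + (b' i : M.R) := by
        have := Nat.div_add_mod (r i) m
        have h5 := congrArg (fun x : ℕ => (x : M.R)) this
        push_cast at h5
        exact h5.symm
      rw [h4]
      push_cast
      ring
    have htv : (t.subst (aff m b')).val p = t.val (fun i => (m : M.R) * p i + (b' i : M.R)) := by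
      rw [Tm.val_subst, val_aff]
    rw [hx]
    have hcons : ∀ (u : M.R) (ρ : ℕ), (fun i => (m : M.R) * (Fin.cons u p : Fin (n + 1) → M.R) i +
        (((Fin.cons ρ b' : Fin (n + 1) → ℕ) i : ℕ) : M.R)) =
        (Fin.cons ((m : M.R) * u + (ρ : M.R)) (fun i => (m : M.R) * p i + (b' i : M.R)) :
          Fin (n + 1) → M.R) := by
      intro u ρ
      funext i
      refine Fin.cases ?_ (fun i => ?_) i
      · rfl
      · rfl
    have hΨh : ∀ (u : M.R) (ρ : ℕ), 0 ≤ u →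
        ((Ψ (Fin.cons ρ b')).holds (Fin.cons u p : Fin (n + 1) → M.R) ↔
        ((m : M.R) * u + (ρ : M.R) ≤ t.val (fun i => (m : M.R) * p i + (b' i : M.R)) ∧
        φ.holds (Fin.cons ((m : M.R) * u + (ρ : M.R)) (fun i => (m : M.R) * p i + (b' i : M.R)) :
          Fin (n + 1) → M.R))) := by
      intro u ρ hu
      show ((Fml.le _ _ : Fml (n + 1)).holds _ ∧ (Θ (Fin.cons ρ b')).holds _) ↔ _
      rw [Fml.holds_le, ← h3 (Fin.cons ρ b') M _ (cons_nonneg hu hp0), hcons, Tm.val_lift]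
      have e1 : (Fin.tail (Fin.cons ρ b' : Fin (n + 1) → ℕ)) = b' := Fin.tail_cons _ _
      rw [e1, htv]
      simp only [Tm.val, val_nsm, mul_one]
      rfl
    constructor
    · rintro ⟨z, hz0, hzt, hz⟩
      obtain ⟨u, ρ, hu, hρ, hzu⟩ := M.div hm hz0
      have hb : ∀ i, (Fin.cons ρ b' : Fin (n + 1) → ℕ) i < m := by
        intro i
        refine Fin.cases ?_ (fun i => ?_) i
        · exact hρ
        · exact Nat.mod_lt _ hm
      refine ⟨_, List.mem_map.2 ⟨ρ, List.mem_range.2 hρ, rfl⟩, ?_⟩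
      rw [← elimF_iff a (hΨq _) (hΨ0 _) (hNdvd _ hb) _ q hq]
      refine ⟨u, hu, ?_, ?_⟩
      · show u ≤ (t.subst (aff m b')).val p
        rw [htv]
        refine le_trans ?_ hzt
        rw [hzu]
        have hmR : (1 : M.R) ≤ (m : M.R) := by exact_mod_cast hm
        have h5 : 1 * u ≤ (m : M.R) * u := mul_le_mul_of_nonneg_right hmR hu
        have h6 : (0 : M.R) ≤ (ρ : M.R) := Nat.cast_nonneg _
        linarith
      · show (Ψ (Fin.cons ρ b')).holds (Fin.cons u p : Fin (n + 1) → M.R)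
        rw [hΨh u ρ hu, ← hzu]
        exact ⟨hzt, hz⟩
    · rintro ⟨ψ, hψ, hh⟩
      obtain ⟨ρ, hρ, rfl⟩ := List.mem_map.1 hψ
      have hρ' := List.mem_range.1 hρ
      have hb : ∀ i, (Fin.cons ρ b' : Fin (n + 1) → ℕ) i < m := by
        intro i
        refine Fin.cases ?_ (fun i => ?_) i
        · exact hρ'
        · exact Nat.mod_lt _ hm
      rw [← elimF_iff a (hΨq _) (hΨ0 _) (hNdvd _ hb) _ q hq] at hh
      obtain ⟨u, hu, _, hΨu⟩ := hh
      have h4 := (hΨh u ρ hu).1 hΨu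
      exact ⟨_, add_nonneg (mul_nonneg (Nat.cast_nonneg _) hu) (Nat.cast_nonneg _), h4.1, h4.2⟩

/-- additive formulas are quantifier-free in residue classes -/
theorem additive_famL {n : ℕ} (φ : Fml n) : φ.Additive → ∃ m : ℕ, 0 < m ∧ FamL m φ := by
  induction φ with
  | lt s t => exact fun _ => ⟨1, one_pos, famL_qf trivial⟩
  | eq s t => exact fun _ => ⟨1, one_pos, famL_qf trivial⟩
  | neg φ ih =>
    intro h
    obtain ⟨m, hm, hf⟩ := ih h
    exact ⟨m, hm, hf.neg⟩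
  | and φ ψ ih1 ih2 =>
    intro h
    obtain ⟨m, hm, hf⟩ := ih1 h.1
    obtain ⟨k, hk, hg⟩ := ih2 h.2
    refine ⟨m * k, Nat.mul_pos hm hk, (hf.mul k).and ?_⟩
    rw [Nat.mul_comm]
    exact hg.mul m
  | or φ ψ ih1 ih2 =>
    intro h
    obtain ⟨m, hm, hf⟩ := ih1 h.1
    obtain ⟨k, hk, hg⟩ := ih2 h.2
    refine ⟨m * k, Nat.mul_pos hm hk, (hf.mul k).or ?_⟩
    rw [Nat.mul_comm]
    exact hg.mul m
  | ex t φ ih =>
    intro h
    obtain ⟨m, hm, hf⟩ := ih h.2
    exact famL_ex hm hf h.1 t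
  | all t φ ih =>
    intro h
    obtain ⟨m, hm, hf⟩ := ih h.2
    obtain ⟨m', hm', hf'⟩ := famL_ex hm hf.neg (show (Fml.neg φ).Lin 0 from h.1) t
    refine ⟨m', hm', fun r => ?_⟩
    obtain ⟨θ, h1, h2, hk, h3⟩ := hf'.neg r
    refine ⟨θ, h1, h2, hk, fun M q hq => ?_⟩
    rw [← h3 M q hq]
    simp only [Fml.holds]
    push Not
    rfl


theorem D.subst {n m : ℕ} {P : ∀ M : Md, (Fin n → M.R) → Prop} (h : D n P)
    (σ : Fin n → Tm m) : D m (fun M v => P M (fun i => (σ i).val v)) := by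
  obtain ⟨φ, h1, h2⟩ := h
  refine ⟨φ.subst σ, h1.subst σ, fun M v hv => ?_⟩
  rw [Fml.holds_subst]
  exact h2 M _ (fun i => Tm.val_nonneg _ v hv)

theorem dexlt {n : ℕ} {P : ℕ → ∀ M : Md, (Fin n → M.R) → Prop} (m : ℕ)
    (h : ∀ c, c < m → D n (P c)) : D n (fun M v => ∃ c, c < m ∧ P c M v) := by
  refine (D.bex (List.range m) (fun c hc => h c (List.mem_range.1 hc))).congr (fun M v _ => ?_)
  simp only [List.mem_range]

section Split

variable {n : ℕ}

/-- one variable may be replaced by its quotient modulo `m` -/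
theorem dsingle {m : ℕ} (hm : 0 < m) (i0 : Fin n) {P : ∀ M : Md, (Fin n → M.R) → Prop}
    (h : ∀ c, c < m → D n (fun M q => P M (Function.update q i0 ((m : M.R) * q i0 + (c : M.R))))) :
    D n P := by
  let σ : Fin n → Tm (n + 1) := fun j => if j = i0 then .var 0 else .var j.succ
  have h1 : ∀ c, c < m → D n (fun M v => ∃ a : M.R, 0 ≤ a ∧ a ≤ (Tm.var i0).val v ∧
      ((Fml.eq (.add (nsm m (.var 0)) (nsm c .one)) (.var i0.succ) : Fml (n + 1)).holds
        (Fin.cons a v : Fin (n + 1) → M.R) ∧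
      P M (Function.update (fun i => (σ i).val (Fin.cons a v : Fin (n + 1) → M.R)) i0
        ((m : M.R) * (σ i0).val (Fin.cons a v : Fin (n + 1) → M.R) + (c : M.R))))) :=
    fun c hc => D.ex (.var i0) ((D.qf (.eq (.add (nsm m (.var 0)) (nsm c .one)) (.var i0.succ))
      (by trivial)).and (D.subst (h c hc) σ))
  refine (dexlt m h1).congr (fun M v hv => ?_)
  have hσ : ∀ (a : M.R), (fun i => (σ i).val (Fin.cons a v : Fin (n + 1) → M.R)) =
      Function.update v i0 a := by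
    intro a
    funext j
    by_cases hj : j = i0
    · subst hj
      simp [σ, Tm.val]
    · simp [σ, hj, Tm.val]
  have hup : ∀ (a : M.R) (c : ℕ), (Function.update (fun i => (σ i).val
      (Fin.cons a v : Fin (n + 1) → M.R)) i0
        ((m : M.R) * (σ i0).val (Fin.cons a v : Fin (n + 1) → M.R) + (c : M.R))) =
      Function.update v i0 ((m : M.R) * a + (c : M.R)) := by
    intro a c
    rw [hσ]
    have : (σ i0).val (Fin.cons a v : Fin (n + 1) → M.R) = a := by simp [σ, Tm.val]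
    rw [this, Function.update_idem]
  have heq : ∀ (a : M.R) (c : ℕ),
      ((Fml.eq (.add (nsm m (.var 0)) (nsm c .one)) (.var i0.succ) : Fml (n + 1)).holds
        (Fin.cons a v : Fin (n + 1) → M.R) ↔ (m : M.R) * a + (c : M.R) = v i0) := by
    intro a c
    simp only [Fml.holds, Tm.val, val_nsm, mul_one]
    rfl
  constructor
  · intro hp
    obtain ⟨u, ρ, hu, hρ, he⟩ : ∃ (u : M.R) (ρ : ℕ), 0 ≤ u ∧ ρ < m ∧ v i0 = (m : M.R) * u + (ρ : M.R) :=
      M.toMdl.div hm (hv i0)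
    refine ⟨ρ, hρ, u, hu, ?_, (heq u ρ).2 he.symm, ?_⟩
    · show u ≤ v i0
      rw [he]
      have hmR : (1 : M.R) ≤ (m : M.R) := by exact_mod_cast hm
      have h5 : 1 * u ≤ (m : M.R) * u := mul_le_mul_of_nonneg_right hmR hu
      have h6 : (0 : M.R) ≤ (ρ : M.R) := Nat.cast_nonneg _
      linarith
    · rw [hup, ← he, Function.update_eq_self]
      exact hp
  · rintro ⟨c, _, a, _, _, h2, h3⟩
    rw [heq] at h2
    rw [hup, h2, Function.update_eq_self] at h3
    exact h3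

/-- all variables may be replaced by their quotients modulo `m` -/
theorem dsplit {m : ℕ} (hm : 0 < m) {P : ∀ M : Md, (Fin n → M.R) → Prop}
    (h : ∀ b : Fin n → ℕ, (∀ i, b i < m) →
      D n (fun M q => P M (fun i => (m : M.R) * q i + (b i : M.R)))) : D n P := by
  have key : ∀ I : Finset (Fin n), (∀ b : Fin n → ℕ, (∀ i, b i < m) →
      D n (fun M q => P M (fun i => if i ∈ I then (m : M.R) * q i + (b i : M.R) else q i))) →
      D n P := by
    intro I
    induction I using Finset.induction_on with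
    | empty =>
      intro h1
      exact (h1 (fun _ => 0) (fun _ => hm)).congr (fun M v _ => by simp)
    | insert i0 I hi ih =>
      intro h1
      refine ih (fun b hb => dsingle hm i0 (fun c hc => ?_))
      refine (h1 (Function.update b i0 c) (fun i => ?_)).congr (fun M q _ => ?_)
      · by_cases hii : i = i0
        · subst hii
          simpa using hc
        · simpa [hii] using hb i
      · have e : (fun i => if i ∈ I then (m : M.R) *
            (Function.update q i0 ((m : M.R) * q i0 + (c : M.R))) i + (b i : M.R)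
            else (Function.update q i0 ((m : M.R) * q i0 + (c : M.R))) i) =
            fun i => if i ∈ insert i0 I then (m : M.R) * q i +
              ((Function.update b i0 c i : ℕ) : M.R) else q i := by
          funext i
          by_cases hii : i = i0
          · subst hii
            simp [hi]
          · simp [hii]
        show P M _ ↔ P M _
        rw [e]
  refine key Finset.univ (fun b hb => (h b hb).congr (fun M q _ => by simp))

end Split

end Pool.Agent.H20.FN
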