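import Mathlib

set_option autoImplicit false

/-!
# [H20 FN Bez] greatest common divisors and Bezout coefficients from least values
-/

namespace Pool.Agent.H20.FN

variable {R : Type} [CommRing R] [LinearOrder R] [IsStrictOrderedRing R]

private theorem bez_red (hd : ∀ a : R, 0 < a → 1 ≤ a)
    (hv : ∀ a b : R, 0 < b → ∃ q, b * q ≤ a ∧ a < b * (q + 1)) {a b x y n : R} (ha : 0 < a) (hb : 0 < b)
    (hn : 0 ≤ n) (h : a * x + b * y = n) :
    ∃ x' y' : R, a * x' + b * y' = n ∧ 0 ≤ x' ∧ x' ≤ b ∧ -a ≤ y' ∧ y' ≤ n := by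
  obtain ⟨s, h1, h2⟩ := hv x b hb
  have hx0 : 0 ≤ x - b * s := by linarith
  have hxb : x - b * s ≤ b := by nlinarith
  have e : a * (x - b * s) + b * (y + a * s) = n := by rw [← h]; ring
  refine ⟨x - b * s, y + a * s, e, hx0, hxb, ?_, ?_⟩
  · have h3 : a * (x - b * s) ≤ a * b := mul_le_mul_of_nonneg_left hxb ha.le
    have h4 : b * (-a) ≤ b * (y + a * s) := by linarith
    exact le_of_mul_le_mul_left h4 hb
  · have h3 : 0 ≤ a * (x - b * s) := mul_nonneg ha.le hx0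
    have h4 : b * (y + a * s) ≤ n := by linarith
    rcases le_or_gt (y + a * s) 0 with h5 | h5
    · linarith
    · have h6 : 1 * (y + a * s) ≤ b * (y + a * s) := mul_le_mul_of_nonneg_right (hd b hb) h5.le
      linarith

private theorem bez_pos (hd : ∀ a : R, 0 < a → 1 ≤ a)
    (hv : ∀ a b : R, 0 < b → ∃ q, b * q ≤ a ∧ a < b * (q + 1))
    (hl : ∀ a b B W0 : R, 0 ≤ W0 → (∃ p q : R, |p| ≤ B ∧ |q| ≤ B ∧ a * p + b * q = W0 + 1) →
      ∃ W, 0 ≤ W ∧ (∃ p q : R, |p| ≤ B ∧ |q| ≤ B ∧ a * p + b * q = W + 1) ∧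
        ∀ W', 0 ≤ W' → W' < W → ¬ ∃ p q : R, |p| ≤ B ∧ |q| ≤ B ∧ a * p + b * q = W' + 1)
    {a b : R} (ha : 0 < a) (hb : 0 < b) :
    ∃ g p q a' b' : R, 0 < g ∧ a = g * a' ∧ b = g * b' ∧ p * a' + q * b' = 1 ∧
      |p| ≤ |b'| + 1 ∧ |q| ≤ |a'| + 1 := by
  have ha1 := hd a ha
  have hb1 := hd b hb
  have hB1 : |(1 : R)| ≤ a + b := by rw [abs_one]; linarith
  have hB0 : |(0 : R)| ≤ a + b := by rw [abs_zero]; linarith
  obtain ⟨W, hW, ⟨p0, q0, -, -, hpq⟩, hmin⟩ := hl a b (a + b) (a - 1) (by linarith)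
    ⟨1, 0, hB1, hB0, by ring⟩
  have hWa : W ≤ a - 1 := by
    by_contra hc
    exact hmin (a - 1) (by linarith) (not_le.1 hc) ⟨1, 0, hB1, hB0, by ring⟩
  set g := W + 1 with hg
  have hg0 : 0 < g := by rw [hg]; linarith
  have hga : g ≤ a := by rw [hg]; linarith
  -- small values are zero
  have key : ∀ x y r : R, a * x + b * y = r → 0 ≤ r → r < g → r = 0 := by
    intro x y r h hr hrg
    by_contra hne
    have hr0 : 0 < r := lt_of_le_of_ne hr (Ne.symm hne)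
    have hr1 := hd r hr0
    obtain ⟨x', y', e, h1, h2, h3, h4⟩ := bez_red hd hv ha hb hr h
    refine hmin (r - 1) (by linarith) (by rw [hg] at hrg; linarith) ⟨x', y', ?_, ?_, ?_⟩
    · rw [abs_of_nonneg h1]; linarith
    · rw [abs_le]; exact ⟨by linarith, by linarith⟩
    · rw [e]; ring
  obtain ⟨a', ha'1, ha'2⟩ := hv a g hg0
  obtain ⟨b', hb'1, hb'2⟩ := hv b g hg0
  have ea : a = g * a' := by
    have := key (1 - a' * p0) (-(a' * q0)) (a - g * a') (by rw [← hpq]; ring) (by linarith)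
      (by linarith)
    linarith
  have eb : b = g * b' := by
    have := key (-(b' * p0)) (1 - b' * q0) (b - g * b') (by rw [← hpq]; ring) (by linarith)
      (by linarith)
    linarith
  have ha'0 : 0 < a' := by
    rw [ea] at ha
    exact (mul_pos_iff_of_pos_left hg0).1 ha
  have hb'0 : 0 < b' := by
    rw [eb] at hb
    exact (mul_pos_iff_of_pos_left hg0).1 hb
  have h1 : a' * p0 + b' * q0 = 1 := by
    have h2 : g * (a' * p0 + b' * q0) = g * 1 := by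
      rw [mul_one]
      conv_rhs => rw [← hpq]
      rw [ea, eb]
      ring
    exact mul_left_cancel₀ hg0.ne' h2
  obtain ⟨p, q, e, h2, h3, h4, h5⟩ := bez_red hd hv ha'0 hb'0 zero_le_one h1
  refine ⟨g, p, q, a', b', hg0, ea, eb, by rw [← e]; ring, ?_, ?_⟩
  · rw [abs_of_nonneg h2, abs_of_pos hb'0]; linarith
  · rw [abs_of_pos ha'0, abs_le]; exact ⟨by linarith, by linarith⟩

theorem bez (hd : ∀ a : R, 0 < a → 1 ≤ a) (hv : ∀ a b : R, 0 < b → ∃ q, b * q ≤ a ∧ a < b * (q + 1))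
    (hl : ∀ a b B W0 : R, 0 ≤ W0 → (∃ p q : R, |p| ≤ B ∧ |q| ≤ B ∧ a * p + b * q = W0 + 1) →
      ∃ W, 0 ≤ W ∧ (∃ p q : R, |p| ≤ B ∧ |q| ≤ B ∧ a * p + b * q = W + 1) ∧
        ∀ W', 0 ≤ W' → W' < W → ¬ ∃ p q : R, |p| ≤ B ∧ |q| ≤ B ∧ a * p + b * q = W' + 1) :
    ∀ a b : R, (a ≠ 0 ∨ b ≠ 0) → ∃ g p q a' b' : R, 0 < g ∧ a = g * a' ∧ b = g * b' ∧
      p * a' + q * b' = 1 ∧ |p| ≤ |b'| + 1 ∧ |q| ≤ |a'| + 1 := by
  intro a b hab
  have sgn : ∀ a : R, a ≠ 0 → ∃ ε : R, ε * ε = 1 ∧ |ε| = 1 ∧ a = ε * |a| := by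
    intro a ha
    rcases lt_or_gt_of_ne ha with h | h
    · exact ⟨-1, by ring, by rw [abs_neg, abs_one], by rw [abs_of_neg h]; ring⟩
    · exact ⟨1, by ring, abs_one, by rw [abs_of_pos h]; ring⟩
  by_cases ha : a = 0
  · have hb : b ≠ 0 := by
      rcases hab with h | h
      · exact absurd ha h
      · exact h
    obtain ⟨ε, h1, h2, h3⟩ := sgn b hb
    refine ⟨|b|, 0, ε, 0, ε, abs_pos.2 hb, by rw [ha]; ring, by rw [mul_comm]; exact h3, ?_, ?_, ?_⟩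
    · rw [h1]; ring
    · rw [abs_zero]; positivity
    · rw [h2, abs_zero]; linarith
  by_cases hb : b = 0
  · obtain ⟨ε, h1, h2, h3⟩ := sgn a ha
    refine ⟨|a|, ε, 0, ε, 0, abs_pos.2 ha, by rw [mul_comm]; exact h3, by rw [hb]; ring, ?_, ?_, ?_⟩
    · rw [h1]; ring
    · rw [h2, abs_zero]; linarith
    · rw [abs_zero]; positivity
  obtain ⟨ε, h1, h2, h3⟩ := sgn a ha
  obtain ⟨δ, k1, k2, k3⟩ := sgn b hb
  obtain ⟨g, p, q, a', b', g0, ea, eb, e1, hp, hq⟩ :=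
    bez_pos hd hv hl (abs_pos.2 ha) (abs_pos.2 hb)
  refine ⟨g, ε * p, δ * q, ε * a', δ * b', g0, ?_, ?_, ?_, ?_, ?_⟩
  · conv_lhs => rw [h3, ea]
    ring
  · conv_lhs => rw [k3, eb]
    ring
  · linear_combination (p * a') * h1 + (q * b') * k1 + e1
  · rw [abs_mul, abs_mul, h2, k2, one_mul, one_mul]; exact hp
  · rw [abs_mul, abs_mul, h2, k2, one_mul, one_mul]; exact hq

end Pool.Agent.H20.FN
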