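import Pool.Agent.H20.FN.StripH

set_option autoImplicit false
set_option linter.unusedSectionVars false

/-!
# From the field to homogeneous vectors
-/

namespace Pool.Agent.H20.FN

variable {R F : Type} [CommRing R] [LinearOrder R] [IsStrictOrderedRing R]
  [Field F] [LinearOrder F] [IsStrictOrderedRing F]

/-- floors in the field -/
theorem floor_of (hv : ∀ a b : R, 0 < b → ∃ q, b * q ≤ a ∧ a < b * (q + 1))
    (ι : R →+* F) (hι : StrictMono ι) (hden : ∀ x : F, ∃ a b : R, 0 < b ∧ x * ι b = ι a) :
    ∀ x : F, ∃ q : R, ι q ≤ x ∧ x < ι q + 1 := by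
  intro x
  obtain ⟨a, b, hb, hx⟩ := hden x
  obtain ⟨q, hq1, hq2⟩ := hv a b hb
  have hb' : 0 < ι b := by
    have := hι hb
    rwa [map_zero] at this
  refine ⟨q, ?_, ?_⟩
  · have h1 := hι.monotone hq1
    rw [map_mul, ← hx] at h1
    refine le_of_mul_le_mul_right ?_ hb'
    linarith
  · have h1 := hι hq2
    rw [map_mul, map_add, map_one, ← hx] at h1
    refine lt_of_mul_lt_mul_right ?_ hb'.le
    linarith

/-- the points of the field given by homogeneous vectors -/
def toF (ι : R →+* F) {k : ℕ} (V : List (Fin (k + 1) → R)) : List (Fin k → F) :=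
  V.map fun v i => ι (v i.succ) / ι (v 0)

theorem strip_iff (ι : R →+* F) (hι : StrictMono ι) {k : ℕ} (V : List (Fin (k + 1) → R))
    (hpos : ∀ v ∈ V, 0 < v 0) (u : Fin k → R) (c W : R) :
    StripF ι (toF ι V) u c W ↔ StripH V u c W := by
  have key : ∀ v ∈ V, (ι c ≤ lin ι u (fun i => ι (v i.succ) / ι (v 0)) ∧
      lin ι u (fun i => ι (v i.succ) / ι (v 0)) ≤ ι (c + W)) ↔
      (c * v 0 ≤ ∑ i : Fin k, u i * v i.succ ∧ ∑ i : Fin k, u i * v i.succ ≤ (c + W) * v 0) := by
    intro v hv
    have hv0 : 0 < ι (v 0) := by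
      have := hι (hpos v hv)
      rwa [map_zero] at this
    have e : lin ι u (fun i => ι (v i.succ) / ι (v 0)) = ι (∑ i : Fin k, u i * v i.succ) / ι (v 0) := by
      unfold lin
      rw [map_sum, Finset.sum_div]
      refine Finset.sum_congr rfl fun i _ => ?_
      rw [map_mul, mul_div_assoc]
    rw [e, le_div_iff₀ hv0, div_le_iff₀ hv0, ← map_mul, ← map_mul, hι.le_iff_le, hι.le_iff_le]
  unfold StripF StripH toF
  constructor
  · intro h v hv
    exact (key v hv).1 (h _ (List.mem_map_of_mem hv))
  · intro h y hy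
    obtain ⟨v, hv, rfl⟩ := List.mem_map.1 hy
    exact (key v hv).2 (h v hv)

theorem hf_of (ι : R →+* F) (hι : StrictMono ι) (k w : ℕ)
    (hflat : ∀ (V : List (Fin k → F)) (K : R), V ≠ [] → FatF ι V K → NoIntF ι V →
      ∃ (u : Fin k → R) (c : R), u ≠ 0 ∧ StripF ι V u c (w : R)) : HF R k w := by
  intro V K hpos hne hfat hno
  obtain ⟨u, c, hu, hs⟩ := hflat (toF ι V) K (by simpa [toF] using hne)
    (fun u c W hW hs i => hfat u c W hW ((strip_iff ι hι V hpos u c W).1 hs) i)
    (by
      intro x hx
      obtain ⟨f, hf1, hf2⟩ := hno x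
      have hlin : IsLinearMap F (fun y : Fin k → F => ∑ i, ι (f i.succ) * y i) := by
        constructor
        · intro a b
          rw [← Finset.sum_add_distrib]
          refine Finset.sum_congr rfl fun i _ => ?_
          rw [Pi.add_apply]; ring
        · intro t a
          rw [smul_eq_mul, Finset.mul_sum]
          refine Finset.sum_congr rfl fun i _ => ?_
          rw [Pi.smul_apply, smul_eq_mul]; ring
      have hsub : {v | v ∈ toF ι V} ⊆ {y : Fin k → F | -ι (f 0) ≤ ∑ i, ι (f i.succ) * y i} := by
        intro y hy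
        obtain ⟨v, hv, rfl⟩ := List.mem_map.1 hy
        have hv0 : 0 < ι (v 0) := by
          have := hι (hpos v hv)
          rwa [map_zero] at this
        have h1 := hι.monotone (hf1 v hv)
        rw [map_zero] at h1
        have e : ι (ap f v) = ι (v 0) * (ι (f 0) + ∑ i : Fin k, ι (f i.succ) *
            (ι (v i.succ) / ι (v 0))) := by
          unfold ap
          rw [map_sum, Fin.sum_univ_succ, mul_add, Finset.mul_sum, map_mul]
          congr 1
          · ring
          · refine Finset.sum_congr rfl fun i _ => ?_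
            rw [map_mul]
            field_simp
        rw [e] at h1
        have h2 := nonneg_of_mul_nonneg_right h1 hv0
        show -ι (f 0) ≤ ∑ i : Fin k, ι (f i.succ) * (ι (v i.succ) / ι (v 0))
        linarith
      have hx2 := convexHull_min hsub (convex_halfSpace_ge hlin _) hx
      have h3 : -ι (f 0) ≤ ∑ i : Fin k, ι (f i.succ) * ι (x i) := hx2
      have h4 := hι hf2
      rw [map_zero] at h4
      have e : ι (ap f (Fin.cons 1 x : Fin (k + 1) → R)) =
          ι (f 0) + ∑ i : Fin k, ι (f i.succ) * ι (x i) := by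
        unfold ap
        rw [map_sum, Fin.sum_univ_succ]
        simp only [Fin.cons_zero, Fin.cons_succ, map_mul, map_one, mul_one]
      rw [e] at h4
      linarith)
  exact ⟨u, c, hu, (strip_iff ι hι V hpos u c (w : R)).1 hs⟩

end Pool.Agent.H20.FN
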