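import Pool.Agent.H20.FN.Defs

set_option autoImplicit false

/-!
# Completion of a vector to a unimodular matrix over a discretely ordered ring with Bezout relations
-/

namespace Pool.Agent.H20.FN

section

variable {R : Type} [CommRing R] [LinearOrder R] [IsStrictOrderedRing R]

/-- the sum of squares bounds the entries -/
theorem abs_le_sumsq {k : ℕ} (u : Fin k → R) (i : Fin k) : |u i| + 1 ≤ 2 + ∑ l, u l * u l := by
  have h1 : u i * u i ≤ ∑ l, u l * u l :=
    Finset.single_le_sum (f := fun l => u l * u l) (fun l _ => mul_self_nonneg (u l))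
      (Finset.mem_univ i)
  have h2 : |u i| ≤ 1 + u i * u i := by
    have h3 := mul_self_nonneg (|u i| - 1)
    have h4 : |u i| * |u i| = u i * u i := abs_mul_abs_self (u i)
    have h5 := abs_nonneg (u i)
    nlinarith
  linarith

theorem two_le_sumsq {k : ℕ} (u : Fin k → R) : (2 : R) ≤ 2 + ∑ l, u l * u l := by
  have : 0 ≤ ∑ l, u l * u l := Finset.sum_nonneg fun l _ => mul_self_nonneg (u l)
  linarith

/-- a vector with only one nonzero entry -/
theorem compl_first (k e : ℕ) (u : Fin (k + 1) → R) (hu : u ≠ 0) (h : ∀ i : Fin k, u i.succ = 0) :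
    ∃ (g : R) (A B : Matrix (Fin (k + 1)) (Fin (k + 1)) R),
    0 < g ∧ A * B = 1 ∧ B * A = 1 ∧ (∀ i, u i = g * A 0 i) ∧
    (∀ i j, |A i j| ≤ (2 + ∑ l, u l * u l) ^ e) ∧ ∀ i j, |B i j| ≤ (2 + ∑ l, u l * u l) ^ e := by
  have h0 : u 0 ≠ 0 := by
    intro h0
    apply hu
    funext i
    refine Fin.cases ?_ (fun j => ?_) i
    · exact h0
    · exact h j
  obtain ⟨s, hs, hss⟩ : ∃ s : R, u 0 = |u 0| * s ∧ s * s = 1 := by
    rcases le_total 0 (u 0) with h1 | h1
    · exact ⟨1, by rw [abs_of_nonneg h1, mul_one], one_mul 1⟩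
    · exact ⟨-1, by rw [abs_of_nonpos h1]; ring, by ring⟩
  have hsa : |s| ≤ 1 := by
    have : |s| * |s| = 1 := by rw [abs_mul_abs_self, hss]
    have h2 := abs_nonneg s
    nlinarith
  have h2 := two_le_sumsq u
  have hp : (1 : R) ≤ (2 + ∑ l, u l * u l) ^ e := one_le_pow₀ (by linarith)
  have hbd : ∀ i j, |(Matrix.diagonal (Fin.cons s (fun _ => 1) : Fin (k + 1) → R)) i j| ≤
      (2 + ∑ l, u l * u l) ^ e := by
    intro i j
    refine le_trans ?_ hp
    by_cases hij : i = j
    · subst hij
      rw [Matrix.diagonal_apply_eq]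
      refine Fin.cases ?_ (fun j => ?_) i
      · simpa using hsa
      · simp
    · rw [Matrix.diagonal_apply_ne _ hij]
      simp
  have hmul : Matrix.diagonal (Fin.cons s (fun _ => 1) : Fin (k + 1) → R) *
      Matrix.diagonal (Fin.cons s (fun _ => 1) : Fin (k + 1) → R) = 1 := by
    rw [Matrix.diagonal_mul_diagonal, ← Matrix.diagonal_one]
    congr 1
    funext i
    refine Fin.cases ?_ (fun j => ?_) i
    · simpa using hss
    · simp
  refine ⟨|u 0|, _, _, abs_pos.2 h0, hmul, hmul, ?_, hbd, hbd⟩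
  intro i
  refine Fin.cases ?_ (fun j => ?_) i
  · rw [Matrix.diagonal_apply_eq]
    simpa using hs
  · rw [Matrix.diagonal_apply_ne _ (Fin.succ_ne_zero j).symm, h j, mul_zero]

/-- the new matrix -/
def mA {k : ℕ} (A : Matrix (Fin (k + 1)) (Fin (k + 1)) R) (a b p q : R) :
    Matrix (Fin (k + 2)) (Fin (k + 2)) R :=
  Matrix.of fun i => (Fin.cons (Fin.cons a fun j => b * A 0 j)
    (Fin.cons (Fin.cons (-q) fun j => p * A 0 j)
      fun i : Fin k => (Fin.cons 0 fun j => A i.succ j : Fin (k + 2) → R) :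
        Fin (k + 1) → Fin (k + 2) → R) : Fin (k + 2) → Fin (k + 2) → R) i

/-- its inverse -/
def mB {k : ℕ} (B : Matrix (Fin (k + 1)) (Fin (k + 1)) R) (a b p q : R) :
    Matrix (Fin (k + 2)) (Fin (k + 2)) R :=
  Matrix.of fun i j => (Fin.cons (Fin.cons p fun i => q * B i 0)
    (Fin.cons (Fin.cons (-b) fun i => a * B i 0)
      fun j : Fin k => (Fin.cons 0 fun i => B i j.succ : Fin (k + 2) → R) :
        Fin (k + 1) → Fin (k + 2) → R) : Fin (k + 2) → Fin (k + 2) → R) j i

theorem mA_mul_mB {k : ℕ} (A B : Matrix (Fin (k + 1)) (Fin (k + 1)) R) (hAB : A * B = 1)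
    {a b p q : R} (h : p * a + q * b = 1) : mA A a b p q * mB B a b p q = 1 := by
  have hs : ∀ i j, ∑ l, A i l * B l j = if i = j then 1 else 0 := by
    intro i j
    rw [← Matrix.mul_apply, hAB, Matrix.one_apply]
  have hc : ∀ (c d : R) (i j : Fin (k + 1)), ∑ l, c * A i l * (d * B l j) =
      c * d * ∑ l, A i l * B l j := by
    intro c d i j
    rw [Finset.mul_sum]
    exact Finset.sum_congr rfl fun l _ => by ring
  have hc1 : ∀ (c : R) (i j : Fin (k + 1)), ∑ l, c * A i l * B l j =
      c * ∑ l, A i l * B l j := by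
    intro c i j
    rw [Finset.mul_sum]
    exact Finset.sum_congr rfl fun l _ => by ring
  have hc2 : ∀ (d : R) (i j : Fin (k + 1)), ∑ l, A i l * (d * B l j) =
      d * ∑ l, A i l * B l j := by
    intro d i j
    rw [Finset.mul_sum]
    exact Finset.sum_congr rfl fun l _ => by ring
  ext i j
  rw [Matrix.mul_apply, Fin.sum_univ_succ]
  refine Fin.cases ?_ (fun i => ?_) i
  · refine Fin.cases ?_ (fun j => ?_) j
    · simp only [mA, mB, Matrix.of_apply, Fin.cons_zero, Fin.cons_succ]
      rw [hc, hs, if_pos rfl, Matrix.one_apply_eq]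
      linear_combination h
    · refine Fin.cases ?_ (fun j => ?_) j
      · simp only [mA, mB, Matrix.of_apply, Fin.cons_zero, Fin.cons_succ]
        rw [hc, hs, if_pos rfl, Matrix.one_apply_ne (by exact (Fin.succ_ne_zero _).symm)]
        ring
      · simp only [mA, mB, Matrix.of_apply, Fin.cons_zero, Fin.cons_succ]
        rw [hc1, hs, if_neg (Fin.succ_ne_zero j).symm,
          Matrix.one_apply_ne (by exact (Fin.succ_ne_zero _).symm)]
        ring
  · refine Fin.cases ?_ (fun i => ?_) i
    · refine Fin.cases ?_ (fun j => ?_) j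
      · simp only [mA, mB, Matrix.of_apply, Fin.cons_zero, Fin.cons_succ]
        rw [hc, hs, if_pos rfl, Matrix.one_apply_ne (by exact Fin.succ_ne_zero _)]
        ring
      · refine Fin.cases ?_ (fun j => ?_) j
        · simp only [mA, mB, Matrix.of_apply, Fin.cons_zero, Fin.cons_succ]
          rw [hc, hs, if_pos rfl, Matrix.one_apply_eq]
          linear_combination h
        · simp only [mA, mB, Matrix.of_apply, Fin.cons_zero, Fin.cons_succ]
          rw [hc1, hs, if_neg (Fin.succ_ne_zero j).symm, Matrix.one_apply_ne (by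
            intro h; exact (Fin.succ_ne_zero j) (Fin.succ_injective _ h).symm)]
          ring
    · refine Fin.cases ?_ (fun j => ?_) j
      · simp only [mA, mB, Matrix.of_apply, Fin.cons_zero, Fin.cons_succ]
        rw [hc2, hs, if_neg (Fin.succ_ne_zero i), Matrix.one_apply_ne (by exact Fin.succ_ne_zero _)]
        ring
      · refine Fin.cases ?_ (fun j => ?_) j
        · simp only [mA, mB, Matrix.of_apply, Fin.cons_zero, Fin.cons_succ]
          rw [hc2, hs, if_neg (Fin.succ_ne_zero i), Matrix.one_apply_ne (by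
            intro h; exact (Fin.succ_ne_zero i) (Fin.succ_injective _ h))]
          ring
        · simp only [mA, mB, Matrix.of_apply, Fin.cons_zero, Fin.cons_succ]
          rw [hs]
          by_cases hij : i = j
          · subst hij
            rw [if_pos rfl, Matrix.one_apply_eq]
            ring
          · rw [if_neg (fun h => hij (Fin.succ_injective _ h)), Matrix.one_apply_ne (by
              intro h; exact hij (Fin.succ_injective _ (Fin.succ_injective _ h)))]
            ring

theorem mA_bd {k : ℕ} (A : Matrix (Fin (k + 1)) (Fin (k + 1)) R) {a b p q S T : R} (hS : 1 ≤ S)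
    (hT : 1 ≤ T) (ha : |a| ≤ S) (hb : |b| ≤ S) (hp : |p| ≤ S) (hq : |q| ≤ S)
    (hA : ∀ i j, |A i j| ≤ T) : ∀ i j, |mA A a b p q i j| ≤ S * T := by
  have hS0 : 0 ≤ S := by linarith
  have hST : S ≤ S * T := le_mul_of_one_le_right hS0 hT
  have hTS : T ≤ S * T := le_mul_of_one_le_left (by linarith) hS
  have h0 : (0 : R) ≤ S * T := by linarith
  have hm : ∀ (c : R) (i j : Fin (k + 1)), |c| ≤ S → |c * A i j| ≤ S * T := by
    intro c i j hc
    rw [abs_mul]
    exact mul_le_mul hc (hA i j) (abs_nonneg _) hS0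
  intro i j
  refine Fin.cases ?_ (fun i => ?_) i
  · refine Fin.cases ?_ (fun j => ?_) j
    · simp only [mA, Matrix.of_apply, Fin.cons_zero]
      exact ha.trans hST
    · simp only [mA, Matrix.of_apply, Fin.cons_zero, Fin.cons_succ]
      exact hm b 0 j hb
  · refine Fin.cases ?_ (fun i => ?_) i
    · refine Fin.cases ?_ (fun j => ?_) j
      · simp only [mA, Matrix.of_apply, Fin.cons_zero, Fin.cons_succ, abs_neg]
        exact hq.trans hST
      · simp only [mA, Matrix.of_apply, Fin.cons_zero, Fin.cons_succ]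
        exact hm p 0 j hp
    · refine Fin.cases ?_ (fun j => ?_) j
      · simp only [mA, Matrix.of_apply, Fin.cons_zero, Fin.cons_succ, abs_zero]
        exact h0
      · simp only [mA, Matrix.of_apply, Fin.cons_succ]
        exact (hA _ _).trans hTS

theorem mB_bd {k : ℕ} (B : Matrix (Fin (k + 1)) (Fin (k + 1)) R) {a b p q S T : R} (hS : 1 ≤ S)
    (hT : 1 ≤ T) (ha : |a| ≤ S) (hb : |b| ≤ S) (hp : |p| ≤ S) (hq : |q| ≤ S)
    (hB : ∀ i j, |B i j| ≤ T) : ∀ i j, |mB B a b p q i j| ≤ S * T := by
  have hS0 : 0 ≤ S := by linarith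
  have hST : S ≤ S * T := le_mul_of_one_le_right hS0 hT
  have hTS : T ≤ S * T := le_mul_of_one_le_left (by linarith) hS
  have h0 : (0 : R) ≤ S * T := by linarith
  have hm : ∀ (c : R) (i j : Fin (k + 1)), |c| ≤ S → |c * B i j| ≤ S * T := by
    intro c i j hc
    rw [abs_mul]
    exact mul_le_mul hc (hB i j) (abs_nonneg _) hS0
  intro i j
  refine Fin.cases ?_ (fun j => ?_) j
  · refine Fin.cases ?_ (fun i => ?_) i
    · simp only [mB, Matrix.of_apply, Fin.cons_zero]
      exact hp.trans hST
    · simp only [mB, Matrix.of_apply, Fin.cons_zero, Fin.cons_succ]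
      exact hm q i 0 hq
  · refine Fin.cases ?_ (fun j => ?_) j
    · refine Fin.cases ?_ (fun i => ?_) i
      · simp only [mB, Matrix.of_apply, Fin.cons_zero, Fin.cons_succ, abs_neg]
        exact hb.trans hST
      · simp only [mB, Matrix.of_apply, Fin.cons_zero, Fin.cons_succ]
        exact hm a i 0 ha
    · refine Fin.cases ?_ (fun i => ?_) i
      · simp only [mB, Matrix.of_apply, Fin.cons_zero, Fin.cons_succ, abs_zero]
        exact h0
      · simp only [mB, Matrix.of_apply, Fin.cons_succ]
        exact (hB _ _).trans hTS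

theorem compl_k (hd : ∀ a : R, 0 < a → 1 ≤ a)
    (hb : ∀ a b : R, (a ≠ 0 ∨ b ≠ 0) → ∃ g p q a' b' : R, 0 < g ∧ a = g * a' ∧ b = g * b' ∧
      p * a' + q * b' = 1 ∧ |p| ≤ |b'| + 1 ∧ |q| ≤ |a'| + 1) (k : ℕ) : Compl R k k := by
  have habs : ∀ a : R, a ≠ 0 → 1 ≤ |a| := fun a ha => hd _ (abs_pos.2 ha)
  induction k with
  | zero =>
    intro u hu
    exact compl_first 0 0 u hu fun i => i.elim0
  | succ k ih =>
    intro u hu
    by_cases h : ∀ i : Fin (k + 1), u i.succ = 0
    · exact compl_first (k + 1) (k + 1) u hu h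
    · have hne : (fun i : Fin (k + 1) => u i.succ) ≠ 0 := by
        intro h0
        exact h fun i => congrFun h0 i
      obtain ⟨g₁, A₁, B₁, hg₁, h1, _, h3, h4, h5⟩ := ih _ hne
      obtain ⟨g, p, q, a, b, hg, ha, hb', hpq, hp, hq⟩ := hb (u 0) g₁ (Or.inr hg₁.ne')
      push Not at h
      obtain ⟨i₀, hi₀⟩ := h
      have hS2 := two_le_sumsq u
      have hS1 : (1 : R) ≤ 2 + ∑ l, u l * u l := by linarith
      have hg1 : 1 ≤ g := hd g hg
      have haS : |a| + 1 ≤ 2 + ∑ l, u l * u l := by
        refine le_trans ?_ (abs_le_sumsq u 0)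
        have : |u 0| = g * |a| := by rw [ha, abs_mul, abs_of_pos hg]
        rw [this]
        have := le_mul_of_one_le_left (abs_nonneg a) hg1
        linarith
      have hbS : |b| + 1 ≤ 2 + ∑ l, u l * u l := by
        refine le_trans ?_ (abs_le_sumsq u i₀.succ)
        have e1 : |u i₀.succ| = g₁ * |A₁ 0 i₀| := by
          have := h3 i₀
          rw [this, abs_mul, abs_of_pos hg₁]
        have e2 : A₁ 0 i₀ ≠ 0 := by
          intro h0
          apply hi₀
          have := h3 i₀
          rw [this, h0, mul_zero]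
        have e3 := le_mul_of_one_le_right hg₁.le (habs _ e2)
        have e4 : g₁ = g * |b| := by
          have : |g₁| = g * |b| := by rw [hb', abs_mul, abs_of_pos hg]
          rw [← this, abs_of_pos hg₁]
        have e5 := le_mul_of_one_le_left (abs_nonneg b) hg1
        linarith
      have hS₁ : 2 + ∑ l : Fin (k + 1), u l.succ * u l.succ ≤ 2 + ∑ l, u l * u l := by
        rw [Fin.sum_univ_succ (fun l : Fin (k + 2) => u l * u l)]
        have := mul_self_nonneg (u 0)
        linarith
      have h2₁ := two_le_sumsq fun l : Fin (k + 1) => u l.succ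
      have hpow : (2 + ∑ l : Fin (k + 1), u l.succ * u l.succ) ^ k ≤
          (2 + ∑ l, u l * u l) ^ k := pow_le_pow_left₀ (by linarith) hS₁ k
      have hAB := mA_mul_mB A₁ B₁ h1 hpq
      refine ⟨g, mA A₁ a b p q, mB B₁ a b p q, hg, hAB, mul_eq_one_comm.1 hAB, ?_, ?_, ?_⟩
      · intro i
        refine Fin.cases ?_ (fun i => ?_) i
        · simp only [mA, Matrix.of_apply, Fin.cons_zero]
          exact ha
        · simp only [mA, Matrix.of_apply, Fin.cons_zero, Fin.cons_succ]
          have := h3 i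
          rw [this, hb']
          ring
      · intro i j
        have := mA_bd A₁ (a := a) (b := b) (p := p) (q := q) hS1 (one_le_pow₀ hS1 : (1 : R) ≤
          (2 + ∑ l, u l * u l) ^ k) (by linarith) (by linarith) (by linarith) (by linarith)
          (fun i j => (h4 i j).trans hpow) i j
        rw [pow_succ']
        exact this
      · intro i j
        have := mB_bd B₁ (a := a) (b := b) (p := p) (q := q) hS1 (one_le_pow₀ hS1 : (1 : R) ≤
          (2 + ∑ l, u l * u l) ^ k) (by linarith) (by linarith) (by linarith) (by linarith)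
          (fun i j => (h5 i j).trans hpow) i j
        rw [pow_succ']
        exact this

end

/-- Completion of nonzero vectors to unimodular matrices; the exponent does not depend on the ring. -/
theorem compl (k : ℕ) : ∃ e : ℕ, ∀ (R : Type) [CommRing R] [LinearOrder R] [IsStrictOrderedRing R],
    (∀ a : R, 0 < a → 1 ≤ a) →
    (∀ a b : R, (a ≠ 0 ∨ b ≠ 0) → ∃ g p q a' b' : R, 0 < g ∧ a = g * a' ∧ b = g * b' ∧
      p * a' + q * b' = 1 ∧ |p| ≤ |b'| + 1 ∧ |q| ≤ |a'| + 1) → Compl R k e :=
  ⟨k, fun _ _ _ _ hd hb => compl_k hd hb k⟩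

end Pool.Agent.H20.FN
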