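import Mathlib

set_option autoImplicit false

/-!
# From the crossings at a column to a strip
-/

namespace Pool.Agent.H20.FN

variable {R F : Type} [CommRing R] [LinearOrder R] [IsStrictOrderedRing R]
  [Field F] [LinearOrder F] [IsStrictOrderedRing F]

theorem kl (_hd : ∀ a : R, 0 < a → 1 ≤ a) (ι : R →+* F) (hι : StrictMono ι)
    (hfl : ∀ x : F, ∃ q : R, ι q ≤ x ∧ x < ι q + 1) {S : Type} (ξ υ : S → F)
    (c m W W2 : R) (i j : S) (hW : 16 ≤ W) (hW2 : W ≤ 2 * W2)
    (hξ : ∀ s, ι c ≤ ξ s ∧ ξ s ≤ ι (c + W)) (hi : ξ i < ι c + 1) (hj : ι (c + W) - 1 < ξ j)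
    (hm : 2 * c + W ≤ 2 * m + 1) (hm' : 2 * m ≤ 2 * c + W + 1) (c' W' : R) (hW' : 0 ≤ W')
    (hcr : ∀ s r, ξ s ≤ ι m → ι m < ξ r →
      ι c' * (ξ r - ξ s) ≤ (ξ r - ι m) * υ s + (ι m - ξ s) * υ r ∧
      (ξ r - ι m) * υ s + (ι m - ξ s) * υ r ≤ ι (c' + W') * (ξ r - ξ s)) :
    ∃ κ c'' : R, ∀ s, ι c'' ≤ υ s - ι κ * ξ s ∧
      υ s - ι κ * ξ s ≤ ι (c'' + (W2 + 8 * W' + 3)) := by
  have hmono := hι.monotone
  -- the inequalities in `F`
  have gW : (16 : F) ≤ ι W := by
    have := hmono hW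
    rwa [map_ofNat] at this
  have gW2 : ι W ≤ 2 * ι W2 := by
    have := hmono hW2
    rwa [map_mul, map_ofNat] at this
  have gm : 2 * ι c + ι W ≤ 2 * ι m + 1 := by
    have := hmono hm
    simpa only [map_add, map_mul, map_ofNat, map_one] using this
  have gm' : 2 * ι m ≤ 2 * ι c + ι W + 1 := by
    have := hmono hm'
    simpa only [map_add, map_mul, map_ofNat, map_one] using this
  have gW' : 0 ≤ ι W' := by
    have := hmono hW'
    rwa [map_zero] at this
  simp only [map_add] at hξ hj hcr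
  have hD : 0 < ξ j - ξ i := by linarith
  have him : ξ i ≤ ι m := by linarith
  have hjm : ι m < ξ j := by linarith
  obtain ⟨σ, hσ⟩ : ∃ σ : F, υ j - υ i = σ * (ξ j - ξ i) :=
    ⟨(υ j - υ i) / (ξ j - ξ i), by field_simp⟩
  obtain ⟨κ, hκ1, hκ2⟩ := hfl (σ + 1 / 2)
  -- the value at `m` of the line
  have hij := hcr i j him hjm
  have elm : (ξ j - ι m) * υ i + (ι m - ξ i) * υ j =
      (υ i + σ * (ι m - ξ i)) * (ξ j - ξ i) := by
    have e1 : υ j = υ i + σ * (ξ j - ξ i) := by linear_combination hσ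
    rw [e1]; ring
  rw [elm] at hij
  have l1 : ι c' ≤ υ i + σ * (ι m - ξ i) := le_of_mul_le_mul_right hij.1 hD
  have l2 : υ i + σ * (ι m - ξ i) ≤ ι c' + ι W' := le_of_mul_le_mul_right hij.2 hD
  -- the distances from the line
  have hH : ∀ s, |υ s - (υ i + σ * (ξ s - ξ i))| ≤ 4 * ι W' := by
    intro s
    obtain ⟨b1, b2⟩ := hξ s
    rcases le_or_gt (ξ s) (ι m) with h | h
    · have hsj := hcr s j h hjm
      have hp : 0 < ξ j - ξ s := by linarith
      have e1 : (ξ j - ι m) * υ s + (ι m - ξ s) * υ j =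
          (υ i + σ * (ι m - ξ i)) * (ξ j - ξ s) +
            (υ s - (υ i + σ * (ξ s - ξ i))) * (ξ j - ι m) := by
        have e1 : υ j = υ i + σ * (ξ j - ξ i) := by linear_combination hσ
        rw [e1]; ring
      rw [e1] at hsj
      have q0 : 0 < ξ j - ι m := by linarith
      have q1 : (υ s - (υ i + σ * (ξ s - ξ i))) * (ξ j - ι m) ≤ ι W' * (ξ j - ξ s) := by
        have := mul_le_mul_of_nonneg_right l1 hp.le
        linarith [hsj.2]
      have q2 : -(ι W' * (ξ j - ξ s)) ≤ (υ s - (υ i + σ * (ξ s - ξ i))) * (ξ j - ι m) := by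
        have := mul_le_mul_of_nonneg_right l2 hp.le
        linarith [hsj.1]
      have q3 : ι W' * (ξ j - ξ s) ≤ 4 * ι W' * (ξ j - ι m) := by
        have : ξ j - ξ s ≤ 4 * (ξ j - ι m) := by linarith
        have := mul_le_mul_of_nonneg_left this gW'
        linarith
      rw [abs_le]
      constructor
      · refine le_of_mul_le_mul_right ?_ q0
        linarith
      · refine le_of_mul_le_mul_right ?_ q0
        linarith
    · have his := hcr i s him h
      have hp : 0 < ξ s - ξ i := by linarith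
      have e1 : (ξ s - ι m) * υ i + (ι m - ξ i) * υ s =
          (υ i + σ * (ι m - ξ i)) * (ξ s - ξ i) +
            (υ s - (υ i + σ * (ξ s - ξ i))) * (ι m - ξ i) := by ring
      rw [e1] at his
      have q0 : 0 < ι m - ξ i := by linarith
      have q1 : (υ s - (υ i + σ * (ξ s - ξ i))) * (ι m - ξ i) ≤ ι W' * (ξ s - ξ i) := by
        have := mul_le_mul_of_nonneg_right l1 hp.le
        linarith [his.2]
      have q2 : -(ι W' * (ξ s - ξ i)) ≤ (υ s - (υ i + σ * (ξ s - ξ i))) * (ι m - ξ i) := by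
        have := mul_le_mul_of_nonneg_right l2 hp.le
        linarith [his.1]
      have q3 : ι W' * (ξ s - ξ i) ≤ 4 * ι W' * (ι m - ξ i) := by
        have : ξ s - ξ i ≤ 4 * (ι m - ξ i) := by linarith [(hξ i).1]
        have := mul_le_mul_of_nonneg_left this gW'
        linarith
      rw [abs_le]
      constructor
      · refine le_of_mul_le_mul_right ?_ q0
        linarith
      · refine le_of_mul_le_mul_right ?_ q0
        linarith
  -- the strip
  rcases le_total (ι κ) σ with hs | hs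
  · obtain ⟨q, hq1, hq2⟩ := hfl (υ i - ι κ * ξ i + (σ - ι κ) * (ι c - ξ i) - 4 * ι W')
    refine ⟨κ, q, fun s => ?_⟩
    obtain ⟨a1, a2⟩ := abs_le.1 (hH s)
    obtain ⟨b1, b2⟩ := hξ s
    have t0 : 0 ≤ (σ - ι κ) * (ξ s - ι c) := mul_nonneg (by linarith) (by linarith)
    have t1 : (σ - ι κ) * (ξ s - ι c) ≤ 1 / 2 * ι W :=
      mul_le_mul (by linarith) (by linarith) (by linarith) (by norm_num)
    simp only [map_add, map_mul, map_ofNat]
    constructor
    · linarith
    · linarith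
  · obtain ⟨q, hq1, hq2⟩ := hfl (υ i - ι κ * ξ i + (σ - ι κ) * (ι c - ξ i) - 4 * ι W' - ι W2)
    refine ⟨κ, q, fun s => ?_⟩
    obtain ⟨a1, a2⟩ := abs_le.1 (hH s)
    obtain ⟨b1, b2⟩ := hξ s
    have t0 : 0 ≤ (ι κ - σ) * (ξ s - ι c) := mul_nonneg (by linarith) (by linarith)
    have t1 : (ι κ - σ) * (ξ s - ι c) ≤ 1 / 2 * ι W :=
      mul_le_mul (by linarith) (by linarith) (by linarith) (by norm_num)
    simp only [map_add, map_mul, map_ofNat]
    constructor
    · linarith
    · linarith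

end Pool.Agent.H20.FN
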