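import Pool.Agent.H20.FN.FKa
import Pool.Agent.H20.FN.KL

set_option autoImplicit false
set_option linter.unusedSectionVars false

/-!
# Flatness in every dimension
-/

namespace Pool.Agent.H20.FN

variable {R F : Type} [CommRing R] [LinearOrder R] [IsStrictOrderedRing R]
  [Field F] [LinearOrder F] [IsStrictOrderedRing F]

/-- the statement of the planar step -/
def KLStatement (ι : R →+* F) : Prop :=
  ∀ {S : Type} (ξ υ : S → F) (c m W W2 : R) (i j : S), 16 ≤ W → W ≤ 2 * W2 →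
    (∀ s, ι c ≤ ξ s ∧ ξ s ≤ ι (c + W)) → ξ i < ι c + 1 → ι (c + W) - 1 < ξ j →
    2 * c + W ≤ 2 * m + 1 → 2 * m ≤ 2 * c + W + 1 → ∀ (c' W' : R), 0 ≤ W' →
    (∀ s r, ξ s ≤ ι m → ι m < ξ r → ι c' * (ξ r - ξ s) ≤ (ξ r - ι m) * υ s + (ι m - ξ s) * υ r ∧
      (ξ r - ι m) * υ s + (ι m - ξ s) * υ r ≤ ι (c' + W') * (ξ r - ξ s)) →
    ∃ κ c'' : R, ∀ s, ι c'' ≤ υ s - ι κ * ξ s ∧ υ s - ι κ * ξ s ≤ ι (c'' + (W2 + 8 * W' + 3))

/-- the last coordinates -/
def zr (ι : R →+* F) {k : ℕ} (A : Matrix (Fin (k + 1)) (Fin (k + 1)) R) (v : Fin (k + 1) → F) :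
    Fin k → F := fun j => lin ι (A j.succ) v

/-- the crossing point of the column `m` -/
def cross (ι : R →+* F) {k : ℕ} (A : Matrix (Fin (k + 1)) (Fin (k + 1)) R) (m : R)
    (v w : Fin (k + 1) → F) : Fin k → F := fun j =>
  ((lin ι (A 0) w - ι m) * zr ι A v j + (ι m - lin ι (A 0) v) * zr ι A w j) /
    (lin ι (A 0) w - lin ι (A 0) v)

/-- all crossing points -/
def crosses (ι : R →+* F) {k : ℕ} (A : Matrix (Fin (k + 1)) (Fin (k + 1)) R) (m : R)
    (V : List (Fin (k + 1) → F)) : List (Fin k → F) :=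
  ((V.product V).filter fun p => decide (lin ι (A 0) p.1 ≤ ι m ∧ ι m < lin ι (A 0) p.2)).map
    fun p => cross ι A m p.1 p.2

lemma mem_crosses {ι : R →+* F} {k : ℕ} {A : Matrix (Fin (k + 1)) (Fin (k + 1)) R} {m : R}
    {V : List (Fin (k + 1) → F)} {x : Fin k → F} :
    x ∈ crosses ι A m V ↔ ∃ v ∈ V, ∃ w ∈ V, lin ι (A 0) v ≤ ι m ∧ ι m < lin ι (A 0) w ∧
      x = cross ι A m v w := by
  unfold crosses
  simp only [List.mem_map, List.mem_filter, List.pair_mem_product, Prod.exists,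
    decide_eq_true_eq]
  constructor
  · rintro ⟨v, w, ⟨⟨h1, h2⟩, h3, h4⟩, rfl⟩
    exact ⟨v, h1, w, h2, h3, h4, rfl⟩
  · rintro ⟨v, h1, w, h2, h3, h4, rfl⟩
    exact ⟨v, w, ⟨⟨h1, h2⟩, h3, h4⟩, rfl⟩

/-- the point with given last coordinates on the column `m` -/
def Phi (ι : R →+* F) {k : ℕ} (B : Matrix (Fin (k + 1)) (Fin (k + 1)) R) (m : R)
    (p : Fin k → F) : Fin (k + 1) → F := fun i =>
  ι (B i 0) * ι m + ∑ j : Fin k, ι (B i j.succ) * p j

lemma inv_coord (ι : R →+* F) {k : ℕ} {A B : Matrix (Fin (k + 1)) (Fin (k + 1)) R}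
    (hBA : B * A = 1) (v : Fin (k + 1) → F) (i : Fin (k + 1)) :
    ι (B i 0) * lin ι (A 0) v + ∑ j : Fin k, ι (B i j.succ) * zr ι A v j = v i := by
  have h1 : ∑ j, ι (B i j) * lin ι (A j) v = v i := by
    have h2 : ∀ l, ∑ j, ι (B i j) * ι (A j l) = if i = l then 1 else 0 := by
      intro l
      have h3 : (B * A) i l = if i = l then 1 else 0 := by rw [hBA, Matrix.one_apply]
      rw [Matrix.mul_apply] at h3
      have h4 := congrArg ι h3
      rw [map_sum] at h4
      simp only [map_mul] at h4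
      rw [h4]
      split_ifs <;> simp
    calc ∑ j, ι (B i j) * lin ι (A j) v
        = ∑ j, ∑ l, ι (B i j) * ι (A j l) * v l := by
          refine Finset.sum_congr rfl fun j _ => ?_
          rw [lin, Finset.mul_sum]
          exact Finset.sum_congr rfl fun l _ => by ring
      _ = ∑ l, ∑ j, ι (B i j) * ι (A j l) * v l := Finset.sum_comm
      _ = ∑ l, (if i = l then 1 else 0) * v l := by
          refine Finset.sum_congr rfl fun l _ => ?_
          rw [← Finset.sum_mul, h2]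
      _ = v i := by simp
  rw [Fin.sum_univ_succ] at h1
  exact h1

lemma Phi_cross {ι : R →+* F} {k : ℕ} {A B : Matrix (Fin (k + 1)) (Fin (k + 1)) R}
    (hBA : B * A = 1) {m : R} {v w : Fin (k + 1) → F} (hv : lin ι (A 0) v ≤ ι m)
    (hw : ι m < lin ι (A 0) w) :
    Phi ι B m (cross ι A m v w) =
      ((lin ι (A 0) w - ι m) / (lin ι (A 0) w - lin ι (A 0) v)) • v +
      ((ι m - lin ι (A 0) v) / (lin ι (A 0) w - lin ι (A 0) v)) • w := by
  have hpos : 0 < lin ι (A 0) w - lin ι (A 0) v := by linarith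
  funext i
  have h1 := inv_coord ι hBA v i
  have h2 := inv_coord ι hBA w i
  rw [Pi.add_apply, Pi.smul_apply, Pi.smul_apply, smul_eq_mul, smul_eq_mul]
  conv_rhs => rw [← h1, ← h2]
  unfold Phi
  have h3 : ∑ j : Fin k, ι (B i j.succ) * cross ι A m v w j =
      ((lin ι (A 0) w - ι m) / (lin ι (A 0) w - lin ι (A 0) v)) *
        ∑ j : Fin k, ι (B i j.succ) * zr ι A v j +
      ((ι m - lin ι (A 0) v) / (lin ι (A 0) w - lin ι (A 0) v)) *
        ∑ j : Fin k, ι (B i j.succ) * zr ι A w j := by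
    rw [Finset.mul_sum, Finset.mul_sum, ← Finset.sum_add_distrib]
    refine Finset.sum_congr rfl fun j _ => ?_
    unfold cross
    field_simp
  rw [h3]
  field_simp
  ring

lemma NoInt_crosses {ι : R →+* F} {k : ℕ} {A B : Matrix (Fin (k + 1)) (Fin (k + 1)) R}
    (hBA : B * A = 1) {m : R} {V : List (Fin (k + 1) → F)} (h : NoIntF ι V) :
    NoIntF ι (crosses ι A m V) := by
  intro x hx
  have hsub : convexHull F {v | v ∈ crosses ι A m V} ⊆
      {p | Phi ι B m p ∈ convexHull F {v | v ∈ V}} := by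
    refine convexHull_min ?_ ?_
    · rintro p hp
      obtain ⟨v, hv, w, hw, h1, h2, rfl⟩ := mem_crosses.1 hp
      have hpos : 0 < lin ι (A 0) w - lin ι (A 0) v := by linarith
      show Phi ι B m (cross ι A m v w) ∈ convexHull F {v | v ∈ V}
      rw [Phi_cross hBA h1 h2]
      have hv' : v ∈ convexHull F {v | v ∈ V} :=
        subset_convexHull F {v | v ∈ V} (show v ∈ {v | v ∈ V} from hv)
      have hw' : w ∈ convexHull F {v | v ∈ V} :=
        subset_convexHull F {v | v ∈ V} (show w ∈ {v | v ∈ V} from hw)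
      refine (convex_convexHull F {v | v ∈ V}) hv' hw'
        (div_nonneg (by linarith) hpos.le) (div_nonneg (by linarith) hpos.le) ?_
      field_simp
      ring
    · intro p hp q hq a b ha hb hab
      show Phi ι B m (a • p + b • q) ∈ convexHull F {v | v ∈ V}
      have e : Phi ι B m (a • p + b • q) = a • Phi ι B m p + b • Phi ι B m q := by
        funext i
        simp only [Phi, Pi.add_apply, Pi.smul_apply, smul_eq_mul]
        have h1 : ∑ j : Fin k, ι (B i j.succ) * (a * p j + b * q j) =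
            a * ∑ j : Fin k, ι (B i j.succ) * p j + b * ∑ j : Fin k, ι (B i j.succ) * q j := by
          rw [Finset.mul_sum, Finset.mul_sum, ← Finset.sum_add_distrib]
          exact Finset.sum_congr rfl fun j _ => by ring
        rw [h1]
        linear_combination (-(ι (B i 0) * ι m)) * hab
      rw [e]
      exact (convex_convexHull F {v | v ∈ V}) hp hq ha hb hab
  have h1 : Phi ι B m (fun i => ι (x i)) ∈ convexHull F {v | v ∈ V} := hsub hx
  refine h (fun i => B i 0 * m + ∑ j : Fin k, B i j.succ * x j) ?_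
  have e : (fun i => ι (B i 0 * m + ∑ j : Fin k, B i j.succ * x j)) =
      Phi ι B m (fun i => ι (x i)) := by
    funext i
    simp only [Phi, map_add, map_mul, map_sum]
  rw [e]
  exact h1

/-- the direction with coordinates `-κ, u'` -/
def dir {k : ℕ} (A : Matrix (Fin (k + 1)) (Fin (k + 1)) R) (κ : R) (u' : Fin k → R) :
    Fin (k + 1) → R := Matrix.vecMul (Fin.cons (-κ) u') A

lemma lin_dir (ι : R →+* F) {k : ℕ} (A : Matrix (Fin (k + 1)) (Fin (k + 1)) R) (κ : R)
    (u' : Fin k → R) (v : Fin (k + 1) → F) :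
    lin ι (dir A κ u') v = lin ι u' (zr ι A v) - ι κ * lin ι (A 0) v := by
  have h1 : lin ι (dir A κ u') v =
      ∑ j, ι ((Fin.cons (-κ) u' : Fin (k + 1) → R) j) * lin ι (A j) v := by
    simp only [lin, dir, Matrix.vecMul, dotProduct, map_sum, map_mul]
    simp_rw [Finset.sum_mul, Finset.mul_sum]
    rw [Finset.sum_comm]
    exact Finset.sum_congr rfl fun j _ => Finset.sum_congr rfl fun l _ => by ring
  rw [h1, Fin.sum_univ_succ, Fin.cons_zero, map_neg]
  simp only [Fin.cons_succ]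
  unfold lin zr lin
  ring

lemma dir_mul {k : ℕ} {A B : Matrix (Fin (k + 1)) (Fin (k + 1)) R} (hAB : A * B = 1) (κ : R)
    (u' : Fin k → R) : Matrix.vecMul (dir A κ u') B = Fin.cons (-κ) u' := by
  rw [dir, Matrix.vecMul_vecMul, hAB, Matrix.vecMul_one]

lemma lin_cross {ι : R →+* F} {k : ℕ} {A : Matrix (Fin (k + 1)) (Fin (k + 1)) R} {m : R}
    {v w : Fin (k + 1) → F} (hv : lin ι (A 0) v ≤ ι m)
    (hw : ι m < lin ι (A 0) w) (u' : Fin k → R) :
    lin ι u' (cross ι A m v w) * (lin ι (A 0) w - lin ι (A 0) v) =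
      (lin ι (A 0) w - ι m) * lin ι u' (zr ι A v) + (ι m - lin ι (A 0) v) * lin ι u' (zr ι A w) := by
  have hpos : 0 < lin ι (A 0) w - lin ι (A 0) v := by linarith
  have h1 : lin ι u' (cross ι A m v w) * (lin ι (A 0) w - lin ι (A 0) v) =
      ∑ j, ι (u' j) * (cross ι A m v w j * (lin ι (A 0) w - lin ι (A 0) v)) := by
    rw [lin, Finset.sum_mul]
    exact Finset.sum_congr rfl fun j _ => by ring
  have h2 : ∀ j, cross ι A m v w j * (lin ι (A 0) w - lin ι (A 0) v) =
      (lin ι (A 0) w - ι m) * zr ι A v j + (ι m - lin ι (A 0) v) * zr ι A w j := by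
    intro j
    unfold cross
    exact div_mul_cancel₀ _ hpos.ne'
  have e1 : ∀ x : Fin (k + 1) → F, lin ι u' (zr ι A x) = ∑ j, ι (u' j) * zr ι A x j := fun _ => rfl
  rw [h1, e1, e1, Finset.mul_sum, Finset.mul_sum, ← Finset.sum_add_distrib]
  refine Finset.sum_congr rfl fun j _ => ?_
  rw [h2]
  ring

/-- the step: a strip of the section gives a strip -/
lemma lift_strip {ι : R →+* F} (hkl : KLStatement ι) {k : ℕ}
    {A : Matrix (Fin (k + 1)) (Fin (k + 1)) R} {V : List (Fin (k + 1) → F)} {c m W W2 : R}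
    (hW : 16 ≤ W) (hW2 : W ≤ 2 * W2) (hs : StripF ι V (A 0) c W)
    (hi : ∃ i ∈ V, lin ι (A 0) i < ι c + 1) (hj : ∃ j ∈ V, ι (c + W) - 1 < lin ι (A 0) j)
    (hm : 2 * c + W ≤ 2 * m + 1) (hm' : 2 * m ≤ 2 * c + W + 1) {u' : Fin k → R} {c' W' : R}
    (hW' : 0 ≤ W') (h : StripF ι (crosses ι A m V) u' c' W') :
    ∃ κ c'' : R, StripF ι V (dir A κ u') c'' (W2 + 8 * W' + 3) := by
  obtain ⟨i, hi, hi'⟩ := hi
  obtain ⟨j, hj, hj'⟩ := hj
  obtain ⟨κ, c'', hκ⟩ := hkl (S := {v // v ∈ V}) (fun s => lin ι (A 0) s.1)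
    (fun s => lin ι u' (zr ι A s.1)) c m W W2 ⟨i, hi⟩ ⟨j, hj⟩ hW hW2 (fun s => hs s.1 s.2) hi' hj'
    hm hm' c' W' hW' (by
      rintro ⟨s, hs'⟩ ⟨r, hr'⟩ h1 h2
      simp only at h1 h2 ⊢
      have hpos : 0 < lin ι (A 0) r - lin ι (A 0) s := by linarith
      obtain ⟨h3, h4⟩ := h (cross ι A m s r) (mem_crosses.2 ⟨s, hs', r, hr', h1, h2, rfl⟩)
      rw [← lin_cross h1 h2 u']
      exact ⟨mul_le_mul_of_nonneg_right h3 hpos.le, mul_le_mul_of_nonneg_right h4 hpos.le⟩)
  refine ⟨κ, c'', fun v hv => ?_⟩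
  rw [lin_dir]
  exact hκ ⟨v, hv⟩

theorem flatk_of_kl (k : ℕ) : ∃ w : ℕ, ∀ (R F : Type) [CommRing R] [LinearOrder R]
    [IsStrictOrderedRing R] [Field F] [LinearOrder F] [IsStrictOrderedRing F] (ι : R →+* F),
    StrictMono ι → (∀ a : R, 0 < a → 1 ≤ a) → (∀ x : F, ∃ q : R, ι q ≤ x ∧ x < ι q + 1) →
    KLStatement ι → LNPF ι → (∀ k, ∃ e, Compl R k e) → ∀ (V : List (Fin k → F)) (K : R), V ≠ [] →
    FatF ι V K → NoIntF ι V → ∃ (u : Fin k → R) (c : R), u ≠ 0 ∧ StripF ι V u c (w : R) := by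
  induction k with
  | zero =>
    refine ⟨0, ?_⟩
    intro R F _ _ _ _ _ _ ι _ _ _ _ _ _ V K hV _ hno
    exfalso
    obtain ⟨v, hv⟩ := List.exists_mem_of_ne_nil V hV
    refine hno 0 (subset_convexHull F _ ?_)
    have : (fun i => ι ((0 : Fin 0 → R) i)) = v := Subsingleton.elim _ _
    rw [this]
    exact hv
  | succ k ih =>
    obtain ⟨w, ih⟩ := ih
    refine ⟨16 * w + 40, ?_⟩
    intro R F _ _ _ _ _ _ ι hι hd hfl hkl hL hCo V K hV hfat hno
    obtain ⟨hK, u, c, W, hu, hs, hW0, hmin⟩ := minStrip hι hd hfl hL hV hfat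
    rcases le_or_gt W ((16 * w + 40 : ℕ) : R) with hWw | hWw
    · exact ⟨u, c, hu, strip_mono hι hs hWw⟩
    exfalso
    push_cast at hWw
    have hw0 : (0 : R) ≤ (w : R) := Nat.cast_nonneg w
    have hCo' := hCo
    obtain ⟨e, hCo⟩ := hCo k
    obtain ⟨g, A, B, hg, hAB, hBA, hgA, -, -⟩ := hCo u hu
    have hg1 : 1 ≤ g := hd g hg
    have hA0 : A 0 ≠ 0 := by
      intro h0
      apply hu
      funext i
      rw [hgA, h0]
      simp
    obtain ⟨c1, W1, hs1, hi1, hj1, htight⟩ := tight hι hd hfl hV (A 0)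
    have hWW1 : W ≤ W1 := hmin (A 0) c1 W1 hA0 hs1
    -- the strip of `A 0` is not much larger
    have hιg : 0 < ι g := by
      rw [← map_zero ι]
      exact hι hg
    have hιg1 : 1 ≤ ι g := by
      rw [← map_one ι]
      exact hι.monotone hg1
    have hlinu : ∀ v, lin ι u v = ι g * lin ι (A 0) v := by
      intro v
      rw [lin, lin, Finset.mul_sum]
      refine Finset.sum_congr rfl fun i _ => ?_
      rw [hgA, map_mul]
      ring
    have hW1 : W1 ≤ W + 1 := by
      obtain ⟨p, hp1, hp2⟩ := hfl (ι c / ι g)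
      obtain ⟨q, hq1, hq2⟩ := hfl (-(ι (c + W) / ι g))
      have h1 : StripF ι V (A 0) p (-q - p) := by
        intro v hv
        obtain ⟨h2, h3⟩ := hs v hv
        rw [hlinu] at h2 h3
        rw [show p + (-q - p) = -q by ring, map_neg]
        constructor
        · refine hp1.trans ?_
          rw [div_le_iff₀ hιg]
          linarith
        · have h4 : lin ι (A 0) v ≤ ι (c + W) / ι g := by
            rw [le_div_iff₀ hιg]
            linarith
          linarith
      have h2 := htight _ _ h1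
      have h3 : -q - p < W + 2 := by
        apply hι.lt_iff_lt.1
        rw [map_sub, map_neg, map_add, map_ofNat]
        have h4 : ι (c + W) / ι g - ι c / ι g ≤ ι W := by
          rw [← sub_div, map_add, add_sub_cancel_left]
          have h5 : 0 ≤ ι W := by
            rw [← map_zero ι]
            exact hι.monotone hW0
          exact div_le_self h5 hιg1
        linarith
      have h4 := hd (W + 2 - (-q - p)) (by linarith)
      linarith
    -- halves
    obtain ⟨q, hq1, hq2⟩ := hfl (ι W1 / 2)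
    have hq1' : 2 * q ≤ W1 := by
      apply hι.le_iff_le.1
      rw [map_mul, map_ofNat]
      linarith
    have hq2' : W1 < 2 * q + 2 := by
      apply hι.lt_iff_lt.1
      rw [map_add, map_mul, map_ofNat]
      linarith
    have hq3 : W1 ≤ 2 * q + 1 := by
      have := hd (2 * q + 2 - W1) (by linarith)
      linarith
    have h16 : 16 ≤ W1 := by linarith
    set m : R := c1 + q with hm
    have hm1 : 2 * c1 + W1 ≤ 2 * m + 1 := by rw [hm]; linarith
    have hm2 : 2 * m ≤ 2 * c1 + W1 + 1 := by rw [hm]; linarith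
    have hW2 : W1 ≤ 2 * (q + 1) := by linarith
    -- the section
    set Vm := crosses ι A m V with hVm
    have hVm0 : Vm ≠ [] := by
      obtain ⟨i, hi, hi'⟩ := hi1
      obtain ⟨j, hj, hj'⟩ := hj1
      have hmem : cross ι A m i j ∈ Vm := by
        refine mem_crosses.2 ⟨i, hi, j, hj, ?_, ?_, rfl⟩
        · refine hi'.le.trans ?_
          rw [← map_one ι, ← map_add]
          refine hι.monotone ?_
          rw [hm]
          linarith
        · refine lt_of_le_of_lt ?_ hj'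
          rw [← map_one ι, ← map_sub]
          refine hι.monotone ?_
          rw [hm]
          linarith
      exact List.ne_nil_of_mem hmem
    have hVmno : NoIntF ι Vm := NoInt_crosses hBA hno
    have hdirmul := fun (κ : R) (u' : Fin k → R) => dir_mul hAB κ u'
    have hVmfat : FatF ι Vm (K * (q + 12) * ∑ j, ∑ i, |B i j|) := by
      intro u' c' W' hW'1 hs' j
      obtain ⟨κ, c'', hst⟩ := lift_strip hkl h16 hW2 hs1 hi1 hj1 hm1 hm2 (by linarith : 0 ≤ W') hs'
      have hb := hfat _ _ _ (by linarith) hst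
      have h1 : u' j = ∑ i, dir A κ u' i * B i j.succ := by
        have h2 := congrFun (hdirmul κ u') j.succ
        rw [Fin.cons_succ] at h2
        rw [← h2]
        rfl
      have hD : K * (q + 1 + 8 * W' + 3) ≤ K * ((q + 12) * W') := by
        refine mul_le_mul_of_nonneg_left ?_ hK
        have hq0 : 0 ≤ q := by linarith
        nlinarith
      have hS : ∑ i, |B i j.succ| ≤ ∑ j, ∑ i, |B i j| :=
        Finset.single_le_sum (f := fun j => ∑ i, |B i j|)
          (fun j _ => Finset.sum_nonneg fun i _ => abs_nonneg _) (Finset.mem_univ j.succ)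
      have hS0 : 0 ≤ ∑ i, |B i j.succ| := Finset.sum_nonneg fun i _ => abs_nonneg _
      have hq0 : 0 ≤ q := by linarith
      have hKq : 0 ≤ K * ((q + 12) * W') := by
        have : 0 ≤ (q + 12) * W' := mul_nonneg (by linarith) (by linarith)
        exact mul_nonneg hK this
      calc |u' j| = |∑ i, dir A κ u' i * B i j.succ| := by rw [← h1]
        _ ≤ ∑ i, |dir A κ u' i * B i j.succ| := Finset.abs_sum_le_sum_abs _ _
        _ ≤ ∑ i, K * ((q + 12) * W') * |B i j.succ| := by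
            refine Finset.sum_le_sum fun i _ => ?_
            rw [abs_mul]
            exact mul_le_mul_of_nonneg_right ((hb i).trans hD) (abs_nonneg _)
        _ = K * ((q + 12) * W') * ∑ i, |B i j.succ| := by rw [Finset.mul_sum]
        _ ≤ K * ((q + 12) * W') * ∑ j, ∑ i, |B i j| := mul_le_mul_of_nonneg_left hS hKq
        _ = K * (q + 12) * (∑ j, ∑ i, |B i j|) * W' := by ring
    obtain ⟨u', c', hu', hs'⟩ := ih R F ι hι hd hfl hkl hL hCo' Vm _ hVm0 hVmfat hVmno
    obtain ⟨κ, c'', hst⟩ := lift_strip hkl h16 hW2 hs1 hi1 hj1 hm1 hm2 hw0 hs'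
    have hdir0 : dir A κ u' ≠ 0 := by
      intro h0
      have h1 := hdirmul κ u'
      rw [h0, Matrix.zero_vecMul] at h1
      apply hu'
      funext j
      have h2 := congrFun h1 j.succ
      rw [Fin.cons_succ] at h2
      exact h2.symm
    have hfin := hmin _ _ _ hdir0 hst
    linarith

/-- **Flatness in every dimension.** -/
theorem flatk (k : ℕ) : ∃ w : ℕ, ∀ (R F : Type) [CommRing R] [LinearOrder R]
    [IsStrictOrderedRing R] [Field F] [LinearOrder F] [IsStrictOrderedRing F] (ι : R →+* F),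
    StrictMono ι → (∀ a : R, 0 < a → 1 ≤ a) → (∀ x : F, ∃ q : R, ι q ≤ x ∧ x < ι q + 1) →
    LNPF ι → (∀ k, ∃ e, Compl R k e) → ∀ (V : List (Fin k → F)) (K : R), V ≠ [] →
    FatF ι V K → NoIntF ι V → ∃ (u : Fin k → R) (c : R), u ≠ 0 ∧ StripF ι V u c (w : R) := by
  obtain ⟨w, h⟩ := flatk_of_kl k
  refine ⟨w, ?_⟩
  intro R F _ _ _ _ _ _ ι hι hd hfl hL hCo V K hV hfat hno
  refine h R F ι hι hd hfl ?_ hL hCo V K hV hfat hno
  intro S ξ υ c m W W2 i j hW hW2 hξ hi hj hm hm' c' W' hW' hcr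
  exact kl hd ι hι hfl ξ υ c m W W2 i j hW hW2 hξ hi hj hm hm' c' W' hW' hcr

end Pool.Agent.H20.FN
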