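import Pool.Agent.H20.FL.SD
import Pool.Agent.H20.FN.BridgeA
import Pool.Agent.H20.FN.FK
import Pool.Agent.H20.FN.Bez
import Pool.Agent.H20.FN.Compl

set_option autoImplicit false

/-!
# Flatness for homogeneous vectors in the models of `IE_1`
-/

namespace Pool.Agent.H20.FN

open Pool.Agent.H20.FL

/-- `hf`, from the existence of a field and the least number principle -/
theorem hf_of_all
    (hfield : ∀ (R : Type) [CommRing R] [LinearOrder R] [IsStrictOrderedRing R],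
      ∃ (F : Type) (_ : Field F) (_ : LinearOrder F) (_ : IsStrictOrderedRing F) (ι : R →+* F),
        StrictMono ι ∧ ∀ x : F, ∃ a b : R, 0 < b ∧ x * ι b = ι a)
    (hlnpf : ∀ (M : Md) (F : Type) [Field F] [LinearOrder F] [IsStrictOrderedRing F]
      (ι : M.R →+* F), StrictMono ι → (∀ x : F, ∃ a b : M.R, 0 < b ∧ x * ι b = ι a) → LNPF ι)
    (hlnpb : ∀ (M : Md) (a b B W0 : M.R), 0 ≤ W0 →
      (∃ p q : M.R, |p| ≤ B ∧ |q| ≤ B ∧ a * p + b * q = W0 + 1) → ∃ W, 0 ≤ W ∧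
      (∃ p q : M.R, |p| ≤ B ∧ |q| ≤ B ∧ a * p + b * q = W + 1) ∧
      ∀ W', 0 ≤ W' → W' < W → ¬ ∃ p q : M.R, |p| ≤ B ∧ |q| ≤ B ∧ a * p + b * q = W' + 1)
    (k : ℕ) : ∃ w : ℕ, ∀ M : Md, HF M.R k w := by
  obtain ⟨w, hw⟩ := flatk k
  refine ⟨w, fun M => ?_⟩
  obtain ⟨F, iF, iL, iS, ι, hι, hden⟩ := hfield M.R
  refine hf_of ι hι k w fun V K hV hfat hno => ?_
  refine hw M.R F ι hι M.hd (floor_of M.hv ι hι hden) (hlnpf M F ι hι hden) (fun k => ?_)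
    V K hV hfat hno
  obtain ⟨e, he⟩ := compl k
  exact ⟨e, he M.R M.hd (bez M.hd M.hv (hlnpb M))⟩

end Pool.Agent.H20.FN
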