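import Mathlib

set_option autoImplicit false

/-!
# [H20 FN Field] The ordered field of fractions
-/

namespace Pool.Agent.H20.FN

/-- an ordered domain has an ordered field of fractions -/
theorem exists_field (R : Type) [CommRing R] [LinearOrder R] [IsStrictOrderedRing R] :
    ∃ (F : Type) (_ : Field F) (_ : LinearOrder F) (_ : IsStrictOrderedRing F) (ι : R →+* F),
      StrictMono ι ∧ ∀ x : F, ∃ a b : R, 0 < b ∧ x * ι b = ι a := by
  classical
  let ι : R →+* FractionRing R := algebraMap R (FractionRing R)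
  have hinj : Function.Injective ι := IsFractionRing.injective R (FractionRing R)
  have hne : ∀ b : R, 0 < b → ι b ≠ 0 := fun b hb h => hb.ne' (hinj (by rw [h, map_zero]))
  have hfrac : ∀ x : FractionRing R, ∃ a b : R, 0 < b ∧ x * ι b = ι a := by
    intro x
    obtain ⟨a, b, hb, rfl⟩ := IsFractionRing.div_surjective (A := R) x
    have hb0 : b ≠ 0 := nonZeroDivisors.ne_zero hb
    have hιb : ι b ≠ 0 := fun h => hb0 (hinj (by rw [h, map_zero]))
    rcases lt_or_gt_of_ne hb0 with h | h
    · refine ⟨-a, -b, neg_pos.2 h, ?_⟩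
      rw [map_neg, map_neg, mul_neg, div_mul_cancel₀ _ hιb]
    · exact ⟨a, b, h, div_mul_cancel₀ _ hιb⟩
  let P : RingCone (FractionRing R) :=
    { carrier := {x | ∃ a b : R, 0 ≤ a ∧ 0 < b ∧ x * ι b = ι a}
      mul_mem' := by
        rintro x y ⟨a, b, ha, hb, h⟩ ⟨c, d, hc, hd, h'⟩
        refine ⟨a * c, b * d, mul_nonneg ha hc, mul_pos hb hd, ?_⟩
        rw [map_mul, map_mul, ← h, ← h']
        ring
      one_mem' := ⟨1, 1, zero_le_one, one_pos, by rw [one_mul]⟩
      add_mem' := by
        rintro x y ⟨a, b, ha, hb, h⟩ ⟨c, d, hc, hd, h'⟩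
        refine ⟨a * d + c * b, b * d, add_nonneg (mul_nonneg ha hd.le) (mul_nonneg hc hb.le),
          mul_pos hb hd, ?_⟩
        rw [map_mul, map_add, map_mul, map_mul, ← h, ← h']
        ring
      zero_mem' := ⟨0, 1, le_rfl, one_pos, by rw [zero_mul, map_zero]⟩
      eq_zero_of_mem_of_neg_mem' := by
        rintro x ⟨a, b, ha, hb, h⟩ ⟨c, d, hc, hd, h'⟩
        have h1 : ι (a * d + c * b) = 0 := by
          rw [map_add, map_mul, map_mul, ← h, ← h']
          ring
        have h2 : a * d + c * b = 0 := hinj (by rw [h1, map_zero])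
        have h3 : a * d = 0 := by
          have h4 := mul_nonneg ha hd.le
          have h5 := mul_nonneg hc hb.le
          linarith
        have h4 : a = 0 := (mul_eq_zero.1 h3).resolve_right hd.ne'
        rw [h4, map_zero] at h
        exact (mul_eq_zero.1 h).resolve_right (hne b hb) }
  have hP : ∀ x, x ∈ P ↔ ∃ a b : R, 0 ≤ a ∧ 0 < b ∧ x * ι b = ι a := fun x => Iff.rfl
  have htot : HasMemOrNegMem P := by
    refine ⟨fun x => ?_⟩
    obtain ⟨a, b, hb, h⟩ := hfrac x
    rcases le_total 0 a with ha | ha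
    · exact Or.inl ⟨a, b, ha, hb, h⟩
    · refine Or.inr ⟨-a, b, neg_nonneg.2 ha, hb, ?_⟩
      rw [neg_mul, h, map_neg]
  let L : LinearOrder (FractionRing R) := LinearOrder.mkOfAddGroupCone P
  have hO : IsOrderedRing (FractionRing R) := IsOrderedRing.mkOfCone P
  have hS : IsStrictOrderedRing (FractionRing R) := IsOrderedRing.toIsStrictOrderedRing _
  refine ⟨FractionRing R, inferInstance, L, hS, ι, ?_, hfrac⟩
  refine Monotone.strictMono_of_injective (fun a b hab => ?_) hinj
  change ι b - ι a ∈ P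
  rw [hP]
  exact ⟨b - a, 1, sub_nonneg.2 hab, one_pos, by rw [map_one, mul_one, map_sub]⟩

end Pool.Agent.H20.FN
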