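import Mathlib

set_option autoImplicit false

/-!
# Flatness in every dimension: definitions

`ι : R → F` embeds the discretely ordered ring `R` in an ordered field.
-/

namespace Pool.Agent.H20.FN

variable {R F : Type} [CommRing R] [LinearOrder R] [IsStrictOrderedRing R]
  [Field F] [LinearOrder F] [IsStrictOrderedRing F]

def lin (ι : R →+* F) {k : ℕ} (u : Fin k → R) (x : Fin k → F) : F := ∑ i, ι (u i) * x i

def StripF (ι : R →+* F) {k : ℕ} (V : List (Fin k → F)) (u : Fin k → R) (c W : R) : Prop :=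
  ∀ v ∈ V, ι c ≤ lin ι u v ∧ lin ι u v ≤ ι (c + W)

def FatF (ι : R →+* F) {k : ℕ} (V : List (Fin k → F)) (K : R) : Prop :=
  ∀ (u : Fin k → R) (c W : R), 1 ≤ W → StripF ι V u c W → ∀ i, |u i| ≤ K * W

def NoIntF (ι : R →+* F) {k : ℕ} (V : List (Fin k → F)) : Prop :=
  ∀ x : Fin k → R, (fun i => ι (x i)) ∉ convexHull F {v | v ∈ V}

def EF (ι : R →+* F) {k : ℕ} (V : List (Fin k → F)) (B W : R) : Prop :=
  ∃ u : Fin k → R, u ≠ 0 ∧ (∀ i, |u i| ≤ B) ∧ ∃ c : R, |c| ≤ B ∧ StripF ι V u c W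

def LNPF (ι : R →+* F) : Prop :=
  ∀ (k : ℕ) (V : List (Fin k → F)) (B W0 : R), 0 ≤ W0 → EF ι V B W0 →
    ∃ W, 0 ≤ W ∧ W ≤ W0 ∧ EF ι V B W ∧ ∀ W', 0 ≤ W' → W' < W → ¬ EF ι V B W'

/-- completion of vectors to unimodular matrices, with bounds -/
def Compl (R : Type) [CommRing R] [LinearOrder R] [IsStrictOrderedRing R] (k e : ℕ) : Prop :=
  ∀ u : Fin (k + 1) → R, u ≠ 0 → ∃ (g : R) (A B : Matrix (Fin (k + 1)) (Fin (k + 1)) R),
    0 < g ∧ A * B = 1 ∧ B * A = 1 ∧ (∀ i, u i = g * A 0 i) ∧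
    (∀ i j, |A i j| ≤ (2 + ∑ l, u l * u l) ^ e) ∧ ∀ i j, |B i j| ≤ (2 + ∑ l, u l * u l) ^ e

/-- homogeneous vectors: `(w 0, w 1, …, w k)` with `w 0 > 0` is the point `(w 1, …, w k) / w 0` -/
def ap {q : ℕ} (f w : Fin q → R) : R := ∑ i, f i * w i

/-- double description step: generators of the part `f ≥ 0` -/
def cut {q : ℕ} (f : Fin q → R) (G : List (Fin q → R)) : List (Fin q → R) :=
  (G.filter fun v => decide (0 ≤ ap f v)) ++
    ((G.product G).filter fun p => decide (0 < ap f p.1 ∧ ap f p.2 < 0)).map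
      fun p => ap f p.1 • p.2 - ap f p.2 • p.1

/-- generators of the polytope `G` cut by all `f ∈ fs` -/
def cuts {q : ℕ} (fs : List (Fin q → R)) (G : List (Fin q → R)) : List (Fin q → R) :=
  fs.foldr cut G

end Pool.Agent.H20.FN
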