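import Pool.Agent.H20.FN.DS
import Pool.Agent.H20.FN.Defs

set_option autoImplicit false

/-!
# Least width of a polytope with vertices over the field of fractions, and a least positive value
-/

namespace Pool.Agent.H20.FN

open Pool.Agent.H20.E1 Pool.Agent.H20.FL

/-- the parameters: the bound, and a common denominator and numerators for every vertex -/
abbrev Par (m k : ℕ) : Type := Unit ⊕ (Fin m × Option (Fin k))

/-- there is a direction and a strip, in terms of numerators and denominators -/
def Wid (m k : ℕ) (M : Md) (z : Option (Par m k) → M.R) : Prop :=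
  ∃ w : Option (Fin k) → M.R, (∀ i, |w i| ≤ z (some (Sum.inl ()))) ∧
    ((∃ i : Fin k, w (some i) ≠ 0) ∧
      ∀ l : Fin m, w none * z (some (Sum.inr (l, none))) ≤
          ∑ i : Fin k, w (some i) * z (some (Sum.inr (l, some i))) ∧
        ∑ i : Fin k, w (some i) * z (some (Sum.inr (l, some i))) ≤
          (w none + z none) * z (some (Sum.inr (l, none))))

theorem ds_wid (m k : ℕ) : DS (Option (Par m k)) (Wid m k) := by
  have h : DS (Option (Fin k) ⊕ Option (Par m k)) (fun M y =>
      (∃ i : Fin k, y (Sum.inl (some i)) ≠ 0) ∧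
      ∀ l : Fin m, y (Sum.inl none) * y (Sum.inr (some (Sum.inr (l, none)))) ≤
          ∑ i : Fin k, y (Sum.inl (some i)) * y (Sum.inr (some (Sum.inr (l, some i)))) ∧
        ∑ i : Fin k, y (Sum.inl (some i)) * y (Sum.inr (some (Sum.inr (l, some i)))) ≤
          (y (Sum.inl none) + y (Sum.inr none)) * y (Sum.inr (some (Sum.inr (l, none))))) := by
    have hs : ∀ l : Fin m, PF (Option (Fin k) ⊕ Option (Par m k)) (fun M y =>
        ∑ i : Fin k, y (Sum.inl (some i)) * y (Sum.inr (some (Sum.inr (l, some i))))) := fun l =>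
      PF.sum (f := fun i M y => y (Sum.inl (some i)) * y (Sum.inr (some (Sum.inr (l, some i)))))
        fun i => (PF.proj _).mul (PF.proj _)
    refine DS.and (DS.any fun i => DS.ne (PF.proj _) PF.zero) (DS.all fun l => ?_)
    exact DS.and (DS.le ((PF.proj _).mul (PF.proj _)) (hs l))
      (DS.le (hs l) (((PF.proj _).add (PF.proj _)).mul (PF.proj _)))
  exact (DS.exf h (b := fun M z => z (some (Sum.inl ()))) (PF.proj _)).congr fun M z => Iff.rfl

/-- common denominators -/
theorem exists_den {R F : Type} [CommRing R] [LinearOrder R] [IsStrictOrderedRing R] [Field F]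
    (ι : R →+* F) (hden : ∀ x : F, ∃ a b : R, 0 < b ∧ x * ι b = ι a) {k : ℕ} (v : Fin k → F) :
    ∃ (d : R) (y : Fin k → R), 0 < d ∧ ∀ i, v i * ι d = ι (y i) := by
  classical
  choose a b hb hab using fun i => hden (v i)
  refine ⟨∏ j, b j, fun i => a i * ∏ j ∈ Finset.univ.erase i, b j,
    Finset.prod_pos fun j _ => hb j, fun i => ?_⟩
  rw [← Finset.mul_prod_erase Finset.univ b (Finset.mem_univ i), map_mul, ← mul_assoc, hab, map_mul]

theorem lnpf (M : Md) {F : Type} [Field F] [LinearOrder F] [IsStrictOrderedRing F] (ι : M.R →+* F)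
    (hι : StrictMono ι) (hden : ∀ x : F, ∃ a b : M.R, 0 < b ∧ x * ι b = ι a) : LNPF ι := by
  classical
  intro k V B W0 h0 hE
  choose d y hd hy using fun v : Fin k → F => exists_den ι hden v
  let z : Par V.length k → M.R := fun j => Sum.elim (fun _ => B)
    (fun p => Option.elim p.2 (d (V.get p.1)) (fun i => y (V.get p.1) i)) j
  have key : ∀ (u : Fin k → M.R) (v : Fin k → F), lin ι u v * ι (d v) = ι (∑ i, u i * y v i) := by
    intro u v
    unfold lin
    rw [Finset.sum_mul, map_sum]
    refine Finset.sum_congr rfl fun i _ => ?_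
    rw [mul_assoc, hy, map_mul]
  have hpos : ∀ v, 0 < ι (d v) := fun v => by
    have := hι (hd v)
    rwa [map_zero] at this
  have hEF : ∀ W, EF ι V B W ↔ Wid V.length k M (fun o => o.elim W z) := by
    intro W
    constructor
    · rintro ⟨u, hu, hB, c, hc, hS⟩
      refine ⟨fun o => o.elim c u, fun o => ?_, ?_, fun l => ?_⟩
      · cases o with
        | none => exact hc
        | some i => exact hB i
      · by_contra hcon
        push Not at hcon
        exact hu (funext hcon)
      · have h1 := hS (V.get l) (List.get_mem V l)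
        have e := key u (V.get l)
        constructor
        · show c * d (V.get l) ≤ ∑ i, u i * y (V.get l) i
          rw [← hι.le_iff_le, ← e, map_mul]
          exact mul_le_mul_of_nonneg_right h1.1 (hpos _).le
        · show ∑ i, u i * y (V.get l) i ≤ (c + W) * d (V.get l)
          rw [← hι.le_iff_le, ← e, map_mul]
          exact mul_le_mul_of_nonneg_right h1.2 (hpos _).le
    · rintro ⟨w, hB, ⟨i₀, hi₀⟩, h⟩
      refine ⟨fun i => w (some i), fun h0 => hi₀ (congrFun h0 i₀), fun i => hB (some i), w none,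
        hB none, fun v hv => ?_⟩
      obtain ⟨l, rfl⟩ := List.mem_iff_get.1 hv
      obtain ⟨h1, h2⟩ := h l
      have h1' : w none * d (V.get l) ≤ ∑ i, w (some i) * y (V.get l) i := h1
      have h2' : ∑ i, w (some i) * y (V.get l) i ≤ (w none + W) * d (V.get l) := h2
      have e := key (fun i => w (some i)) (V.get l)
      rw [← hι.le_iff_le, ← e, map_mul] at h1' h2'
      exact ⟨le_of_mul_le_mul_right h1' (hpos _), le_of_mul_le_mul_right h2' (hpos _)⟩
  obtain ⟨W, h1, h2, h3, h4⟩ := (ds_wid V.length k).lnp M z W0 h0 ((hEF W0).1 hE)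
  exact ⟨W, h1, h2, (hEF W).2 h3, fun W' h5 h6 h7 => h4 W' h5 h6 ((hEF W').1 h7)⟩

/-- the smallest positive value of a linear form at bounded points -/
theorem lnpb (M : Md) : ∀ a b B W0 : M.R, 0 ≤ W0 →
    (∃ p q : M.R, |p| ≤ B ∧ |q| ≤ B ∧ a * p + b * q = W0 + 1) →
    ∃ W, 0 ≤ W ∧ (∃ p q : M.R, |p| ≤ B ∧ |q| ≤ B ∧ a * p + b * q = W + 1) ∧
      ∀ W', 0 ≤ W' → W' < W → ¬ ∃ p q : M.R, |p| ≤ B ∧ |q| ≤ B ∧ a * p + b * q = W' + 1 := by
  intro a b B W0 h0 hE
  have h : DS (Bool ⊕ Option (Fin 3)) (fun M y =>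
      y (Sum.inr (some 0)) * y (Sum.inl true) + y (Sum.inr (some 1)) * y (Sum.inl false) =
        y (Sum.inr none) + 1) :=
    DS.eq (((PF.proj _).mul (PF.proj _)).add ((PF.proj _).mul (PF.proj _)))
      ((PF.proj _).add PF.one)
  have h' := DS.exf h (b := fun M z => z (some 2)) (PF.proj _)
  have hiff : ∀ W : M.R, (∃ p q : M.R, |p| ≤ B ∧ |q| ≤ B ∧ a * p + b * q = W + 1) ↔
      ∃ w : Bool → M.R, (∀ i, |w i| ≤ (fun o : Option (Fin 3) => o.elim W ![a, b, B]) (some 2)) ∧
        (fun o : Option (Fin 3) => o.elim W ![a, b, B]) (some 0) * w true +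
          (fun o : Option (Fin 3) => o.elim W ![a, b, B]) (some 1) * w false = W + 1 := by
    intro W
    constructor
    · rintro ⟨p, q, hp, hq, e⟩
      refine ⟨fun i => if i then p else q, fun i => ?_, ?_⟩
      · cases i
        · simpa using hq
        · simpa using hp
      · simpa using e
    · rintro ⟨w, hw, e⟩
      exact ⟨w true, w false, by simpa using hw true, by simpa using hw false, by simpa using e⟩
  obtain ⟨W, h1, _, h3, h4⟩ := h'.lnp M ![a, b, B] W0 h0 ((hiff W0).1 hE)
  exact ⟨W, h1, (hiff W).2 h3, fun W' h5 h6 h7 => h4 W' h5 h6 ((hiff W').1 h7)⟩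

end Pool.Agent.H20.FN
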