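import Pool.Agent.H20.FL.Syn

set_option autoImplicit false

/-!
# [H20 FN SynK] Blocks of linear universal quantifiers, as systems of linear constraints
-/

namespace Pool.Agent.H20.E1

/-- a block of universal quantifiers before a quantifier-free formula, everything (bounds too) linear in the
variables of the block over terms in the parameters; `k` quantifiers of the block are already in front -/
inductive LinAll : ℕ → {N : ℕ} → Fml N → Prop
  | qf {k N : ℕ} {α : Fml N} : α.LinO k → LinAll k α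
  | all {k N : ℕ} {t : Tm N} {φ : Fml (N + 1)} : t.LinO k → LinAll (k + 1) φ → LinAll k (.all t φ)

end Pool.Agent.H20.E1

namespace Pool.Agent.H20.FN.SynK

open Pool.Agent.H20.E1 Pool.Agent.H20.FL

/-- the values `x` of the first `k` variables before the values `v` of the others -/
def app {R : Type} {n : ℕ} (k : ℕ) (x : Fin k → R) (v : Fin n → R) (i : Fin (n + k)) : R :=
  if h : i.val < k then x ⟨i.val, h⟩ else v ⟨i.val - k, by omega⟩

theorem app_zero {R : Type} {n : ℕ} (x : Fin 0 → R) (v : Fin n → R) : app 0 x v = v := by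
  funext i
  simp [app]

theorem app_cons {R : Type} {n k : ℕ} (a : R) (x : Fin k → R) (v : Fin n → R) :
    (Fin.cons a (app k x v) : Fin (n + k + 1) → R) = app (k + 1) (Fin.cons a x : Fin (k + 1) → R) v := by
  funext i
  refine Fin.cases ?_ (fun j => ?_) i
  · simp [app]
  · rw [Fin.cons_succ]
    unfold app
    by_cases h : j.val < k
    · rw [dif_pos h, dif_pos (show j.succ.val < k + 1 by simpa using h)]
      rfl
    · rw [dif_neg h, dif_neg (show ¬ j.succ.val < k + 1 by simpa using h)]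
      congr 1
      ext
      simp

/-- sum of signed terms -/
def sumS {n : ℕ} : {k : ℕ} → (Fin k → ST n) → ST n
  | 0, _ => ST.zero
  | _ + 1, f => (f 0).add (sumS fun i => f i.succ)

theorem val_sumS {R : Type} [CommRing R] [LinearOrder R] {n : ℕ} : ∀ {k : ℕ} (f : Fin k → ST n) (v : Fin n → R),
    (sumS f).val v = ∑ i, (f i).val v
  | 0, f, v => by simp [sumS]
  | k + 1, f, v => by
      rw [Fin.sum_univ_succ, ← val_sumS (fun i => f i.succ) v]
      simp [sumS]

theorem abs_le_sq {R : Type} [CommRing R] [LinearOrder R] [IsStrictOrderedRing R] (hd : ∀ a : R, 0 < a → 1 ≤ a)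
    (z : R) : |z| ≤ z * z := by
  by_cases h : z = 0
  · simp [h]
  · have h1 := hd _ (abs_pos.2 h)
    rw [← abs_mul_abs_self z]
    nlinarith [abs_nonneg z]

theorem novk {n k : ℕ} (s : Tm (n + k)) (h : s.NoV k) : ∃ A : ST n, ∀ (R : Type) [CommRing R]
    [LinearOrder R] (x : Fin k → R) (v : Fin n → R), s.val (app k x v) = A.val v := by
  induction s with
  | var i =>
    have hi : k ≤ i.val := h
    refine ⟨ST.of (.var ⟨i.val - k, by omega⟩), fun R _ _ x v => ?_⟩
    rw [ST.val_of]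
    simp only [Tm.val, app]
    rw [dif_neg (by omega)]
  | zero => exact ⟨ST.zero, fun R _ _ x v => by simp [Tm.val]⟩
  | one => exact ⟨ST.one, fun R _ _ x v => by simp [Tm.val]⟩
  | add s t ihs iht =>
    obtain ⟨A, hA⟩ := ihs h.1
    obtain ⟨B, hB⟩ := iht h.2
    exact ⟨A.add B, fun R _ _ x v => by simp [Tm.val, hA, hB]⟩
  | mul s t ihs iht =>
    obtain ⟨A, hA⟩ := ihs h.1
    obtain ⟨B, hB⟩ := iht h.2
    exact ⟨A.mul B, fun R _ _ x v => by simp [Tm.val, hA, hB]⟩

theorem link {n k : ℕ} (s : Tm (n + k)) (h : s.LinO k) : ∃ (A : ST n) (B : Fin k → ST n), ∀ (R : Type)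
    [CommRing R] [LinearOrder R] (x : Fin k → R) (v : Fin n → R),
    s.val (app k x v) = A.val v + ∑ i, (B i).val v * x i := by
  induction s with
  | var i =>
    by_cases hi : i.val < k
    · refine ⟨ST.zero, fun j => if j = ⟨i.val, hi⟩ then ST.one else ST.zero, fun R _ _ x v => ?_⟩
      simp only [Tm.val, app]
      rw [dif_pos hi, Finset.sum_eq_single (⟨i.val, hi⟩ : Fin k)]
      · simp
      · intro j _ hj
        simp [hj]
      · intro hj
        exact absurd (Finset.mem_univ _) hj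
    · refine ⟨ST.of (.var ⟨i.val - k, by omega⟩), fun _ => ST.zero, fun R _ _ x v => ?_⟩
      simp only [Tm.val, app]
      rw [dif_neg hi]
      simp [Tm.val]
  | zero => exact ⟨ST.zero, fun _ => ST.zero, fun R _ _ x v => by simp [Tm.val]⟩
  | one => exact ⟨ST.one, fun _ => ST.zero, fun R _ _ x v => by simp [Tm.val]⟩
  | add s t ihs iht =>
    obtain ⟨A, B, hs⟩ := ihs h.1
    obtain ⟨A', B', ht⟩ := iht h.2
    refine ⟨A.add A', fun i => (B i).add (B' i), fun R _ _ x v => ?_⟩
    simp only [Tm.val, hs, ht, ST.val_add, add_mul, Finset.sum_add_distrib]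
    ring
  | mul s t ihs iht =>
    rcases h with ⟨h1, h2⟩ | ⟨h1, h2⟩
    · obtain ⟨K, hK⟩ := novk s h1
      obtain ⟨A, B, ht⟩ := iht h2
      refine ⟨K.mul A, fun i => K.mul (B i), fun R _ _ x v => ?_⟩
      simp only [Tm.val, hK, ht, ST.val_mul, mul_add, Finset.mul_sum]
      congr 1
      exact Finset.sum_congr rfl fun i _ => by ring
    · obtain ⟨K, hK⟩ := novk t h2
      obtain ⟨A, B, hs⟩ := ihs h1
      refine ⟨K.mul A, fun i => K.mul (B i), fun R _ _ x v => ?_⟩
      simp only [Tm.val, hK, hs, ST.val_mul, add_mul, Finset.sum_mul]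
      congr 1
      · ring
      · exact Finset.sum_congr rfl fun i _ => by ring

/-- a relation of `x` and the parameters which is a disjunction of conjunctions of linear constraints `≤ 0` -/
def DNk {n : ℕ} (k : ℕ) (P : ∀ (R : Type) [CommRing R] [LinearOrder R], (Fin k → R) → (Fin n → R) → Prop) :
    Prop :=
  ∃ LL : List (List (ST n × (Fin k → ST n))), ∀ (R : Type) [CommRing R] [LinearOrder R]
    [IsStrictOrderedRing R], (∀ a : R, 0 < a → 1 ≤ a) → ∀ (x : Fin k → R) (v : Fin n → R),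
    (P R x v ↔ ∃ S ∈ LL, ∀ c ∈ S, c.1.val v + ∑ i, (c.2 i).val v * x i ≤ 0)

theorem DNk.or {n k : ℕ} {P Q : ∀ (R : Type) [CommRing R] [LinearOrder R], (Fin k → R) → (Fin n → R) → Prop}
    (h : DNk k P) (h' : DNk k Q) : DNk k (fun R _ _ x v => P R x v ∨ Q R x v) := by
  obtain ⟨L, h1⟩ := h
  obtain ⟨L', h2⟩ := h'
  refine ⟨L ++ L', fun R _ _ _ hd x v => ?_⟩
  show (P R x v ∨ Q R x v) ↔ _
  rw [h1 R hd, h2 R hd]
  constructor
  · rintro (⟨S, hS, h⟩ | ⟨S, hS, h⟩)
    · exact ⟨S, List.mem_append_left _ hS, h⟩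
    · exact ⟨S, List.mem_append_right _ hS, h⟩
  · rintro ⟨S, hS, h⟩
    rcases List.mem_append.1 hS with hS | hS
    · exact Or.inl ⟨S, hS, h⟩
    · exact Or.inr ⟨S, hS, h⟩

theorem DNk.and {n k : ℕ} {P Q : ∀ (R : Type) [CommRing R] [LinearOrder R], (Fin k → R) → (Fin n → R) → Prop}
    (h : DNk k P) (h' : DNk k Q) : DNk k (fun R _ _ x v => P R x v ∧ Q R x v) := by
  obtain ⟨L, h1⟩ := h
  obtain ⟨L', h2⟩ := h'
  refine ⟨L.flatMap fun S => L'.map fun S' => S ++ S', fun R _ _ _ hd x v => ?_⟩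
  show (P R x v ∧ Q R x v) ↔ _
  rw [h1 R hd, h2 R hd]
  constructor
  · rintro ⟨⟨S, hS, h⟩, ⟨S', hS', h'⟩⟩
    refine ⟨S ++ S', List.mem_flatMap.2 ⟨S, hS, List.mem_map.2 ⟨S', hS', rfl⟩⟩, fun c hc => ?_⟩
    rcases List.mem_append.1 hc with hc | hc
    · exact h c hc
    · exact h' c hc
  · rintro ⟨T, hT, h⟩
    obtain ⟨S, hS, hT⟩ := List.mem_flatMap.1 hT
    obtain ⟨S', hS', rfl⟩ := List.mem_map.1 hT
    exact ⟨⟨S, hS, fun c hc => h c (List.mem_append_left _ hc)⟩,
      ⟨S', hS', fun c hc => h c (List.mem_append_right _ hc)⟩⟩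

theorem DNk.congr {n k : ℕ} {P Q : ∀ (R : Type) [CommRing R] [LinearOrder R], (Fin k → R) → (Fin n → R) → Prop}
    (h : DNk k P) (hPQ : ∀ (R : Type) [CommRing R] [LinearOrder R] (x : Fin k → R) (v : Fin n → R),
      (Q R x v ↔ P R x v)) : DNk k Q := by
  obtain ⟨L, h1⟩ := h
  exact ⟨L, fun R _ _ _ hd x v => (hPQ R x v).trans (h1 R hd x v)⟩

theorem sum_sub_val {R : Type} [CommRing R] [LinearOrder R] {n k : ℕ} (B B' : Fin k → ST n) (x : Fin k → R)
    (v : Fin n → R) : ∑ i, ((B i).sub (B' i)).val v * x i = ∑ i, (B i).val v * x i - ∑ i, (B' i).val v * x i := by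
  rw [← Finset.sum_sub_distrib]
  exact Finset.sum_congr rfl fun i _ => by rw [ST.val_sub]; ring

theorem DNk.lt {n k : ℕ} (s t : Tm (n + k)) (hs : s.LinO k) (ht : t.LinO k) :
    DNk (n := n) k (fun R _ _ x v => s.val (app k x v) < t.val (app k x v)) := by
  obtain ⟨A, B, h1⟩ := link s hs
  obtain ⟨A', B', h2⟩ := link t ht
  refine ⟨[[((A.add ST.one).sub A', fun i => (B i).sub (B' i))]], fun R _ _ _ hd x v => ?_⟩
  simp only [List.mem_singleton, exists_eq_left, forall_eq, h1, h2, sum_sub_val]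
  simp only [ST.val_sub, ST.val_add, ST.val_one]
  constructor
  · intro h
    have := hd _ (sub_pos.2 h)
    linarith
  · intro h
    linarith

theorem DNk.le {n k : ℕ} (s t : Tm (n + k)) (hs : s.LinO k) (ht : t.LinO k) :
    DNk (n := n) k (fun R _ _ x v => s.val (app k x v) ≤ t.val (app k x v)) := by
  obtain ⟨A, B, h1⟩ := link s hs
  obtain ⟨A', B', h2⟩ := link t ht
  refine ⟨[[(A.sub A', fun i => (B i).sub (B' i))]], fun R _ _ _ hd x v => ?_⟩
  simp only [List.mem_singleton, exists_eq_left, forall_eq, h1, h2, sum_sub_val]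
  simp only [ST.val_sub]
  constructor
  · intro h
    linarith
  · intro h
    linarith

/-- quantifier-free formulas in which the first `k` variables occur only linearly -/
theorem dnfk_aux {n k N : ℕ} (α : Fml N) : ∀ (e : N = n + k), (e ▸ α : Fml (n + k)).LinO k →
    DNk (n := n) k (fun R _ _ x v => (e ▸ α : Fml (n + k)).holds (app k x v)) ∧
    DNk (n := n) k (fun R _ _ x v => ¬ (e ▸ α : Fml (n + k)).holds (app k x v)) := by
  induction α with
  | lt s t =>
    intro e h
    subst e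
    exact ⟨DNk.lt s t h.1 h.2, (DNk.le t s h.2 h.1).congr fun R _ _ x v => by
      simp only [Fml.holds, not_lt]⟩
  | eq s t =>
    intro e h
    subst e
    exact ⟨((DNk.le s t h.1 h.2).and (DNk.le t s h.2 h.1)).congr fun R _ _ x v => by
      simp only [Fml.holds]
      exact le_antisymm_iff, ((DNk.lt s t h.1 h.2).or (DNk.lt t s h.2 h.1)).congr fun R _ _ x v => by
      simp only [Fml.holds]
      exact ne_iff_lt_or_gt⟩
  | neg φ ih =>
    intro e h
    subst e
    exact ⟨(ih rfl h).2, (ih rfl h).1.congr fun R _ _ x v => by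
      simp only [Fml.holds, not_not]⟩
  | and φ ψ ih1 ih2 =>
    intro e h
    subst e
    exact ⟨(ih1 rfl h.1).1.and (ih2 rfl h.2).1,
      ((ih1 rfl h.1).2.or (ih2 rfl h.2).2).congr fun R _ _ x v => by
        simp only [Fml.holds]
        exact not_and_or⟩
  | or φ ψ ih1 ih2 =>
    intro e h
    subst e
    exact ⟨(ih1 rfl h.1).1.or (ih2 rfl h.2).1,
      ((ih1 rfl h.1).2.and (ih2 rfl h.2).2).congr fun R _ _ x v => by
        simp only [Fml.holds]
        exact not_or⟩
  | ex t φ ih =>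
    intro e h
    subst e
    exact h.elim
  | all t φ ih =>
    intro e h
    subst e
    exact h.elim

theorem dnfk {n k : ℕ} (α : Fml (n + k)) (h : α.LinO k) :
    DNk (n := n) k (fun R _ _ x v => ¬ α.holds (app k x v)) :=
  (dnfk_aux α rfl h).2

/-- the negation of a block, as a disjunction of conjunctions of linear constraints with further unknowns, which
are bounded by a term when the `x` are -/
def Q {n k : ℕ} (φ : Fml (n + k)) : Prop :=
  ∃ (K : ℕ) (LL : List (List (ST n × (Fin k → ST n) × (Fin K → ST n)))), ∀ U : ST n, ∃ T : ST n,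
    ∀ (R : Type) [CommRing R] [LinearOrder R] [IsStrictOrderedRing R], (∀ a : R, 0 < a → 1 ≤ a) →
    ∀ (x : Fin k → R) (v : Fin n → R), (∀ i, |x i| ≤ U.val v) →
    (¬ φ.holds (app k x v) → ∃ S ∈ LL, ∃ y : Fin K → R, (∀ j, |y j| ≤ T.val v) ∧
      ∀ c ∈ S, c.1.val v + ∑ i, (c.2.1 i).val v * x i + ∑ j, (c.2.2 j).val v * y j ≤ 0) ∧
    ((∃ S ∈ LL, ∃ y : Fin K → R,
      ∀ c ∈ S, c.1.val v + ∑ i, (c.2.1 i).val v * x i + ∑ j, (c.2.2 j).val v * y j ≤ 0) → ¬ φ.holds (app k x v))

theorem Q.qf {n k : ℕ} {α : Fml (n + k)} (h : α.LinO k) : Q α := by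
  obtain ⟨LL, hLL⟩ := dnfk α h
  refine ⟨0, LL.map fun S => S.map fun c => (c.1, c.2, Fin.elim0), fun U => ⟨ST.zero, fun R _ _ _ hd x v _ => ?_⟩⟩
  have := hLL R hd x v
  change (¬ α.holds (app k x v)) ↔ _ at this
  rw [this]
  constructor
  · rintro ⟨S, hS, hc⟩
    refine ⟨_, List.mem_map.2 ⟨S, hS, rfl⟩, Fin.elim0, fun j => j.elim0, fun c hc' => ?_⟩
    obtain ⟨d, hd', rfl⟩ := List.mem_map.1 hc'
    have := hc d hd'
    simpa using this
  · rintro ⟨S', hS', y, hc⟩
    obtain ⟨S, hS, rfl⟩ := List.mem_map.1 hS'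
    refine ⟨S, hS, fun c hc' => ?_⟩
    have := hc _ (List.mem_map.2 ⟨c, hc', rfl⟩)
    simpa using this

theorem Q.all {n k : ℕ} {t : Tm (n + k)} {φ : Fml (n + k + 1)} (ht : t.LinO k) (h : Q (n := n) (k := k + 1) φ) :
    Q (n := n) (k := k) (.all t φ) := by
  obtain ⟨A, B, hAB⟩ := link t ht
  obtain ⟨K, LL, hLL⟩ := h
  refine ⟨K + 1, LL.map fun S => (ST.zero, (fun _ => ST.zero), (Fin.cons ST.one.neg (fun _ => ST.zero) : Fin (K + 1) → ST n)) ::
    (A.neg, (fun i => (B i).neg), (Fin.cons ST.one (fun _ => ST.zero) : Fin (K + 1) → ST n)) ::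
    S.map fun c => (c.1, (fun i => c.2.1 i.succ), (Fin.cons (c.2.1 0) c.2.2 : Fin (K + 1) → ST n)), fun U => ?_⟩
  let U' : ST n := ((A.mul A).add (sumS fun i => ((B i).mul (B i)).mul (U.mul U))).add (U.mul U)
  obtain ⟨T, hT⟩ := hLL U'
  refine ⟨(T.mul T).add U', fun R _ _ _ hd x v hx => ?_⟩
  have hU'v : U'.val v = A.val v * A.val v + ∑ i, (B i).val v * (B i).val v * (U.val v * U.val v) +
      U.val v * U.val v := by
    simp only [U', ST.val_add, ST.val_mul, val_sumS]
  have hS0 : 0 ≤ ∑ i, (B i).val v * (B i).val v * (U.val v * U.val v) :=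
    Finset.sum_nonneg fun i _ => mul_nonneg (mul_self_nonneg _) (mul_self_nonneg _)
  have hU2 : U.val v ≤ U'.val v := by
    rw [hU'v]
    have h1 := (le_abs_self _).trans (abs_le_sq hd (U.val v))
    have h2 := mul_self_nonneg (A.val v)
    linarith
  have hU0 : 0 ≤ U'.val v := by
    rw [hU'v]
    have h1 := mul_self_nonneg (U.val v)
    have h2 := mul_self_nonneg (A.val v)
    linarith
  have htb : t.val (app k x v) ≤ U'.val v := by
    rw [hAB, hU'v]
    have h1 := (le_abs_self _).trans (abs_le_sq hd (A.val v))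
    have h2 : ∑ i, (B i).val v * x i ≤ ∑ i, (B i).val v * (B i).val v * (U.val v * U.val v) := by
      refine Finset.sum_le_sum fun i _ => ?_
      refine (le_abs_self _).trans ?_
      rw [abs_mul]
      refine mul_le_mul (abs_le_sq hd _) ?_ (abs_nonneg _) (mul_self_nonneg _)
      exact (hx i).trans ((le_abs_self _).trans (abs_le_sq hd _))
    have h3 := mul_self_nonneg (U.val v)
    linarith
  have hTT : T.val v ≤ T.val v * T.val v := (le_abs_self _).trans (abs_le_sq hd _)
  have hcv : ∀ (c : ST n × (Fin (k + 1) → ST n) × (Fin K → ST n)) (a : R) (y : Fin K → R),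
      c.1.val v + ∑ i, (c.2.1 (Fin.succ i)).val v * x i +
        ∑ j, ((Fin.cons (c.2.1 0) c.2.2 : Fin (K + 1) → ST n) j).val v * (Fin.cons a y : Fin (K + 1) → R) j =
      c.1.val v + ∑ i, (c.2.1 i).val v * (Fin.cons a x : Fin (k + 1) → R) i + ∑ j, (c.2.2 j).val v * y j := by
    intro c a y
    rw [Fin.sum_univ_succ, Fin.sum_univ_succ (n := k)]
    simp only [Fin.cons_zero, Fin.cons_succ]
    ring
  have hk : ∀ a : R, 0 ≤ a → a ≤ U'.val v → ∀ i, |(Fin.cons a x : Fin (k + 1) → R) i| ≤ U'.val v := by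
    intro a ha ha' i
    refine Fin.cases ?_ (fun j => ?_) i
    · rw [Fin.cons_zero, abs_of_nonneg ha]
      exact ha'
    · rw [Fin.cons_succ]
      exact (hx j).trans hU2
  have h0 : ∀ (a : R) (y : Fin K → R), ∑ j, ((Fin.cons ST.one.neg (fun _ => ST.zero) : Fin (K + 1) → ST n) j).val v *
      (Fin.cons a y : Fin (K + 1) → R) j = -a := by
    intro a y
    rw [Fin.sum_univ_succ]
    simp
  have h1 : ∀ (a : R) (y : Fin K → R), ∑ j, ((Fin.cons ST.one (fun _ => ST.zero) : Fin (K + 1) → ST n) j).val v *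
      (Fin.cons a y : Fin (K + 1) → R) j = a := by
    intro a y
    rw [Fin.sum_univ_succ]
    simp
  have h2 : ∑ i, ((B i).neg).val v * x i = - ∑ i, (B i).val v * x i := by
    rw [← Finset.sum_neg_distrib]
    exact Finset.sum_congr rfl fun i _ => by rw [ST.val_neg]; ring
  have h3 : ¬ (Fml.all t φ).holds (app k x v) ↔ ∃ a : R, 0 ≤ a ∧ a ≤ t.val (app k x v) ∧
      ¬ φ.holds (app (k + 1) (Fin.cons a x : Fin (k + 1) → R) v) := by
    simp only [Fml.holds, ← app_cons]
    push Not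
    rfl
  rw [h3]
  constructor
  · rintro ⟨a, ha, hat, hn⟩
    obtain ⟨S, hS, y, hy, hc⟩ := (hT R hd _ v (hk a ha (hat.trans htb))).1 hn
    refine ⟨_, List.mem_map.2 ⟨S, hS, rfl⟩, (Fin.cons a y : Fin (K + 1) → R), ?_, ?_⟩
    · intro j
      rw [ST.val_add, ST.val_mul]
      refine Fin.cases ?_ (fun l => ?_) j
      · rw [Fin.cons_zero, abs_of_nonneg ha]
        have := mul_self_nonneg (T.val v)
        linarith [hat.trans htb]
      · rw [Fin.cons_succ]
        have := hy l
        linarith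
    · intro c hc'
      rcases List.mem_cons.1 hc' with rfl | hc'
      · simp only [h0]
        simp
        exact ha
      rcases List.mem_cons.1 hc' with rfl | hc'
      · simp only [h1]
        rw [h2, ST.val_neg]
        rw [hAB] at hat
        linarith
      · obtain ⟨d, hd', rfl⟩ := List.mem_map.1 hc'
        rw [hcv d a y]
        exact hc d hd'
  · rintro ⟨S', hS', y', hc⟩
    obtain ⟨S, hS, rfl⟩ := List.mem_map.1 hS'
    obtain ⟨a, y, rfl⟩ : ∃ (a : R) (y : Fin K → R), y' = (Fin.cons a y : Fin (K + 1) → R) :=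
      ⟨y' 0, fun j => y' j.succ, by
        funext j
        refine Fin.cases ?_ (fun l => ?_) j <;> simp⟩
    have k1 := hc _ (List.mem_cons_self ..)
    simp only [h0] at k1
    have ha : 0 ≤ a := by simpa using k1
    have k2 := hc _ (List.mem_cons_of_mem _ (List.mem_cons_self ..))
    simp only [h1] at k2
    rw [h2, ST.val_neg] at k2
    have hat : a ≤ t.val (app k x v) := by
      rw [hAB]
      linarith
    refine ⟨a, ha, hat, (hT R hd _ v (hk a ha (hat.trans htb))).2 ⟨S, hS, y, fun d hd' => ?_⟩⟩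
    rw [← hcv d a y]
    exact hc _ (List.mem_cons_of_mem _ (List.mem_cons_of_mem _ (List.mem_map.2 ⟨d, hd', rfl⟩)))

theorem blkQ {k N : ℕ} {φ : Fml N} (h : LinAll k φ) : ∀ (n : ℕ) (e : N = n + k),
    Q (n := n) (k := k) (e ▸ φ : Fml (n + k)) := by
  induction h with
  | qf hα =>
    intro n e
    subst e
    exact Q.qf hα
  | all ht _ ih =>
    intro n e
    subst e
    exact Q.all ht (ih n rfl)

end Pool.Agent.H20.FN.SynK

namespace Pool.Agent.H20.FN

open Pool.Agent.H20.E1 Pool.Agent.H20.FL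

/-- (F8) the negation of a block of linear universal quantifiers -/
theorem blk {n : ℕ} (φ : Fml n) (h : LinAll 0 φ) : ∃ (K : ℕ) (T : ST n) (LL : List (List (ST n × (Fin K → ST n)))),
    ∀ (R : Type) [CommRing R] [LinearOrder R] [IsStrictOrderedRing R], (∀ a : R, 0 < a → 1 ≤ a) →
    ∀ v : Fin n → R, (∀ i, 0 ≤ v i) → (¬ φ.holds v ↔ ∃ S ∈ LL, ∃ x : Fin K → R, (∀ i, |x i| ≤ T.val v) ∧
      ∀ c ∈ S, c.1.val v + ∑ i, (c.2 i).val v * x i ≤ 0) := by
  obtain ⟨K, LL, hLL⟩ := SynK.blkQ h n rfl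
  obtain ⟨T, hT⟩ := hLL ST.zero
  refine ⟨K, T, LL.map fun S => S.map fun c => (c.1, c.2.2), fun R _ _ _ hd v _ => ?_⟩
  have h1 := hT R hd Fin.elim0 v (fun i => i.elim0)
  rw [SynK.app_zero] at h1
  constructor
  · intro hn
    obtain ⟨S, hS, y, hy, hc⟩ := h1.1 hn
    refine ⟨_, List.mem_map.2 ⟨S, hS, rfl⟩, y, hy, fun c hc' => ?_⟩
    obtain ⟨d, hd', rfl⟩ := List.mem_map.1 hc'
    have := hc d hd'
    simpa using this
  · rintro ⟨S', hS', y, -, hc⟩
    obtain ⟨S, hS, rfl⟩ := List.mem_map.1 hS'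
    refine h1.2 ⟨S, hS, y, fun c hc' => ?_⟩
    have := hc _ (List.mem_map.2 ⟨c, hc', rfl⟩)
    simpa using this

end Pool.Agent.H20.FN
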