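import Pool.Agent.H20.FN.StepD
import Pool.Agent.H20.FN.Bridge
import Pool.Agent.H20.FN.Lnp
import Pool.Agent.H20.FN.Field
import Pool.Agent.H20.FN.SynK
import Pool.Agent.H20.FL.Fin

set_option autoImplicit false

/-!
# Blocks of linear quantifiers are uniformly `E_1` in the models of `IE_1`
-/

namespace Pool.Agent.H20.E1

/-- a block of existential quantifiers before a quantifier-free formula, everything linear as in `LinAll` -/
inductive LinEx : ℕ → {N : ℕ} → Fml N → Prop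
  | qf {k N : ℕ} {α : Fml N} : α.LinO k → LinEx k α
  | ex {k N : ℕ} {t : Tm N} {φ : Fml (N + 1)} : t.LinO k → LinEx (k + 1) φ → LinEx k (.ex t φ)

/-- Boolean combinations of `OneA` formulas and of blocks of quantifiers of one kind, linear over terms in the
parameters, before a quantifier-free formula -/
inductive BoolBlk : {n : ℕ} → Fml n → Prop
  | oneA {n : ℕ} {φ : Fml n} : OneA φ → BoolBlk φ
  | all {n : ℕ} {φ : Fml n} : LinAll 0 φ → BoolBlk φ
  | ex {n : ℕ} {φ : Fml n} : LinEx 0 φ → BoolBlk φ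
  | neg {n : ℕ} {φ : Fml n} : BoolBlk φ → BoolBlk (.neg φ)
  | and {n : ℕ} {φ ψ : Fml n} : BoolBlk φ → BoolBlk ψ → BoolBlk (.and φ ψ)
  | or {n : ℕ} {φ ψ : Fml n} : BoolBlk φ → BoolBlk ψ → BoolBlk (.or φ ψ)

/-- formulas built by conjunction, disjunction and bounded existential quantification from these -/
inductive Blks : {n : ℕ} → Fml n → Prop
  | base {n : ℕ} {φ : Fml n} : BoolBlk φ → Blks φ
  | and {n : ℕ} {φ ψ : Fml n} : Blks φ → Blks ψ → Blks (.and φ ψ)
  | or {n : ℕ} {φ ψ : Fml n} : Blks φ → Blks ψ → Blks (.or φ ψ)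
  | ex {n : ℕ} (t : Tm n) {φ : Fml (n + 1)} : Blks φ → Blks (.ex t φ)

end Pool.Agent.H20.E1

namespace Pool.Agent.H20.FN

open Pool.Agent.H20.E1 Pool.Agent.H20.FL

theorem hfM (k : ℕ) : ∃ w : ℕ, ∀ M : Md, HF M.R k w :=
  hf_of_all exists_field (fun M F _ _ _ ι hι hden => lnpf M ι hι hden) (fun M => lnpb M) k

theorem complM (k : ℕ) : ∃ e : ℕ, ∀ M : Md, Compl M.R k e := by
  obtain ⟨e, he⟩ := compl k
  exact ⟨e, fun M => he M.R M.hd (bez M.hd M.hv (lnpb M))⟩

theorem DS.np : ∀ (k : ℕ) (Λ : Type) [Fintype Λ], DS (Ix Λ k) (fun M z => NP M z)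
  | 0, Λ, _ => DS.np0 Λ
  | k + 1, Λ, _ => by
    obtain ⟨w, hw⟩ := hfM (k + 1)
    obtain ⟨e, he⟩ := complM k
    exact DS.step k w e hw he (DS.np k) Λ

theorem D.block {n : ℕ} {φ : Fml n} (h : LinAll 0 φ) : D n (fun _ v => φ.holds v) := by
  obtain ⟨K, T, LL, hLL⟩ := blk φ h
  let σ : (S : List (ST n × (Fin K → ST n))) → Ix (Fin S.length) K → ST n := fun S o =>
    Sum.elim (fun _ => T) (Sum.elim (fun l => (S.get l).1) (fun p => (S.get p.1).2 p.2)) o
  refine (D.ball LL (fun S _ => DS.np K (Fin S.length) n (σ S))).congr ?_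
  intro M v hv
  have h1 := hLL M.R M.hd v hv
  constructor
  · intro hφ S hS x hx
    by_contra hcon
    push Not at hcon
    refine absurd hφ (h1.2 ⟨S, hS, x, hx, fun c hc => ?_⟩)
    obtain ⟨l, rfl⟩ := List.mem_iff_get.1 hc
    exact hcon l
  · intro hN
    by_contra hφ
    obtain ⟨S, hS, x, hx, hc⟩ := h1.1 hφ
    obtain ⟨l, hl⟩ := hN S hS x hx
    exact absurd hl (not_lt.2 (hc (S.get l) (List.get_mem S l)))

theorem LinAll.neg {k N : ℕ} {φ : Fml N} (h : LinAll k φ) : D N (fun _ v => ¬ φ.holds v) := by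
  induction h with
  | @qf k N α hα => exact D.qf (.neg α) (show Fml.IsQF α from LinO.isQF hα)
  | @all k N t φ _ _ ih =>
    refine (D.ex t ih).congr ?_
    intro M v _
    simp only [Fml.holds]
    push Not
    rfl

theorem LinEx.pos {k N : ℕ} {φ : Fml N} (h : LinEx k φ) : D N (fun _ v => φ.holds v) := by
  induction h with
  | qf hα => exact D.qf _ (LinO.isQF hα)
  | @ex k N t φ _ _ ih => exact D.ex t ih

theorem LinEx.dual {k N : ℕ} {φ : Fml N} (h : LinEx k φ) : ∃ ψ : Fml N, LinAll k ψ ∧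
    ∀ (R : Type) [CommRing R] [LinearOrder R] (v : Fin N → R), ¬ φ.holds v ↔ ψ.holds v := by
  induction h with
  | @qf k N α hα => exact ⟨.neg α, .qf hα, fun R _ _ v => Iff.rfl⟩
  | @ex k N t φ ht _ ih =>
    obtain ⟨ψ, h1, h2⟩ := ih
    refine ⟨.all t ψ, .all ht h1, fun R _ _ v => ?_⟩
    simp only [Fml.holds, ← h2]
    push Not
    rfl

theorem D.boolBlk {n : ℕ} {φ : Fml n} (h : BoolBlk φ) :
    D n (fun _ v => φ.holds v) ∧ D n (fun _ v => ¬ φ.holds v) := by
  induction h with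
  | oneA h => exact ⟨D.tame (.one h), D.tame (.one (.neg h))⟩
  | all h => exact ⟨D.block h, LinAll.neg h⟩
  | ex h =>
    refine ⟨LinEx.pos h, ?_⟩
    obtain ⟨ψ, h1, h2⟩ := LinEx.dual h
    exact (D.block h1).congr (fun M v _ => h2 M.R v)
  | neg _ ih =>
    refine ⟨ih.2, ih.1.congr ?_⟩
    intro M v _
    simp only [Fml.holds, not_not]
  | and _ _ ih1 ih2 =>
    refine ⟨ih1.1.and ih2.1, (ih1.2.or ih2.2).congr ?_⟩
    intro M v _
    simp only [Fml.holds]
    exact not_and_or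
  | or _ _ ih1 ih2 =>
    refine ⟨ih1.1.or ih2.1, (ih1.2.and ih2.2).congr ?_⟩
    intro M v _
    simp only [Fml.holds]
    exact not_or

theorem D.blks {n : ℕ} {φ : Fml n} (h : Blks φ) : D n (fun _ v => φ.holds v) := by
  induction h with
  | base h => exact (D.boolBlk h).1
  | and _ _ ih1 ih2 => exact ih1.and ih2
  | or _ _ ih1 ih2 => exact ih1.or ih2
  | ex t _ ih => exact D.ex t ih

end Pool.Agent.H20.FN
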