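import Pool.Agent.H20.FN.All

set_option autoImplicit false

/-!
# Linear blocks of quantifiers before Boolean combinations of one-quantifier formulas
-/

namespace Pool.Agent.H20.E1

/-- Boolean combinations of quantifier-free formulas and of formulas with one quantifier, linear in the variables
below `k` and in the variable of the quantifier -/
inductive Mat : ℕ → {N : ℕ} → Fml N → Prop
  | qf {k N : ℕ} {α : Fml N} : α.LinO k → Mat k α
  | ex {k N : ℕ} {t : Tm N} {β : Fml (N + 1)} : t.LinO k → β.LinO (k + 1) → Mat k (.ex t β)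
  | all {k N : ℕ} {t : Tm N} {β : Fml (N + 1)} : t.LinO k → β.LinO (k + 1) → Mat k (.all t β)
  | neg {k N : ℕ} {φ : Fml N} : Mat k φ → Mat k (.neg φ)
  | and {k N : ℕ} {φ ψ : Fml N} : Mat k φ → Mat k ψ → Mat k (.and φ ψ)
  | or {k N : ℕ} {φ ψ : Fml N} : Mat k φ → Mat k ψ → Mat k (.or φ ψ)

/-- a block of universal quantifiers before a formula as in `Mat`; the bounds are linear in the variables of the
block in front of them -/
inductive AllMat : ℕ → {N : ℕ} → Fml N → Prop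
  | mat {k N : ℕ} {φ : Fml N} : Mat k φ → AllMat k φ
  | all {k N : ℕ} {t : Tm N} {φ : Fml (N + 1)} : t.LinO k → AllMat (k + 1) φ → AllMat k (.all t φ)

/-- the same with existential quantifiers -/
inductive ExMat : ℕ → {N : ℕ} → Fml N → Prop
  | mat {k N : ℕ} {φ : Fml N} : Mat k φ → ExMat k φ
  | ex {k N : ℕ} {t : Tm N} {φ : Fml (N + 1)} : t.LinO k → ExMat (k + 1) φ → ExMat k (.ex t φ)

/-- Boolean combinations of `OneA` formulas and of the blocks `AllMat 0`, `ExMat 0` -/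
inductive BoolAlt : {n : ℕ} → Fml n → Prop
  | oneA {n : ℕ} {φ : Fml n} : OneA φ → BoolAlt φ
  | all {n : ℕ} {φ : Fml n} : AllMat 0 φ → BoolAlt φ
  | ex {n : ℕ} {φ : Fml n} : ExMat 0 φ → BoolAlt φ
  | neg {n : ℕ} {φ : Fml n} : BoolAlt φ → BoolAlt (.neg φ)
  | and {n : ℕ} {φ ψ : Fml n} : BoolAlt φ → BoolAlt ψ → BoolAlt (.and φ ψ)
  | or {n : ℕ} {φ ψ : Fml n} : BoolAlt φ → BoolAlt ψ → BoolAlt (.or φ ψ)

/-- formulas built by conjunction, disjunction and bounded existential quantification from these -/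
inductive Alts : {n : ℕ} → Fml n → Prop
  | base {n : ℕ} {φ : Fml n} : BoolAlt φ → Alts φ
  | and {n : ℕ} {φ ψ : Fml n} : Alts φ → Alts ψ → Alts (.and φ ψ)
  | or {n : ℕ} {φ ψ : Fml n} : Alts φ → Alts ψ → Alts (.or φ ψ)
  | ex {n : ℕ} (t : Tm n) {φ : Fml (n + 1)} : Alts φ → Alts (.ex t φ)

theorem AllMat.of_linAll {k N : ℕ} {φ : Fml N} (h : LinAll k φ) : AllMat k φ := by
  induction h with
  | qf h => exact .mat (.qf h)
  | all ht _ ih => exact .all ht ih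

theorem ExMat.of_linEx {k N : ℕ} {φ : Fml N} (h : LinEx k φ) : ExMat k φ := by
  induction h with
  | qf h => exact .mat (.qf h)
  | ex ht _ ih => exact .ex ht ih

/-- the class `Alts` contains the class `Blks` -/
theorem Alts.of_blks {n : ℕ} {φ : Fml n} (h : Blks φ) : Alts φ := by
  induction h with
  | base h =>
    refine .base ?_
    induction h with
    | oneA h => exact .oneA h
    | all h => exact .all (.of_linAll h)
    | ex h => exact .ex (.of_linEx h)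
    | neg _ ih => exact .neg ih
    | and _ _ ih1 ih2 => exact .and ih1 ih2
    | or _ _ ih1 ih2 => exact .or ih1 ih2
  | and _ _ ih1 ih2 => exact .and ih1 ih2
  | or _ _ ih1 ih2 => exact .or ih1 ih2
  | ex t _ ih => exact .ex t ih

end Pool.Agent.H20.E1

namespace Pool.Agent.H20.FN

open Pool.Agent.H20.E1 Pool.Agent.H20.FL

/-- renamings which move the variables from `k` on behind `k'` -/
def RN {n m : ℕ} (k k' : ℕ) (σ : Fin n → Tm m) : Prop :=
  ∃ ρ : Fin n → Fin m, (∀ i, σ i = .var (ρ i)) ∧ ∀ i, k ≤ i.val → k' ≤ (ρ i).val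

theorem RN.up {n m k k' : ℕ} {σ : Fin n → Tm m} (h : RN k k' σ) : RN (k + 1) (k' + 1) (E1.up σ) := by
  obtain ⟨ρ, h1, h2⟩ := h
  refine ⟨Fin.cons 0 (fun i => (ρ i).succ), fun i => ?_, fun i hi => ?_⟩
  · refine Fin.cases rfl (fun i => ?_) i
    show (σ i).lift = .var (ρ i).succ
    rw [h1]
    rfl
  · revert hi
    refine Fin.cases (fun hi => ?_) (fun i hi => ?_) i
    · exact absurd hi (by simp)
    · show k' + 1 ≤ (ρ i).val + 1
      have : k ≤ i.val := by simpa using hi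
      have := h2 i this
      omega

theorem RN.succ {n k : ℕ} : RN k (k + 1) (fun i : Fin n => (.var i.succ : Tm (n + 1))) :=
  ⟨Fin.succ, fun _ => rfl, fun i hi => by simpa using hi⟩

theorem NoV.ren {n m k k' : ℕ} {σ : Fin n → Tm m} (hσ : RN k k' σ) {t : Tm n} (h : t.NoV k) :
    (t.subst σ).NoV k' := by
  obtain ⟨ρ, h1, h2⟩ := hσ
  induction t with
  | var i =>
    show (σ i).NoV k'
    rw [h1]
    exact h2 i h
  | zero => trivial
  | one => trivial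
  | add s t ihs iht => exact ⟨ihs h.1, iht h.2⟩
  | mul s t ihs iht => exact ⟨ihs h.1, iht h.2⟩

theorem LinO.ren {n m k k' : ℕ} {σ : Fin n → Tm m} (hσ : RN k k' σ) {t : Tm n} (h : t.LinO k) :
    (t.subst σ).LinO k' := by
  induction t with
  | var i =>
    obtain ⟨ρ, h1, h2⟩ := hσ
    show (σ i).LinO k'
    rw [h1]
    trivial
  | zero => trivial
  | one => trivial
  | add s t ihs iht => exact ⟨ihs h.1, iht h.2⟩
  | mul s t ihs iht =>
    rcases h with ⟨h1, h2⟩ | ⟨h1, h2⟩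
    · exact Or.inl ⟨NoV.ren hσ h1, iht h2⟩
    · exact Or.inr ⟨ihs h1, NoV.ren hσ h2⟩

theorem FLinO.ren {n : ℕ} {φ : Fml n} : ∀ {m k k' : ℕ} {σ : Fin n → Tm m} (_ : RN k k' σ) (_ : φ.LinO k),
    (φ.subst σ).LinO k' := by
  induction φ with
  | lt s t => intro m k k' σ hσ h; exact ⟨LinO.ren hσ h.1, LinO.ren hσ h.2⟩
  | eq s t => intro m k k' σ hσ h; exact ⟨LinO.ren hσ h.1, LinO.ren hσ h.2⟩
  | neg φ ih => intro m k k' σ hσ h; exact ih (k := k) (k' := k') hσ h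
  | and φ ψ ih1 ih2 => intro m k k' σ hσ h; exact ⟨ih1 hσ h.1, ih2 hσ h.2⟩
  | or φ ψ ih1 ih2 => intro m k k' σ hσ h; exact ⟨ih1 hσ h.1, ih2 hσ h.2⟩
  | ex t φ ih => intro m k k' σ hσ h; exact h.elim
  | all t φ ih => intro m k k' σ hσ h; exact h.elim

theorem LinEx.ren {n k : ℕ} {φ : Fml n} (h : LinEx k φ) : ∀ {m k' : ℕ} {σ : Fin n → Tm m} (_ : RN k k' σ),
    LinEx k' (φ.subst σ) := by
  induction h with
  | qf hα => intro m k' σ hσ; exact .qf (FLinO.ren hσ hα)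
  | ex ht _ ih => intro m k' σ hσ; exact .ex (LinO.ren hσ ht) (ih hσ.up)

/-- equivalent to a linear existential block in all models of `IE_1` -/
def XE (k N : ℕ) (P : ∀ M : Md, (Fin N → M.R) → Prop) : Prop :=
  ∃ ψ : Fml N, LinEx k ψ ∧ ∀ (M : Md) (v : Fin N → M.R), (∀ i, 0 ≤ v i) → (P M v ↔ ψ.holds v)

theorem XE.congr {k N : ℕ} {P Q : ∀ M : Md, (Fin N → M.R) → Prop} (h : XE k N P)
    (hPQ : ∀ (M : Md) (v : Fin N → M.R), (∀ i, 0 ≤ v i) → (Q M v ↔ P M v)) : XE k N Q := by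
  obtain ⟨ψ, h1, h2⟩ := h
  exact ⟨ψ, h1, fun M v hv => (hPQ M v hv).trans (h2 M v hv)⟩

theorem xqf_and {k n : ℕ} {ψ : Fml n} (h : LinEx k ψ) : ∀ φ : Fml n, φ.LinO k → ∃ χ : Fml n, LinEx k χ ∧
    ∀ (M : Md) (v : Fin n → M.R), (∀ i, 0 ≤ v i) → (χ.holds v ↔ (φ.holds v ∧ ψ.holds v)) := by
  induction h with
  | @qf k n ψ h =>
    intro φ hφ
    exact ⟨.and φ ψ, .qf (by exact ⟨hφ, h⟩), fun M v _ => by simp only [Fml.holds]⟩
  | @ex k n t ψ' ht h ih =>
    intro φ hφ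
    obtain ⟨χ, h1, h2⟩ := ih φ.lift (FLinO.ren RN.succ hφ)
    refine ⟨.ex t χ, .ex ht h1, fun M v hv => ?_⟩
    simp only [Fml.holds]
    constructor
    · rintro ⟨a, ha, hat, hx⟩
      rw [h2 M _ (cons_nonneg ha hv), Fml.holds_lift] at hx
      exact ⟨hx.1, a, ha, hat, hx.2⟩
    · rintro ⟨hx, a, ha, hat, hy⟩
      refine ⟨a, ha, hat, ?_⟩
      rw [h2 M _ (cons_nonneg ha hv), Fml.holds_lift]
      exact ⟨hx, hy⟩

theorem x_and {k n : ℕ} {φ : Fml n} (h : LinEx k φ) : ∀ ψ : Fml n, LinEx k ψ → ∃ χ : Fml n, LinEx k χ ∧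
    ∀ (M : Md) (v : Fin n → M.R), (∀ i, 0 ≤ v i) → (χ.holds v ↔ (φ.holds v ∧ ψ.holds v)) := by
  induction h with
  | qf h => exact fun ψ hψ => xqf_and hψ _ h
  | @ex k n t φ' ht h ih =>
    intro ψ hψ
    obtain ⟨χ, h1, h2⟩ := ih ψ.lift (LinEx.ren hψ RN.succ)
    refine ⟨.ex t χ, .ex ht h1, fun M v hv => ?_⟩
    simp only [Fml.holds]
    constructor
    · rintro ⟨a, ha, hat, hx⟩
      rw [h2 M _ (cons_nonneg ha hv), Fml.holds_lift] at hx
      exact ⟨⟨a, ha, hat, hx.1⟩, hx.2⟩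
    · rintro ⟨⟨a, ha, hat, hy⟩, hx⟩
      refine ⟨a, ha, hat, ?_⟩
      rw [h2 M _ (cons_nonneg ha hv), Fml.holds_lift]
      exact ⟨hy, hx⟩

theorem xqf_or {k n : ℕ} {ψ : Fml n} (h : LinEx k ψ) : ∀ φ : Fml n, φ.LinO k → ∃ χ : Fml n, LinEx k χ ∧
    ∀ (M : Md) (v : Fin n → M.R), (∀ i, 0 ≤ v i) → (χ.holds v ↔ (φ.holds v ∨ ψ.holds v)) := by
  induction h with
  | @qf k n ψ h =>
    intro φ hφ
    exact ⟨.or φ ψ, .qf (by exact ⟨hφ, h⟩), fun M v _ => by simp only [Fml.holds]⟩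
  | @ex k n t ψ' ht h ih =>
    intro φ hφ
    obtain ⟨χ, h1, h2⟩ := ih φ.lift (FLinO.ren RN.succ hφ)
    refine ⟨.ex t χ, .ex ht h1, fun M v hv => ?_⟩
    simp only [Fml.holds]
    constructor
    · rintro ⟨a, ha, hat, hx⟩
      rw [h2 M _ (cons_nonneg ha hv), Fml.holds_lift] at hx
      rcases hx with hx | hx
      · exact Or.inl hx
      · exact Or.inr ⟨a, ha, hat, hx⟩
    · rintro (hx | ⟨a, ha, hat, hy⟩)
      · refine ⟨0, le_rfl, Tm.val_nonneg t v hv, ?_⟩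
        rw [h2 M _ (cons_nonneg le_rfl hv), Fml.holds_lift]
        exact Or.inl hx
      · refine ⟨a, ha, hat, ?_⟩
        rw [h2 M _ (cons_nonneg ha hv), Fml.holds_lift]
        exact Or.inr hy

theorem x_or {k n : ℕ} {φ : Fml n} (h : LinEx k φ) : ∀ ψ : Fml n, LinEx k ψ → ∃ χ : Fml n, LinEx k χ ∧
    ∀ (M : Md) (v : Fin n → M.R), (∀ i, 0 ≤ v i) → (χ.holds v ↔ (φ.holds v ∨ ψ.holds v)) := by
  induction h with
  | qf h => exact fun ψ hψ => xqf_or hψ _ h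
  | @ex k n t φ' ht h ih =>
    intro ψ hψ
    obtain ⟨χ, h1, h2⟩ := ih ψ.lift (LinEx.ren hψ RN.succ)
    refine ⟨.ex t χ, .ex ht h1, fun M v hv => ?_⟩
    simp only [Fml.holds]
    constructor
    · rintro ⟨a, ha, hat, hx⟩
      rw [h2 M _ (cons_nonneg ha hv), Fml.holds_lift] at hx
      rcases hx with hx | hx
      · exact Or.inl ⟨a, ha, hat, hx⟩
      · exact Or.inr hx
    · rintro (⟨a, ha, hat, hy⟩ | hx)
      · refine ⟨a, ha, hat, ?_⟩
        rw [h2 M _ (cons_nonneg ha hv), Fml.holds_lift]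
        exact Or.inl hy
      · refine ⟨0, le_rfl, Tm.val_nonneg t v hv, ?_⟩
        rw [h2 M _ (cons_nonneg le_rfl hv), Fml.holds_lift]
        exact Or.inr hx

theorem XE.and {k N : ℕ} {P Q : ∀ M : Md, (Fin N → M.R) → Prop} (h : XE k N P) (h' : XE k N Q) :
    XE k N (fun M v => P M v ∧ Q M v) := by
  obtain ⟨φ, h1, h2⟩ := h
  obtain ⟨ψ, h3, h4⟩ := h'
  obtain ⟨χ, h5, h6⟩ := x_and h1 ψ h3
  exact ⟨χ, h5, fun M v hv => by
    show _ ↔ _
    rw [h6 M v hv, ← h2 M v hv, ← h4 M v hv]⟩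

theorem XE.or {k N : ℕ} {P Q : ∀ M : Md, (Fin N → M.R) → Prop} (h : XE k N P) (h' : XE k N Q) :
    XE k N (fun M v => P M v ∨ Q M v) := by
  obtain ⟨φ, h1, h2⟩ := h
  obtain ⟨ψ, h3, h4⟩ := h'
  obtain ⟨χ, h5, h6⟩ := x_or h1 ψ h3
  exact ⟨χ, h5, fun M v hv => by
    show _ ↔ _
    rw [h6 M v hv, ← h2 M v hv, ← h4 M v hv]⟩

theorem XE.ex {k N : ℕ} {t : Tm N} (ht : t.LinO k) {P : ∀ M : Md, (Fin (N + 1) → M.R) → Prop}
    (h : XE (k + 1) (N + 1) P) :
    XE k N (fun M v => ∃ a : M.R, 0 ≤ a ∧ a ≤ t.val v ∧ P M (Fin.cons a v)) := by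
  obtain ⟨φ, h1, h2⟩ := h
  refine ⟨.ex t φ, .ex ht h1, fun M v hv => ?_⟩
  simp only [Fml.holds]
  constructor
  · rintro ⟨a, ha, hat, hx⟩
    exact ⟨a, ha, hat, (h2 M _ (cons_nonneg ha hv)).1 hx⟩
  · rintro ⟨a, ha, hat, hx⟩
    exact ⟨a, ha, hat, (h2 M _ (cons_nonneg ha hv)).2 hx⟩

theorem XE.qf {k N : ℕ} {α : Fml N} (h : α.LinO k) : XE k N (fun _ v => α.holds v) :=
  ⟨α, .qf h, fun _ _ _ => Iff.rfl⟩

theorem XE.bex {k N : ℕ} {ι : Type} (L : List ι) {P : ι → ∀ M : Md, (Fin N → M.R) → Prop}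
    (h : ∀ i ∈ L, XE k N (P i)) : XE k N (fun M v => ∃ i ∈ L, P i M v) := by
  induction L with
  | nil =>
    refine (XE.qf (α := .lt .zero .zero) (by exact ⟨trivial, trivial⟩)).congr (fun M v _ => by simp [Fml.holds])
  | cons a L ih =>
    refine ((h a (List.mem_cons_self ..)).or (ih (fun i hi => h i (List.mem_cons_of_mem _ hi)))).congr ?_
    intro M v _
    simp

theorem XE.ball {k N : ℕ} {ι : Type} (L : List ι) {P : ι → ∀ M : Md, (Fin N → M.R) → Prop}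
    (h : ∀ i ∈ L, XE k N (P i)) : XE k N (fun M v => ∀ i ∈ L, P i M v) := by
  induction L with
  | nil =>
    refine (XE.qf (α := .eq .zero .zero) (by exact ⟨trivial, trivial⟩)).congr (fun M v _ => by simp [Fml.holds])
  | cons a L ih =>
    refine ((h a (List.mem_cons_self ..)).and (ih (fun i hi => h i (List.mem_cons_of_mem _ hi)))).congr ?_
    intro M v _
    simp

/-! ### signed terms with linearity -/

/-- both parts linear -/
def SL (k : ℕ) {N : ℕ} (s : ST N) : Prop := s.1.LinO k ∧ s.2.LinO k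
/-- both parts free of the variables below `k` -/
def SN (k : ℕ) {N : ℕ} (s : ST N) : Prop := s.1.NoV k ∧ s.2.NoV k

theorem nov_linO {N k : ℕ} {t : Tm N} (h : t.NoV k) : t.LinO k := by
  induction t with
  | var i => trivial
  | zero => trivial
  | one => trivial
  | add s t ihs iht => exact ⟨ihs h.1, iht h.2⟩
  | mul s t ihs iht => exact Or.inl ⟨h.1, iht h.2⟩

theorem SN.sl {N k : ℕ} {s : ST N} (h : SN k s) : SL k s := ⟨nov_linO h.1, nov_linO h.2⟩
theorem SN.mul {N k : ℕ} {s t : ST N} (h : SN k s) (h' : SN k t) : SN k (s.mul t) :=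
  ⟨⟨⟨h.1, h'.1⟩, ⟨h.2, h'.2⟩⟩, ⟨⟨h.1, h'.2⟩, ⟨h.2, h'.1⟩⟩⟩
theorem SN.add {N k : ℕ} {s t : ST N} (h : SN k s) (h' : SN k t) : SN k (s.add t) :=
  ⟨⟨h.1, h'.1⟩, ⟨h.2, h'.2⟩⟩
theorem SN.neg {N k : ℕ} {s : ST N} (h : SN k s) : SN k s.neg := ⟨h.2, h.1⟩
theorem SL.mul {N k : ℕ} {s t : ST N} (h : SN k s) (h' : SL k t) : SL k (s.mul t) :=
  ⟨⟨Or.inl ⟨h.1, h'.1⟩, Or.inl ⟨h.2, h'.2⟩⟩, ⟨Or.inl ⟨h.1, h'.2⟩, Or.inl ⟨h.2, h'.1⟩⟩⟩
theorem SL.add {N k : ℕ} {s t : ST N} (h : SL k s) (h' : SL k t) : SL k (s.add t) :=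
  ⟨⟨h.1, h'.1⟩, ⟨h.2, h'.2⟩⟩
theorem SL.neg {N k : ℕ} {s : ST N} (h : SL k s) : SL k s.neg := ⟨h.2, h.1⟩
theorem SN.lift {N k : ℕ} {s : ST N} (h : SN k s) : SN (k + 1) s.lift1 :=
  ⟨NoV.ren RN.succ h.1, NoV.ren RN.succ h.2⟩
theorem SL.lift {N k : ℕ} {s : ST N} (h : SL k s) : SL (k + 1) s.lift1 :=
  ⟨LinO.ren RN.succ h.1, LinO.ren RN.succ h.2⟩

theorem XE.lt {k N : ℕ} {s t : ST N} (hs : SL k s) (ht : SL k t) : XE k N (fun _ v => s.val v < t.val v) := by
  refine (XE.qf (α := .lt (.add s.1 t.2) (.add t.1 s.2)) (by exact ⟨⟨hs.1, ht.2⟩, ⟨ht.1, hs.2⟩⟩)).congr ?_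
  intro M v _
  simp only [Fml.holds, Tm.val, ST.val]
  constructor <;> intro h <;> linarith

theorem XE.eq {k N : ℕ} {s t : ST N} (hs : SL k s) (ht : SL k t) : XE k N (fun _ v => s.val v = t.val v) := by
  refine (XE.qf (α := .eq (.add s.1 t.2) (.add t.1 s.2)) (by exact ⟨⟨hs.1, ht.2⟩, ⟨ht.1, hs.2⟩⟩)).congr ?_
  intro M v _
  simp only [Fml.holds, Tm.val, ST.val]
  constructor <;> intro h <;> linarith

theorem nov_dec {N k : ℕ} (s : Tm (N + 1)) (h : s.NoV (k + 1)) : ∃ C : ST N, SN k C ∧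
    ∀ (R : Type) [CommRing R] [LinearOrder R] (x : R) (v : Fin N → R),
      s.val (Fin.cons x v : Fin (N + 1) → R) = C.val v := by
  induction s with
  | var i =>
    revert h
    refine Fin.cases (fun h => ?_) (fun j h => ?_) i
    · exact absurd h (by simp [Tm.NoV])
    · refine ⟨(.var j, .zero), ⟨?_, trivial⟩, fun R _ _ x v => by simp [Tm.val, ST.val]⟩
      have : k + 1 ≤ j.val + 1 := h
      show k ≤ j.val
      omega
  | zero => exact ⟨.zero, ⟨trivial, trivial⟩, fun R _ _ x v => by simp [Tm.val]⟩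
  | one => exact ⟨.one, ⟨trivial, trivial⟩, fun R _ _ x v => by simp [Tm.val]⟩
  | add s t ihs iht =>
    obtain ⟨A, hA, hA'⟩ := ihs h.1
    obtain ⟨B, hB, hB'⟩ := iht h.2
    exact ⟨A.add B, hA.add hB, fun R _ _ x v => by simp [Tm.val, hA', hB']⟩
  | mul s t ihs iht =>
    obtain ⟨A, hA, hA'⟩ := ihs h.1
    obtain ⟨B, hB, hB'⟩ := iht h.2
    exact ⟨A.mul B, hA.mul hB, fun R _ _ x v => by simp [Tm.val, hA', hB']⟩

theorem lin_dec {N k : ℕ} (s : Tm (N + 1)) (h : s.LinO (k + 1)) : ∃ A C : ST N, SL k A ∧ SN k C ∧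
    ∀ (R : Type) [CommRing R] [LinearOrder R] (x : R) (v : Fin N → R),
      s.val (Fin.cons x v : Fin (N + 1) → R) = A.val v + C.val v * x := by
  induction s with
  | var i =>
    refine Fin.cases ?_ (fun j => ?_) i
    · exact ⟨.zero, .one, ⟨trivial, trivial⟩, ⟨trivial, trivial⟩, fun R _ _ x v => by simp [Tm.val]⟩
    · exact ⟨ST.of (.var j), .zero, ⟨trivial, trivial⟩, ⟨trivial, trivial⟩,
        fun R _ _ x v => by simp [Tm.val]⟩
  | zero => exact ⟨.zero, .zero, ⟨trivial, trivial⟩, ⟨trivial, trivial⟩, fun R _ _ x v => by simp [Tm.val]⟩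
  | one => exact ⟨.one, .zero, ⟨trivial, trivial⟩, ⟨trivial, trivial⟩, fun R _ _ x v => by simp [Tm.val]⟩
  | add s t ihs iht =>
    obtain ⟨A, C, hA, hC, h1⟩ := ihs h.1
    obtain ⟨A', C', hA', hC', h2⟩ := iht h.2
    exact ⟨A.add A', C.add C', hA.add hA', hC.add hC', fun R _ _ x v => by
      simp only [Tm.val, h1, h2, ST.val_add]; ring⟩
  | mul s t ihs iht =>
    rcases h with ⟨h1, h2⟩ | ⟨h1, h2⟩
    · obtain ⟨K, hK, hK'⟩ := nov_dec s h1
      obtain ⟨A, C, hA, hC, h3⟩ := iht h2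
      exact ⟨K.mul A, K.mul C, SL.mul hK hA, hK.mul hC, fun R _ _ x v => by
        simp only [Tm.val, hK', h3, ST.val_mul]; ring⟩
    · obtain ⟨K, hK, hK'⟩ := nov_dec t h2
      obtain ⟨A, C, hA, hC, h3⟩ := ihs h1
      exact ⟨K.mul A, K.mul C, SL.mul hK hA, hK.mul hC, fun R _ _ x v => by
        simp only [Tm.val, hK', h3, ST.val_mul]; ring⟩

/-- disjunctive normal forms with respect to the first variable -/
def DN1 (k N : ℕ) (P : ∀ M : Md, M.R → (Fin N → M.R) → Prop) : Prop :=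
  ∃ LL : List (List (ST N × ST N)), (∀ S ∈ LL, ∀ c ∈ S, SL k c.1 ∧ SN k c.2) ∧
    ∀ (M : Md) (x : M.R) (v : Fin N → M.R), (P M x v ↔ ∃ S ∈ LL, ∀ c ∈ S, c.1.val v + c.2.val v * x ≤ 0)

theorem DN1.or {k N : ℕ} {P Q : ∀ M : Md, M.R → (Fin N → M.R) → Prop} (h : DN1 k N P) (h' : DN1 k N Q) :
    DN1 k N (fun M x v => P M x v ∨ Q M x v) := by
  obtain ⟨L, h1, h2⟩ := h
  obtain ⟨L', h3, h4⟩ := h'
  refine ⟨L ++ L', fun S hS => ?_, fun M x v => ?_⟩
  · rcases List.mem_append.1 hS with hS | hS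
    · exact h1 S hS
    · exact h3 S hS
  · show (P M x v ∨ Q M x v) ↔ _
    rw [h2, h4]
    simp only [List.mem_append, or_and_right, exists_or]

theorem DN1.and {k N : ℕ} {P Q : ∀ M : Md, M.R → (Fin N → M.R) → Prop} (h : DN1 k N P) (h' : DN1 k N Q) :
    DN1 k N (fun M x v => P M x v ∧ Q M x v) := by
  obtain ⟨L, h1, h2⟩ := h
  obtain ⟨L', h3, h4⟩ := h'
  refine ⟨(L.product L').map (fun p => p.1 ++ p.2), fun S hS c hc => ?_, fun M x v => ?_⟩
  · obtain ⟨⟨a, b⟩, hp, rfl⟩ := List.mem_map.1 hS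
    obtain ⟨ha, hb⟩ := List.mem_product.1 hp
    rcases List.mem_append.1 hc with hc | hc
    · exact h1 a ha c hc
    · exact h3 b hb c hc
  · show (P M x v ∧ Q M x v) ↔ _
    rw [h2, h4]
    constructor
    · rintro ⟨⟨a, ha, ha'⟩, ⟨b, hb, hb'⟩⟩
      refine ⟨a ++ b, List.mem_map.2 ⟨(a, b), List.mem_product.2 ⟨ha, hb⟩, rfl⟩, fun c hc => ?_⟩
      rcases List.mem_append.1 hc with hc | hc
      · exact ha' c hc
      · exact hb' c hc
    · rintro ⟨S, hS, hS'⟩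
      obtain ⟨⟨a, b⟩, hp, rfl⟩ := List.mem_map.1 hS
      obtain ⟨ha, hb⟩ := List.mem_product.1 hp
      exact ⟨⟨a, ha, fun c hc => hS' c (List.mem_append_left _ hc)⟩,
        ⟨b, hb, fun c hc => hS' c (List.mem_append_right _ hc)⟩⟩

theorem DN1.le {k N : ℕ} (s t : Tm (N + 1)) (hs : s.LinO (k + 1)) (ht : t.LinO (k + 1)) :
    DN1 k N (fun M x v => s.val (Fin.cons x v : Fin (N + 1) → M.R) ≤ t.val (Fin.cons x v : Fin (N + 1) → M.R)) := by
  obtain ⟨A, C, hA, hC, h1⟩ := lin_dec s hs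
  obtain ⟨A', C', hA', hC', h2⟩ := lin_dec t ht
  refine ⟨[[(A.add A'.neg, C.add C'.neg)]], fun S hS c hc => ?_, fun M x v => ?_⟩
  · rw [List.mem_singleton] at hS
    subst hS
    rw [List.mem_singleton] at hc
    subst hc
    exact ⟨hA.add hA'.neg, hC.add hC'.neg⟩
  · show s.val (Fin.cons x v : Fin (N + 1) → M.R) ≤ t.val (Fin.cons x v : Fin (N + 1) → M.R) ↔ _
    rw [h1, h2]
    simp only [List.mem_singleton, exists_eq_left, forall_eq, ST.val_add, ST.val_neg]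
    constructor <;> intro h <;> linarith

theorem DN1.lt {k N : ℕ} (s t : Tm (N + 1)) (hs : s.LinO (k + 1)) (ht : t.LinO (k + 1)) :
    DN1 k N (fun M x v => s.val (Fin.cons x v : Fin (N + 1) → M.R) < t.val (Fin.cons x v : Fin (N + 1) → M.R)) := by
  obtain ⟨L, h1, h2⟩ := DN1.le (k := k) (.add s .one) t ⟨hs, trivial⟩ ht
  refine ⟨L, h1, fun M x v => ?_⟩
  rw [← h2]
  simp only [Tm.val]
  constructor
  · intro h
    have := M.hd (t.val (Fin.cons x v : Fin (N + 1) → M.R) - s.val (Fin.cons x v : Fin (N + 1) → M.R)) (by linarith)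
    linarith
  · intro h
    linarith

theorem DN1.congr {k N : ℕ} {P Q : ∀ M : Md, M.R → (Fin N → M.R) → Prop} (h : DN1 k N P)
    (hPQ : ∀ M x v, Q M x v ↔ P M x v) : DN1 k N Q := by
  obtain ⟨L, h1, h2⟩ := h
  exact ⟨L, h1, fun M x v => (hPQ M x v).trans (h2 M x v)⟩

theorem dn1 {k n : ℕ} {m : ℕ} (β : Fml m) : ∀ (e : m = n + 1), (e ▸ β).LinO (k + 1) →
    DN1 k n (fun M x v => (e ▸ β : Fml (n + 1)).holds (Fin.cons x v : Fin (n + 1) → M.R)) ∧
    DN1 k n (fun M x v => ¬ (e ▸ β : Fml (n + 1)).holds (Fin.cons x v : Fin (n + 1) → M.R)) := by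
  induction β with
  | lt s t =>
    intro e h
    subst e
    exact ⟨DN1.lt s t h.1 h.2, (DN1.le t s h.2 h.1).congr (fun M x v => by simp only [Fml.holds, not_lt])⟩
  | eq s t =>
    intro e h
    subst e
    refine ⟨((DN1.le s t h.1 h.2).and (DN1.le t s h.2 h.1)).congr (fun M x v => by
      simp only [Fml.holds]; exact le_antisymm_iff),
      ((DN1.lt s t h.1 h.2).or (DN1.lt t s h.2 h.1)).congr (fun M x v => by
      simp only [Fml.holds]; exact ne_iff_lt_or_gt)⟩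
  | neg φ ih =>
    intro e h
    subst e
    have := ih rfl h
    exact ⟨this.2, this.1.congr (fun M x v => by simp only [Fml.holds, not_not])⟩
  | and φ ψ ih1 ih2 =>
    intro e h
    subst e
    have h1 := ih1 rfl h.1
    have h2 := ih2 rfl h.2
    exact ⟨(h1.1.and h2.1), (h1.2.or h2.2).congr (fun M x v => by simp only [Fml.holds]; exact not_and_or)⟩
  | or φ ψ ih1 ih2 =>
    intro e h
    subst e
    have h1 := ih1 rfl h.1
    have h2 := ih2 rfl h.2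
    exact ⟨(h1.1.or h2.1), (h1.2.and h2.2).congr (fun M x v => by simp only [Fml.holds]; exact not_or)⟩
  | ex t φ ih => intro e h; subst e; exact h.elim
  | all t φ ih => intro e h; subst e; exact h.elim

/-- one inner quantifier: failure of a system of constraints on `[0, s]` -/
theorem bx1 {R : Type} [CommRing R] [LinearOrder R] [IsStrictOrderedRing R] (hd : ∀ a : R, 0 < a → 1 ≤ a)
    (hv : ∀ a b : R, 0 < b → ∃ q, b * q ≤ a ∧ a < b * (q + 1)) (s : R) (hs : 0 ≤ s) (S : List (R × R)) :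
    (¬ ∃ u : R, 0 ≤ u ∧ u ≤ s ∧ ∀ c ∈ S, c.1 + c.2 * u ≤ 0) ↔
      (∃ c ∈ S, c.2 = 0 ∧ 0 < c.1) ∨ ∃ c ∈ ((0, -1) :: (-s, 1) :: S : List (R × R)),
        ∃ d ∈ ((0, -1) :: (-s, 1) :: S : List (R × R)), ∃ w : R, 0 ≤ w ∧ w ≤ s + 1 ∧
        c.2 < 0 ∧ -c.2 * (w - 1) < c.1 ∧ 0 < d.2 ∧ 0 < d.1 + d.2 * w := by
  have e1 : (¬ ∃ u : R, 0 ≤ u ∧ u ≤ s ∧ ∀ c ∈ S, c.1 + c.2 * u ≤ 0) ↔
      ∀ u : R, ∃ c ∈ ((0, -1) :: (-s, 1) :: S : List (R × R)), 0 < c.1 + c.2 * u := by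
    constructor
    · intro h u
      by_contra hcon
      push Not at hcon
      have h1 := hcon (0, -1) (by simp)
      have h2 := hcon (-s, 1) (by simp)
      refine h ⟨u, ?_, ?_, fun c hc => hcon c (by simp [hc])⟩
      · simp only at h1; linarith
      · simp only at h2; linarith
    · rintro h ⟨u, h0, h1, h2⟩
      obtain ⟨c, hc, hcu⟩ := h u
      simp only [List.mem_cons] at hc
      rcases hc with rfl | rfl | hc
      · simp only at hcu; linarith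
      · simp only at hcu; linarith
      · exact absurd (h2 c hc) (not_le.2 hcu)
  rw [e1]
  constructor
  · intro h
    rcases (one_dim hd hv _).1 h with ⟨c, hc, h1, h2⟩ | ⟨c, hc, d, hdL, w, -, h1, h2, h3, h4⟩
    · simp only [List.mem_cons] at hc
      rcases hc with rfl | rfl | hc
      · simp only at h2; exact absurd h2 (lt_irrefl _)
      · simp only at h1; exact absurd h1 one_ne_zero
      · exact Or.inl ⟨c, hc, h1, h2⟩
    · right
      rcases lt_or_ge (w + 1) 0 with hw | hw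
      · refine ⟨(0, -1), by simp, d, hdL, 0, le_rfl, by linarith, by simp, by simp, h3, ?_⟩
        have := mul_neg_of_pos_of_neg h3 hw
        rw [mul_zero, add_zero]
        linarith
      · rcases lt_or_ge (s + 1) (w + 1) with hw2 | hw2
        · refine ⟨c, hc, (-s, 1), by simp, s + 1, by linarith, le_rfl, h1, ?_, by simp, by simp⟩
          have := mul_lt_mul_of_pos_left (show s < w by linarith) (neg_pos.2 h1)
          rw [add_sub_cancel_right]
          linarith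
        · exact ⟨c, hc, d, hdL, w + 1, hw, hw2, h1, by rw [add_sub_cancel_right]; exact h2, h3, h4⟩
  · rintro (⟨c, hc, h1, h2⟩ | ⟨c, hc, d, hdL, w, hw0, hw1, h1, h2, h3, h4⟩) u
    · exact ⟨c, by simp [hc], by rw [h1, zero_mul, add_zero]; exact h2⟩
    · rcases le_or_gt u (w - 1) with hu | hu
      · refine ⟨c, hc, ?_⟩
        have h5 := mul_le_mul_of_nonneg_left hu (neg_nonneg.2 h1.le)
        linarith
      · refine ⟨d, hdL, ?_⟩
        have h6 : 1 ≤ u - (w - 1) := hd _ (by linarith)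
        have h7 := mul_le_mul_of_nonneg_left (show w ≤ u by linarith) h3.le
        linarith

theorem exm {α β : Type} (f : α → β) (L : List α) (Q : β → Prop) : (∃ c ∈ L.map f, Q c) ↔ ∃ c ∈ L, Q (f c) := by
  constructor
  · rintro ⟨c, hc, h⟩
    obtain ⟨a, ha, rfl⟩ := List.mem_map.1 hc
    exact ⟨a, ha, h⟩
  · rintro ⟨a, ha, h⟩
    exact ⟨f a, List.mem_map_of_mem ha, h⟩

/-- the constraints of `bx1` as terms -/
def ext {N : ℕ} (s : Tm N) (S : List (ST N × ST N)) : List (ST N × ST N) :=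
  (.zero, ST.one.neg) :: ((ST.of s).neg, .one) :: S

theorem XE.notEx {k N : ℕ} {t : Tm N} (ht : t.LinO k) {P : ∀ M : Md, M.R → (Fin N → M.R) → Prop}
    (h : DN1 k N P) : XE k N (fun M v => ¬ ∃ a : M.R, 0 ≤ a ∧ a ≤ t.val v ∧ P M a v) := by
  obtain ⟨LL, h1, h2⟩ := h
  have hext : ∀ S ∈ LL, ∀ c ∈ ext t S, SL k c.1 ∧ SN k c.2 := by
    intro S hS c hc
    unfold ext at hc
    simp only [List.mem_cons] at hc
    rcases hc with rfl | rfl | hc
    · exact ⟨⟨trivial, trivial⟩, ⟨trivial, trivial⟩⟩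
    · exact ⟨⟨trivial, ht⟩, ⟨trivial, trivial⟩⟩
    · exact h1 S hS c hc
  have key : XE k N (fun M v => ∀ S ∈ LL, ((∃ c ∈ S, c.2.val v = (ST.zero : ST N).val v ∧
      (ST.zero : ST N).val v < c.1.val v) ∨ ∃ c ∈ ext t S, ∃ d ∈ ext t S, ∃ w : M.R, 0 ≤ w ∧
        w ≤ (Tm.add t .one).val v ∧
        ((c.2.lift1.val (Fin.cons w v : Fin (N + 1) → M.R) < (ST.zero : ST (N + 1)).val (Fin.cons w v : Fin (N + 1) → M.R) ∧
          (c.2.lift1.neg.mul (ST.add (ST.of (.var 0)) ST.one.neg)).val (Fin.cons w v : Fin (N + 1) → M.R) <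
            c.1.lift1.val (Fin.cons w v : Fin (N + 1) → M.R)) ∧
        ((ST.zero : ST (N + 1)).val (Fin.cons w v : Fin (N + 1) → M.R) < d.2.lift1.val (Fin.cons w v : Fin (N + 1) → M.R) ∧
          (ST.zero : ST (N + 1)).val (Fin.cons w v : Fin (N + 1) → M.R) <
            (d.1.lift1.add (d.2.lift1.mul (ST.of (.var 0)))).val (Fin.cons w v : Fin (N + 1) → M.R))))) := by
    refine XE.ball LL (fun S hS => XE.or (XE.bex S fun c hc => ?_) (XE.bex (ext t S) fun c hc =>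
      XE.bex (ext t S) fun d hd => ?_))
    · exact XE.and (XE.eq (h1 S hS c hc).2.sl ⟨trivial, trivial⟩) (XE.lt ⟨trivial, trivial⟩ (h1 S hS c hc).1)
    · have hc' := hext S hS c hc
      have hd' := hext S hS d hd
      refine XE.ex (t := .add t .one) (by exact ⟨ht, trivial⟩)
        (P := fun M u => (c.2.lift1.val u < (ST.zero : ST (N + 1)).val u ∧
          (c.2.lift1.neg.mul (ST.add (ST.of (.var 0)) ST.one.neg)).val u < c.1.lift1.val u) ∧
        ((ST.zero : ST (N + 1)).val u < d.2.lift1.val u ∧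
          (ST.zero : ST (N + 1)).val u < (d.1.lift1.add (d.2.lift1.mul (ST.of (.var 0)))).val u)) ?_
      refine XE.and (XE.and (XE.lt hc'.2.lift.sl ⟨trivial, trivial⟩) (XE.lt ?_ hc'.1.lift))
        (XE.and (XE.lt ⟨trivial, trivial⟩ hd'.2.lift.sl) (XE.lt ⟨trivial, trivial⟩ ?_))
      · exact SL.mul hc'.2.lift.neg (SL.add ⟨trivial, trivial⟩ ⟨trivial, trivial⟩)
      · exact SL.add hd'.1.lift (SL.mul hd'.2.lift ⟨trivial, trivial⟩)
  refine key.congr ?_
  intro M v hv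
  have hs : 0 ≤ t.val v := Tm.val_nonneg t v hv
  have hm : ∀ S : List (ST N × ST N), ((0, -1) :: (-(t.val v), 1) :: S.map fun c => (c.1.val v, c.2.val v) :
      List (M.R × M.R)) = (ext t S).map fun c => (c.1.val v, c.2.val v) := by
    intro S
    simp [ext]
  have hS : ∀ S : List (ST N × ST N),
      ((¬ ∃ u : M.R, 0 ≤ u ∧ u ≤ t.val v ∧ ∀ c ∈ S, c.1.val v + c.2.val v * u ≤ 0) ↔
      (∃ c ∈ S, c.2.val v = 0 ∧ 0 < c.1.val v) ∨ ∃ c ∈ ext t S, ∃ d ∈ ext t S, ∃ w : M.R, 0 ≤ w ∧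
        w ≤ t.val v + 1 ∧ c.2.val v < 0 ∧ -c.2.val v * (w - 1) < c.1.val v ∧ 0 < d.2.val v ∧
          0 < d.1.val v + d.2.val v * w) := by
    intro S
    have := bx1 M.hd M.hv (t.val v) hs (S.map fun c => (c.1.val v, c.2.val v))
    rw [hm] at this
    simpa only [List.forall_mem_map, exm] using this
  have e1 : (¬ ∃ a : M.R, 0 ≤ a ∧ a ≤ t.val v ∧ P M a v) ↔
      ∀ S ∈ LL, ¬ ∃ u : M.R, 0 ≤ u ∧ u ≤ t.val v ∧ ∀ c ∈ S, c.1.val v + c.2.val v * u ≤ 0 := by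
    constructor
    · rintro h S hS ⟨u, h3, h4, h5⟩
      exact h ⟨u, h3, h4, (h2 M u v).2 ⟨S, hS, h5⟩⟩
    · rintro h ⟨u, h3, h4, h5⟩
      obtain ⟨S, hS, h6⟩ := (h2 M u v).1 h5
      exact h S hS ⟨u, h3, h4, h6⟩
  rw [e1]
  refine forall_congr' fun S => forall_congr' fun _ => ?_
  rw [hS S]
  simp only [ST.val_zero, ST.val_lift1, ST.val_mul, ST.val_neg, ST.val_add, ST.val_of, ST.val_one, Tm.val,
    Fin.cons_zero, and_assoc, sub_eq_add_neg]

/-! ### the classes -/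

theorem qf_dn {k N : ℕ} {β : Fml (N + 1)} (h : β.LinO (k + 1)) :
    DN1 k N (fun M x v => β.holds (Fin.cons x v : Fin (N + 1) → M.R)) ∧
    DN1 k N (fun M x v => ¬ β.holds (Fin.cons x v : Fin (N + 1) → M.R)) := dn1 β rfl h

theorem _root_.Pool.Agent.H20.E1.Mat.xe {k N : ℕ} {φ : Fml N} (h : Mat k φ) :
    XE k N (fun _ v => φ.holds v) ∧ XE k N (fun _ v => ¬ φ.holds v) := by
  induction h with
  | @qf α h => exact ⟨XE.qf h, (XE.qf (α := .neg α) h).congr (fun M v _ => by simp only [Fml.holds])⟩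
  | @ex t β ht hβ =>
    exact ⟨XE.ex ht (XE.qf hβ), (XE.notEx ht (qf_dn hβ).1)⟩
  | @all t β ht hβ =>
    refine ⟨(XE.notEx ht (qf_dn hβ).2).congr (fun M v hv => ?_),
      (XE.ex (P := fun _ v => ¬ β.holds v) ht (XE.qf (α := .neg β) hβ)).congr (fun M v hv => ?_)⟩
    · simp only [Fml.holds]
      push Not
      exact Iff.rfl
    · simp only [Fml.holds]
      push Not
      exact Iff.rfl
  | neg _ ih => exact ⟨ih.2, ih.1.congr (fun M v _ => by simp only [Fml.holds, not_not])⟩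
  | and _ _ ih1 ih2 =>
    exact ⟨ih1.1.and ih2.1, (ih1.2.or ih2.2).congr (fun M v _ => by simp only [Fml.holds]; exact not_and_or)⟩
  | or _ _ ih1 ih2 =>
    exact ⟨ih1.1.or ih2.1, (ih1.2.and ih2.2).congr (fun M v _ => by simp only [Fml.holds]; exact not_or)⟩

theorem _root_.Pool.Agent.H20.E1.ExMat.xe {k N : ℕ} {φ : Fml N} (h : ExMat k φ) :
    XE k N (fun _ v => φ.holds v) := by
  induction h with
  | mat h => exact h.xe.1
  | ex ht _ ih => exact XE.ex ht ih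

theorem _root_.Pool.Agent.H20.E1.AllMat.xe {k N : ℕ} {φ : Fml N} (h : AllMat k φ) :
    XE k N (fun _ v => ¬ φ.holds v) := by
  induction h with
  | mat h => exact h.xe.2
  | @all k N t φ ht _ ih =>
    refine (XE.ex (P := fun _ v => ¬ φ.holds v) ht ih).congr (fun M v _ => ?_)
    simp only [Fml.holds]
    push Not
    exact Iff.rfl

theorem XE.d {n : ℕ} {P : ∀ M : Md, (Fin n → M.R) → Prop} (h : XE 0 n P) :
    D n P ∧ D n (fun M v => ¬ P M v) := by
  obtain ⟨ψ, h1, h2⟩ := h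
  have := D.boolBlk (BoolBlk.ex h1)
  exact ⟨this.1.congr (fun M v hv => h2 M v hv), this.2.congr (fun M v hv => not_congr (h2 M v hv))⟩

theorem D.boolAlt {n : ℕ} {φ : Fml n} (h : BoolAlt φ) :
    D n (fun _ v => φ.holds v) ∧ D n (fun _ v => ¬ φ.holds v) := by
  induction h with
  | oneA h => exact ⟨D.tame (.one h), D.tame (.one (.neg h))⟩
  | all h =>
    exact ⟨h.xe.d.2.congr (fun M v _ => not_not.symm), h.xe.d.1⟩
  | ex h => exact h.xe.d
  | neg _ ih =>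
    refine ⟨ih.2, ih.1.congr ?_⟩
    intro M v _
    simp only [Fml.holds, not_not]
  | and _ _ ih1 ih2 =>
    refine ⟨ih1.1.and ih2.1, (ih1.2.or ih2.2).congr ?_⟩
    intro M v _
    simp only [Fml.holds]
    exact not_and_or
  | or _ _ ih1 ih2 =>
    refine ⟨ih1.1.or ih2.1, (ih1.2.and ih2.2).congr ?_⟩
    intro M v _
    simp only [Fml.holds]
    exact not_or

theorem D.alts {n : ℕ} {φ : Fml n} (h : Alts φ) : D n (fun _ v => φ.holds v) := by
  induction h with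
  | base h => exact (D.boolAlt h).1
  | and _ _ ih1 ih2 => exact ih1.and ih2
  | or _ _ ih1 ih2 => exact ih1.or ih2
  | ex t _ ih => exact D.ex t ih

end Pool.Agent.H20.FN
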