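import Pool.Agent.H20.FN.DS
import Pool.Agent.H20.FN.Defs

set_option autoImplicit false

/-!
# Bounded quantification over the generators of a polytope
-/

namespace Pool.Agent.H20.FN

open Pool.Agent.H20.E1 Pool.Agent.H20.FL

/-- vectors of polynomial functions -/
abbrev FV (ι : Type) (q : ℕ) : Type 1 :=
  {f : Fin q → (∀ M : Md, (ι → M.R) → M.R) // ∀ i, PF ι (f i)}

def ev {ι : Type} {q : ℕ} (f : FV ι q) (M : Md) (z : ι → M.R) : Fin q → M.R := fun i => f.1 i M z

theorem ball_cut_iff {R : Type} [CommRing R] [LinearOrder R] [IsStrictOrderedRing R] {q : ℕ}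
    (f : Fin q → R) (C : List (Fin q → R)) (φ : (Fin q → R) → Prop) :
    (∀ v ∈ cut f C, φ v) ↔ (∀ v ∈ C, ap f v < 0 ∨ φ v) ∧
      ∀ v ∈ C, ∀ w ∈ C, ap f v ≤ 0 ∨ (0 ≤ ap f w ∨ φ (ap f v • w - ap f w • v)) := by
  unfold cut
  rw [List.forall_mem_append]
  constructor
  · rintro ⟨h1, h2⟩
    refine ⟨fun v hv => ?_, fun v hv w hw => ?_⟩
    · rcases lt_or_ge (ap f v) 0 with h | h
      · exact Or.inl h
      · exact Or.inr (h1 v (List.mem_filter.2 ⟨hv, by simpa using h⟩))
    · rcases le_or_gt (ap f v) 0 with h | h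
      · exact Or.inl h
      · rcases le_or_gt 0 (ap f w) with h' | h'
        · exact Or.inr (Or.inl h')
        · refine Or.inr (Or.inr (h2 _ (List.mem_map.2 ⟨(v, w), List.mem_filter.2 ⟨?_, ?_⟩, rfl⟩)))
          · exact List.mem_product.2 ⟨hv, hw⟩
          · simpa using ⟨h, h'⟩
  · rintro ⟨h1, h2⟩
    refine ⟨fun v hv => ?_, fun v hv => ?_⟩
    · obtain ⟨hv1, hv2⟩ := List.mem_filter.1 hv
      rcases h1 v hv1 with h | h
      · exact absurd h (not_lt.2 (by simpa using hv2))
      · exact h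
    · obtain ⟨⟨a, b⟩, hp, rfl⟩ := List.mem_map.1 hv
      obtain ⟨hp1, hp2⟩ := List.mem_filter.1 hp
      obtain ⟨ha, hb⟩ := List.mem_product.1 hp1
      have hp2' : 0 < ap f a ∧ ap f b < 0 := by simpa using hp2
      rcases h2 a ha b hb with h | h | h
      · exact absurd hp2'.1 (not_lt.2 h)
      · exact absurd hp2'.2 (not_lt.2 h)
      · exact h

theorem DS.ball1 {ι : Type} {α : Type 1} (L : List α) {P : α → ∀ M : Md, (ι → M.R) → Prop}
    (h : ∀ a ∈ L, DS ι (P a)) : DS ι (fun M z => ∀ a ∈ L, P a M z) := by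
  induction L with
  | nil => exact DS.true.congr (fun M z => by simp)
  | cons a L ih =>
    refine ((h a (List.mem_cons_self ..)).and (ih (fun i hi => h i (List.mem_cons_of_mem _ hi)))).congr ?_
    intro M v
    simp

theorem PF.ap {ι : Type} {q : ℕ} {f g : Fin q → (∀ M : Md, (ι → M.R) → M.R)}
    (hf : ∀ i, PF ι (f i)) (hg : ∀ i, PF ι (g i)) :
    PF ι (fun M z => ap (fun i => f i M z) (fun i => g i M z)) := by
  unfold FN.ap
  exact PF.sum (fun i => (hf i).mul (hg i))

theorem ball_cuts {ι : Type} {q : ℕ} (G fs : List (FV ι q)) : ∀ (κ : Type) (r : ι → κ)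
    (φ : ∀ M : Md, (Fin q ⊕ κ → M.R) → Prop), DS (Fin q ⊕ κ) φ →
    DS κ (fun M z => ∀ v ∈ cuts (fs.map (fun f => ev f M (fun i => z (r i))))
      (G.map (fun g => ev g M (fun i => z (r i)))), φ M (Sum.elim v z)) := by
  induction fs with
  | nil =>
    intro κ r φ hφ
    refine (DS.ball1 G (P := fun g M z => φ M (Sum.elim (ev g M (fun i => z (r i))) z)) (fun g _ => ?_)).congr ?_
    · refine (hφ.comp (g := fun j M z => Sum.elim (ev g M (fun i => z (r i))) z j) (fun j => ?_)).congr
        (fun M z => Iff.rfl)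
      rcases j with j | j
      · exact (g.2 j).comp (fun i => PF.proj (r i))
      · exact PF.proj j
    · intro M z
      simp only [cuts, List.map_nil, List.foldr_nil, List.mem_map, forall_exists_index, and_imp,
        forall_apply_eq_imp_iff₂]
  | cons f fs ih =>
    intro κ r φ hφ
    have e : ∀ (M : Md) (z : κ → M.R), cuts ((f :: fs).map (fun f => ev f M (fun i => z (r i))))
        (G.map (fun g => ev g M (fun i => z (r i)))) =
        cut (ev f M (fun i => z (r i))) (cuts (fs.map (fun f => ev f M (fun i => z (r i))))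
          (G.map (fun g => ev g M (fun i => z (r i))))) := fun M z => rfl
    -- first part
    have h1 := ih κ r (fun M y => ap (ev f M (fun i => y (Sum.inr (r i)))) (fun i => y (Sum.inl i)) < 0 ∨ φ M y)
      ((DS.lt (PF.ap (f := fun j M y => f.1 j M (fun i => y (Sum.inr (r i)))) (g := fun i _ y => y (Sum.inl i))
        (fun j => (f.2 j).comp (fun i => PF.proj _)) (fun i => PF.proj _)) PF.zero).or hφ)
    -- second part
    let F : ∀ M : Md, (Fin q ⊕ (Fin q ⊕ κ) → M.R) → (Fin q → M.R) :=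
      fun M y => ev f M (fun i => y (Sum.inr (Sum.inr (r i))))
    have hF : ∀ j, PF (Fin q ⊕ (Fin q ⊕ κ)) (fun M y => F M y j) := fun j =>
      (f.2 j).comp (fun i => PF.proj _)
    have hv : PF (Fin q ⊕ (Fin q ⊕ κ)) (fun M y => ap (F M y) (fun i => y (Sum.inr (Sum.inl i)))) :=
      PF.ap (f := fun j M y => F M y j) (g := fun i _ y => y (Sum.inr (Sum.inl i))) hF (fun i => PF.proj _)
    have hw : PF (Fin q ⊕ (Fin q ⊕ κ)) (fun M y => ap (F M y) (fun i => y (Sum.inl i))) :=
      PF.ap (f := fun j M y => F M y j) (g := fun i _ y => y (Sum.inl i)) hF (fun i => PF.proj _)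
    have hφ2 : DS (Fin q ⊕ (Fin q ⊕ κ)) (fun M y =>
        ap (F M y) (fun i => y (Sum.inr (Sum.inl i))) ≤ 0 ∨
        (0 ≤ ap (F M y) (fun i => y (Sum.inl i)) ∨
        φ M (Sum.elim (fun j => ap (F M y) (fun i => y (Sum.inr (Sum.inl i))) * y (Sum.inl j) -
          ap (F M y) (fun i => y (Sum.inl i)) * y (Sum.inr (Sum.inl j)))
          (fun k => y (Sum.inr (Sum.inr k)))))) := by
      refine (DS.le hv PF.zero).or ((DS.le PF.zero hw).or ?_)
      refine (hφ.comp (g := fun j M y => Sum.elim (fun j => ap (F M y) (fun i => y (Sum.inr (Sum.inl i))) * y (Sum.inl j) -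
          ap (F M y) (fun i => y (Sum.inl i)) * y (Sum.inr (Sum.inl j)))
          (fun k => y (Sum.inr (Sum.inr k))) j) (fun j => ?_)).congr (fun M z => Iff.rfl)
      rcases j with j | j
      · exact (hv.mul (PF.proj _)).sub (hw.mul (PF.proj _))
      · exact PF.proj _
    have h2 := ih κ r _ (ih (Fin q ⊕ κ) (fun i => Sum.inr (r i)) _ hφ2)
    refine (h1.and h2).congr ?_
    intro M z
    rw [e, ball_cut_iff]
    exact Iff.rfl

end Pool.Agent.H20.FN
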