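import Pool.Agent.H20.FL.TrapE

set_option autoImplicit false

/-!
# Definability calculus with arbitrary index types
-/

namespace Pool.Agent.H20.FN

open Pool.Agent.H20.E1 Pool.Agent.H20.FL

/-- polynomial functions of signed arguments, given by signed terms -/
def PF (ι : Type) (f : ∀ M : Md, (ι → M.R) → M.R) : Prop :=
  ∀ (n : ℕ) (σ : ι → ST n), ∃ s : ST n, ∀ (M : Md) (v : Fin n → M.R),
    s.val v = f M (fun i => (σ i).val v)

/-- relations of signed arguments which are uniformly `E_1` in the models of `IE_1` -/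
def DS (ι : Type) (P : ∀ M : Md, (ι → M.R) → Prop) : Prop :=
  ∀ (n : ℕ) (σ : ι → ST n), D n (fun M v => P M (fun i => (σ i).val v))

variable {ι κ : Type}

theorem PF.proj (i : ι) : PF ι (fun _ z => z i) := fun _ σ => ⟨σ i, fun _ _ => rfl⟩

theorem PF.zero : PF ι (fun _ _ => 0) := fun _ _ => ⟨.zero, fun _ _ => by simp⟩

theorem PF.one : PF ι (fun _ _ => 1) := fun _ _ => ⟨.one, fun _ _ => by simp⟩

theorem PF.nat (k : ℕ) : PF ι (fun _ _ => (k : _)) := fun _ _ => ⟨.nat k, fun _ _ => by simp⟩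

theorem PF.add {f g : ∀ M : Md, (ι → M.R) → M.R} (hf : PF ι f) (hg : PF ι g) :
    PF ι (fun M z => f M z + g M z) := fun n σ => by
  obtain ⟨s, hs⟩ := hf n σ
  obtain ⟨t, ht⟩ := hg n σ
  exact ⟨s.add t, fun M v => by rw [ST.val_add, hs, ht]⟩

theorem PF.mul {f g : ∀ M : Md, (ι → M.R) → M.R} (hf : PF ι f) (hg : PF ι g) :
    PF ι (fun M z => f M z * g M z) := fun n σ => by
  obtain ⟨s, hs⟩ := hf n σ
  obtain ⟨t, ht⟩ := hg n σ
  exact ⟨s.mul t, fun M v => by rw [ST.val_mul, hs, ht]⟩

theorem PF.neg {f : ∀ M : Md, (ι → M.R) → M.R} (hf : PF ι f) :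
    PF ι (fun M z => - f M z) := fun n σ => by
  obtain ⟨s, hs⟩ := hf n σ
  exact ⟨s.neg, fun M v => by rw [ST.val_neg, hs]⟩

theorem PF.sub {f g : ∀ M : Md, (ι → M.R) → M.R} (hf : PF ι f) (hg : PF ι g) :
    PF ι (fun M z => f M z - g M z) := fun n σ => by
  obtain ⟨s, hs⟩ := hf n σ
  obtain ⟨t, ht⟩ := hg n σ
  exact ⟨s.sub t, fun M v => by rw [ST.val_sub, hs, ht]⟩

theorem PF.pow {f : ∀ M : Md, (ι → M.R) → M.R} (hf : PF ι f) (k : ℕ) :
    PF ι (fun M z => f M z ^ k) := by
  induction k with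
  | zero => simpa using PF.one
  | succ k ih => simpa only [pow_succ] using ih.mul hf

theorem PF.sum {k : ℕ} {f : Fin k → ∀ M : Md, (ι → M.R) → M.R} (hf : ∀ i, PF ι (f i)) :
    PF ι (fun M z => ∑ i, f i M z) := by
  induction k with
  | zero => simpa using PF.zero
  | succ k ih =>
    simp only [Fin.sum_univ_succ]
    exact (hf 0).add (ih (fun i => hf i.succ))

theorem PF.comp {f : ∀ M : Md, (κ → M.R) → M.R} (hf : PF κ f)
    {g : κ → ∀ M : Md, (ι → M.R) → M.R} (hg : ∀ j, PF ι (g j)) :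
    PF ι (fun M z => f M (fun j => g j M z)) := fun n σ => by
  choose s hs using fun j => hg j n σ
  obtain ⟨t, ht⟩ := hf n s
  exact ⟨t, fun M v => by rw [ht]; simp only [hs]⟩

theorem DS.congr {P Q : ∀ M : Md, (ι → M.R) → Prop} (h : DS ι P) (hPQ : ∀ M z, Q M z ↔ P M z) :
    DS ι Q := fun n σ => (h n σ).congr (fun M v _ => hPQ M _)

theorem DS.comp {P : ∀ M : Md, (κ → M.R) → Prop} (h : DS κ P)
    {g : κ → ∀ M : Md, (ι → M.R) → M.R} (hg : ∀ j, PF ι (g j)) :
    DS ι (fun M z => P M (fun j => g j M z)) := fun n σ => by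
  choose s hs using fun j => hg j n σ
  exact (h n s).congr (fun M v _ => by simp only [hs])

theorem DS.le {f g : ∀ M : Md, (ι → M.R) → M.R} (hf : PF ι f) (hg : PF ι g) :
    DS ι (fun M z => f M z ≤ g M z) := fun n σ => by
  obtain ⟨s, hs⟩ := hf n σ
  obtain ⟨t, ht⟩ := hg n σ
  exact (D.le s t).congr (fun M v _ => by rw [hs, ht])

theorem DS.lt {f g : ∀ M : Md, (ι → M.R) → M.R} (hf : PF ι f) (hg : PF ι g) :
    DS ι (fun M z => f M z < g M z) := fun n σ => by
  obtain ⟨s, hs⟩ := hf n σ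
  obtain ⟨t, ht⟩ := hg n σ
  exact (D.lt s t).congr (fun M v _ => by rw [hs, ht])

theorem DS.eq {f g : ∀ M : Md, (ι → M.R) → M.R} (hf : PF ι f) (hg : PF ι g) :
    DS ι (fun M z => f M z = g M z) := fun n σ => by
  obtain ⟨s, hs⟩ := hf n σ
  obtain ⟨t, ht⟩ := hg n σ
  exact (D.eq s t).congr (fun M v _ => by rw [hs, ht])

theorem DS.and {P Q : ∀ M : Md, (ι → M.R) → Prop} (h : DS ι P) (h' : DS ι Q) :
    DS ι (fun M z => P M z ∧ Q M z) := fun n σ => (h n σ).and (h' n σ)

theorem DS.or {P Q : ∀ M : Md, (ι → M.R) → Prop} (h : DS ι P) (h' : DS ι Q) :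
    DS ι (fun M z => P M z ∨ Q M z) := fun n σ => (h n σ).or (h' n σ)

theorem DS.true : DS ι (fun _ _ => True) := fun _ _ => D.true

theorem DS.false : DS ι (fun _ _ => False) := fun _ _ => D.false

theorem DS.ne {f g : ∀ M : Md, (ι → M.R) → M.R} (hf : PF ι f) (hg : PF ι g) :
    DS ι (fun M z => f M z ≠ g M z) :=
  ((DS.lt hf hg).or (DS.lt hg hf)).congr (fun M z => ne_iff_lt_or_gt)

theorem DS.all {α : Type} [Fintype α] {P : α → ∀ M : Md, (ι → M.R) → Prop}
    (h : ∀ a, DS ι (P a)) : DS ι (fun M z => ∀ a, P a M z) := fun n σ =>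
  (D.ball Finset.univ.toList (fun a _ => h a n σ)).congr (fun M v _ => by simp)

theorem DS.any {α : Type} [Fintype α] {P : α → ∀ M : Md, (ι → M.R) → Prop}
    (h : ∀ a, DS ι (P a)) : DS ι (fun M z => ∃ a, P a M z) := fun n σ =>
  (D.bex Finset.univ.toList (fun a _ => h a n σ)).congr (fun M v _ => by simp)

theorem DS.ball {α : Type} (L : List α) {P : α → ∀ M : Md, (ι → M.R) → Prop}
    (h : ∀ a ∈ L, DS ι (P a)) : DS ι (fun M z => ∀ a ∈ L, P a M z) := fun n σ =>
  D.ball L (fun a ha => h a ha n σ)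

/-- one bounded existential quantifier -/
theorem DS.ex {P : ∀ M : Md, (Option ι → M.R) → Prop} (h : DS (Option ι) P)
    {b : ∀ M : Md, (ι → M.R) → M.R} (hb : PF ι b) :
    DS ι (fun M z => ∃ w : M.R, |w| ≤ b M z ∧ P M (fun o => o.elim w z)) := fun n σ => by
  obtain ⟨s, hs⟩ := hb n σ
  refine (D.exs s (P := fun M w v => P M (fun o => o.elim w (fun i => (σ i).val v))) ?_).congr ?_
  · refine (h (n + 2) (fun o => o.elim (sv n) (fun i => (σ i).lift2))).congr ?_
    intro M v _
    have e : (fun o : Option ι => o.elim ((sv n).val v) (fun i => (σ i).val (fun i => v i.succ.succ))) =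
        (fun o : Option ι => (o.elim (sv n) (fun i => (σ i).lift2) : ST (n + 2)).val v) := by
      funext o
      cases o with
      | none => rfl
      | some i => exact (ST.val_lift2' _ _).symm
    rw [e]
  · intro M v _
    rw [hs]

/-- finitely many bounded existential quantifiers -/
theorem DS.exn (K : ℕ) : ∀ {ι : Type} {P : ∀ M : Md, (Fin K ⊕ ι → M.R) → Prop} (_ : DS (Fin K ⊕ ι) P)
    {b : ∀ M : Md, (ι → M.R) → M.R} (_ : PF ι b),
    DS ι (fun M z => ∃ w : Fin K → M.R, (∀ i, |w i| ≤ b M z) ∧ P M (Sum.elim w z)) := by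
  induction K with
  | zero =>
    intro ι P h b hb
    refine (h.comp (g := fun j M z => Sum.elim (fun i : Fin 0 => i.elim0) z j) (fun j => ?_)).congr ?_
    · rcases j with j | j
      · exact j.elim0
      · exact PF.proj j
    · intro M z
      constructor
      · rintro ⟨w, -, hw⟩
        have e : w = fun i : Fin 0 => i.elim0 := by funext i; exact i.elim0
        rw [e] at hw
        exact hw
      · intro hh
        exact ⟨fun i => i.elim0, fun i => i.elim0, hh⟩
  | succ K ih =>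
    intro ι P h b hb
    let P' : ∀ M : Md, (Fin K ⊕ Option ι → M.R) → Prop := fun M y =>
      P M (Sum.elim (Fin.cons (y (Sum.inr none)) (fun i => y (Sum.inl i)) : Fin (K + 1) → M.R)
        (fun i => y (Sum.inr (some i))))
    have hP' : DS (Fin K ⊕ Option ι) P' := by
      refine (h.comp (g := fun j M y => Sum.elim
        (Fin.cons (y (Sum.inr none)) (fun i => y (Sum.inl i)) : Fin (K + 1) → M.R)
        (fun i => y (Sum.inr (some i))) j) (fun j => ?_)).congr (fun M y => Iff.rfl)
      rcases j with j | j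
      · refine Fin.cases ?_ (fun j => ?_) j
        · exact PF.proj _
        · exact PF.proj _
      · exact PF.proj _
    have h1 := ih hP' (b := fun M z => b M (fun i => z (some i))) (hb.comp (fun j => PF.proj (some j)))
    refine (h1.ex hb).congr ?_
    intro M z
    constructor
    · rintro ⟨w, hw, hP⟩
      refine ⟨w 0, hw 0, fun i => w i.succ, fun i => hw i.succ, ?_⟩
      show P M (Sum.elim (Fin.cons (w 0) (fun i => w i.succ) : Fin (K + 1) → M.R) z)
      have e : (Fin.cons (w 0) (fun i => w i.succ) : Fin (K + 1) → M.R) = w := by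
        funext i
        refine Fin.cases rfl (fun i => rfl) i
      rw [e]
      exact hP
    · rintro ⟨w0, hw0, w', hw', hP⟩
      refine ⟨(Fin.cons w0 w' : Fin (K + 1) → M.R), fun i => ?_, hP⟩
      refine Fin.cases ?_ (fun i => ?_) i
      · exact hw0
      · exact hw' i

theorem DS.exf {α : Type} [Fintype α] {P : ∀ M : Md, (α ⊕ ι → M.R) → Prop} (h : DS (α ⊕ ι) P)
    {b : ∀ M : Md, (ι → M.R) → M.R} (hb : PF ι b) :
    DS ι (fun M z => ∃ w : α → M.R, (∀ i, |w i| ≤ b M z) ∧ P M (Sum.elim w z)) := by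
  classical
  let e := Fintype.equivFin α
  let P' : ∀ M : Md, (Fin (Fintype.card α) ⊕ ι → M.R) → Prop := fun M y =>
    P M (Sum.elim (fun a => y (Sum.inl (e a))) (fun i => y (Sum.inr i)))
  have hP' : DS (Fin (Fintype.card α) ⊕ ι) P' := by
    refine (h.comp (g := fun j M y => Sum.elim (fun a => y (Sum.inl (e a))) (fun i => y (Sum.inr i)) j)
      (fun j => ?_)).congr (fun M y => Iff.rfl)
    rcases j with j | j
    · exact PF.proj _
    · exact PF.proj _
  refine (DS.exn _ hP' hb).congr ?_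
  intro M z
  constructor
  · rintro ⟨w, hw, hP⟩
    refine ⟨fun i => w (e.symm i), fun i => hw _, ?_⟩
    show P M (Sum.elim (fun a => w (e.symm (e a))) (fun i => z i))
    simp only [Equiv.symm_apply_apply]
    exact hP
  · rintro ⟨w, hw, hP⟩
    exact ⟨fun a => w (e a), fun a => hw _, hP⟩

/-- least number principle with signed parameters -/
theorem DS.lnp [Fintype ι] {P : ∀ M : Md, (Option ι → M.R) → Prop} (h : DS (Option ι) P) (M : Md)
    (z : ι → M.R) (W0 : M.R) (h0 : 0 ≤ W0) (hP : P M (fun o => o.elim W0 z)) :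
    ∃ W : M.R, 0 ≤ W ∧ W ≤ W0 ∧ P M (fun o => o.elim W z) ∧
      ∀ W' : M.R, 0 ≤ W' → W' < W → ¬ P M (fun o => o.elim W' z) := by
  classical
  let K := Fintype.card ι
  let e : ι ≃ Fin K := Fintype.equivFin ι
  let v : Fin (K + K) → M.R := Fin.append (fun i => max (z (e.symm i)) 0) (fun i => max (-z (e.symm i)) 0)
  have hv : ∀ i, 0 ≤ v i := by
    intro i
    refine Fin.addCases (fun i => ?_) (fun i => ?_) i
    · simp only [v, Fin.append_left]; exact le_max_right _ _
    · simp only [v, Fin.append_right]; exact le_max_right _ _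
  let σ : Option ι → ST (K + K + 1) := fun o => o.elim (ST.of (.var 0))
    (fun i => (.var (Fin.castAdd K (e i)).succ, .var (Fin.natAdd K (e i)).succ))
  have hσ : ∀ W : M.R, (fun o => (σ o).val (Fin.cons W v : Fin (K + K + 1) → M.R)) =
      (fun o : Option ι => o.elim W z) := by
    intro W
    funext o
    cases o with
    | none =>
      show (ST.of (.var 0) : ST (K + K + 1)).val (Fin.cons W v : Fin (K + K + 1) → M.R) = W
      rw [ST.val_of]
      rfl
    | some i =>
      show v (Fin.castAdd K (e i)) - v (Fin.natAdd K (e i)) = z i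
      simp only [v, Fin.append_left, Fin.append_right, Equiv.symm_apply_apply]
      rcases le_total (z i) 0 with h1 | h1
      · rw [max_eq_right h1, max_eq_left (by linarith)]; ring
      · rw [max_eq_left h1, max_eq_right (by linarith)]; ring
  obtain ⟨W, h1, h2, h3, h4⟩ := (h (K + K + 1) σ).lnp M v hv W0 h0 (by rw [hσ]; exact hP)
  refine ⟨W, h1, h2, ?_, fun W' h5 h6 h7 => h4 W' h5 h6 ?_⟩
  · rw [hσ] at h3; exact h3
  · rw [hσ]; exact h7

end Pool.Agent.H20.FN
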