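import Pool.Agent.H20.FN.Defs

set_option autoImplicit false

/-!
# Minimal strips
-/

namespace Pool.Agent.H20.FN

variable {R F : Type} [CommRing R] [LinearOrder R] [IsStrictOrderedRing R]
  [Field F] [LinearOrder F] [IsStrictOrderedRing F]

lemma strip_mono {ι : R →+* F} (hι : StrictMono ι) {k : ℕ} {V : List (Fin k → F)} {u : Fin k → R}
    {c W W' : R} (h : StripF ι V u c W) (hW : W ≤ W') : StripF ι V u c W' := by
  intro v hv
  obtain ⟨h1, h2⟩ := h v hv
  exact ⟨h1, h2.trans (hι.monotone (by linarith))⟩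

lemma strip_nonneg {ι : R →+* F} (hι : StrictMono ι) {k : ℕ} {V : List (Fin k → F)}
    {u : Fin k → R} {c W : R} (hV : V ≠ []) (h : StripF ι V u c W) : 0 ≤ W := by
  obtain ⟨v, hv⟩ := List.exists_mem_of_ne_nil V hV
  obtain ⟨h1, h2⟩ := h v hv
  have h3 : c ≤ c + W := hι.le_iff_le.1 (h1.trans h2)
  linarith

lemma tight {ι : R →+* F} (hι : StrictMono ι) (hd : ∀ a : R, 0 < a → 1 ≤ a)
    (hfl : ∀ x : F, ∃ q : R, ι q ≤ x ∧ x < ι q + 1) {k : ℕ} {V : List (Fin k → F)}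
    (hV : V ≠ []) (u : Fin k → R) :
    ∃ c W : R, StripF ι V u c W ∧ (∃ i ∈ V, lin ι u i < ι c + 1) ∧
      (∃ j ∈ V, ι (c + W) - 1 < lin ι u j) ∧ ∀ c' W', StripF ι V u c' W' → W ≤ W' := by
  classical
  obtain ⟨v, hv⟩ := List.exists_mem_of_ne_nil V hV
  have hne : V.toFinset.Nonempty := ⟨v, List.mem_toFinset.2 hv⟩
  obtain ⟨i, hi, hmin⟩ := V.toFinset.exists_min_image (lin ι u) hne
  obtain ⟨j, hj, hmax⟩ := V.toFinset.exists_max_image (lin ι u) hne
  rw [List.mem_toFinset] at hi hj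
  obtain ⟨c, hc1, hc2⟩ := hfl (lin ι u i)
  obtain ⟨q, hq1, hq2⟩ := hfl (-lin ι u j)
  have hcW : c + (-q - c) = -q := by ring
  refine ⟨c, -q - c, ?_, ⟨i, hi, hc2⟩, ⟨j, hj, ?_⟩, ?_⟩
  · intro x hx
    have h1 := hmin x (List.mem_toFinset.2 hx)
    have h2 := hmax x (List.mem_toFinset.2 hx)
    rw [hcW, map_neg]
    constructor <;> linarith
  · rw [hcW, map_neg]
    linarith
  · intro c' W' h
    obtain ⟨h1, -⟩ := h i hi
    obtain ⟨-, h2⟩ := h j hj
    have h3 : c' < c + 1 := by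
      apply hι.lt_iff_lt.1
      rw [map_add, map_one]
      linarith
    have h4 : -q < c' + W' + 1 := by
      apply hι.lt_iff_lt.1
      rw [map_neg, map_add, map_one]
      linarith
    have h5 := hd (c + 1 - c') (by linarith)
    have h6 := hd (c' + W' + 1 + q) (by linarith)
    linarith

lemma minStrip {ι : R →+* F} (hι : StrictMono ι) (hd : ∀ a : R, 0 < a → 1 ≤ a)
    (hfl : ∀ x : F, ∃ q : R, ι q ≤ x ∧ x < ι q + 1) (hL : LNPF ι) {k : ℕ}
    {V : List (Fin (k + 1) → F)} {K : R} (hV : V ≠ []) (hfat : FatF ι V K) :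
    0 ≤ K ∧ ∃ (u : Fin (k + 1) → R) (c W : R), u ≠ 0 ∧ StripF ι V u c W ∧ 0 ≤ W ∧
      ∀ (u' : Fin (k + 1) → R) (c' W' : R), u' ≠ 0 → StripF ι V u' c' W' → W ≤ W' := by
  have hK : 0 ≤ K := by
    have h := hfat 0 0 1 le_rfl (by
      intro v _
      have h0 : lin ι (0 : Fin (k + 1) → R) v = 0 := by simp [lin]
      rw [h0]
      simp) 0
    simpa using h
  refine ⟨hK, ?_⟩
  obtain ⟨c0, W0, hst, -, -, -⟩ := tight hι hd hfl hV (fun i => if i = 0 then 1 else 0)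
  have hW0 : 0 ≤ W0 := strip_nonneg hι hV hst
  have he : (fun i : Fin (k + 1) => if i = 0 then (1 : R) else 0) ≠ 0 := by
    intro h
    have := congrFun h 0
    simp at this
  obtain ⟨v0, hv0⟩ := List.exists_mem_of_ne_nil V hV
  obtain ⟨q, -, hq⟩ := hfl (ι (K * (W0 + 1)) * ∑ i, |v0 i|)
  set Q : R := q + 1 with hQ
  have hq' : ι (K * (W0 + 1)) * ∑ i, |v0 i| < ι Q := by
    rw [hQ, map_add, map_one]
    exact hq
  have hKW : 0 ≤ K * (W0 + 1) := by positivity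
  set B : R := K * (W0 + 1) + |Q| + (W0 + 1) with hB
  have key : ∀ (u : Fin (k + 1) → R) (c W' : R), u ≠ 0 → W' ≤ W0 → StripF ι V u c W' →
      EF ι V B W' := by
    intro u c W' hu hW' hs
    have hub : ∀ i, |u i| ≤ K * (W0 + 1) :=
      hfat u c (W0 + 1) (by linarith) (strip_mono hι hs (by linarith))
    have hlin : |lin ι u v0| < ι Q := by
      refine lt_of_le_of_lt ?_ hq'
      rw [lin, Finset.mul_sum]
      refine (Finset.abs_sum_le_sum_abs _ _).trans (Finset.sum_le_sum fun i _ => ?_)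
      rw [abs_mul]
      refine mul_le_mul_of_nonneg_right ?_ (abs_nonneg _)
      obtain ⟨h1, h2⟩ := abs_le.1 (hub i)
      rw [abs_le, ← map_neg]
      exact ⟨hι.monotone h1, hι.monotone h2⟩
    obtain ⟨hl1, hl2⟩ := abs_lt.1 hlin
    obtain ⟨hs1, hs2⟩ := hs v0 hv0
    have hcQ : c < Q := hι.lt_iff_lt.1 (lt_of_le_of_lt hs1 hl2)
    have hcQ' : -Q < c + W' := by
      apply hι.lt_iff_lt.1
      rw [map_neg]
      exact lt_of_lt_of_le hl1 hs2
    have hQa := le_abs_self Q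
    refine ⟨u, hu, fun i => (hub i).trans ?_, c, ?_, hs⟩
    · have := abs_nonneg Q
      linarith
    · rw [abs_le]
      constructor <;> linarith
  obtain ⟨W, hW, hWW, ⟨u, hu, -, c, -, hs⟩, hmin⟩ := hL (k + 1) V B W0 hW0 (key _ _ _ he le_rfl hst)
  refine ⟨u, c, W, hu, hs, hW, fun u' c' W' hu' hs' => ?_⟩
  by_contra hcon
  push Not at hcon
  exact hmin W' (strip_nonneg hι hV hs') hcon (key u' c' W' hu' (by linarith) hs')

end Pool.Agent.H20.FN
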