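import Pool.Agent.H20.FN.Fs

set_option autoImplicit false

/-!
# [H20 FN Fat] Slack makes the polytope fat

`Vs a b t s` generates the polytope with slack `s / 4`. The polytope with slack `3 / 4` contains a small cube around every point of
the polytope with slack `2 / 4`, so its lattice directions of width `W` have length `O(W)`.
-/

namespace Pool.Agent.H20.FN

variable {R : Type} [CommRing R]

lemma ap_cons_left {k : ℕ} (α : R) (φ : Fin k → R) (w : Fin (k + 1) → R) :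
    ap (Fin.cons α φ : Fin (k + 1) → R) w = α * w 0 + ∑ j : Fin k, φ j * w j.succ := by
  unfold ap
  rw [Fin.sum_univ_succ]
  rfl

lemma apL {k : ℕ} {Λ : Type} (a : Λ → Fin k → R) (b : Λ → R) (s : R) (l : Λ)
    (w : Fin (k + 1) → R) :
    ap (Fin.cons (s - 4 * b l) (fun i => -(4 * a l i)) : Fin (k + 1) → R) w =
      s * w 0 - 4 * (b l * w 0 + ∑ i : Fin k, a l i * w i.succ) := by
  rw [ap_cons_left]
  have h1 : ∑ j : Fin k, -(4 * a l j) * w j.succ = -(4 * ∑ i : Fin k, a l i * w i.succ) := by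
    rw [Finset.mul_sum, ← Finset.sum_neg_distrib]
    refine Finset.sum_congr rfl fun i _ => ?_
    ring
  rw [h1]
  ring

lemma apB {k : ℕ} (α β : R) (i : Fin k) (w : Fin (k + 1) → R) :
    ap (Fin.cons α (fun j => if j = i then β else 0) : Fin (k + 1) → R) w =
      α * w 0 + β * w i.succ := by
  rw [ap_cons_left]
  have h1 : ∑ j : Fin k, (if j = i then β else 0) * w j.succ = β * w i.succ := by
    rw [Finset.sum_congr rfl fun j _ => ite_mul (j = i) β 0 (w j.succ)]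
    simp
  rw [h1]

variable [LinearOrder R] [IsStrictOrderedRing R]

omit [LinearOrder R] [IsStrictOrderedRing R] in
lemma mem_fsl {k : ℕ} {Λ : Type} [Fintype Λ] {a : Λ → Fin k → R} {b : Λ → R} {t s : R}
    {f : Fin (k + 1) → R} : f ∈ fsl a b t s ↔
      (∃ l, f = Fin.cons (s - 4 * b l) (fun i => -(4 * a l i))) ∨
      (∃ i : Fin k, f = Fin.cons (4 * t + s) (fun j => if j = i then -4 else 0)) ∨
      (∃ i : Fin k, f = Fin.cons (4 * t + s) (fun j => if j = i then 4 else 0)) := by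
  unfold fsl
  rw [List.mem_append, List.mem_append, List.mem_map, List.mem_map, List.mem_map]
  constructor
  · rintro (⟨l, _, h⟩ | ⟨i, _, h⟩ | ⟨i, _, h⟩)
    · exact Or.inl ⟨l, h.symm⟩
    · exact Or.inr (Or.inl ⟨i, h.symm⟩)
    · exact Or.inr (Or.inr ⟨i, h.symm⟩)
  · rintro (⟨l, h⟩ | ⟨i, h⟩ | ⟨i, h⟩)
    · exact Or.inl ⟨l, Finset.mem_toList.2 (Finset.mem_univ l), h.symm⟩
    · exact Or.inr (Or.inl ⟨i, List.mem_finRange i, h.symm⟩)
    · exact Or.inr (Or.inr ⟨i, List.mem_finRange i, h.symm⟩)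

/-- what the constraints say -/
lemma fsl_sat {k : ℕ} {Λ : Type} [Fintype Λ] {a : Λ → Fin k → R} {b : Λ → R} {t s : R}
    {w : Fin (k + 1) → R} : (∀ f ∈ fsl a b t s, 0 ≤ ap f w) ↔
      (∀ l, 4 * (b l * w 0 + ∑ i : Fin k, a l i * w i.succ) ≤ s * w 0) ∧
      (∀ i : Fin k, 4 * w i.succ ≤ (4 * t + s) * w 0) ∧
      (∀ i : Fin k, -(4 * w i.succ) ≤ (4 * t + s) * w 0) := by
  constructor
  · intro h
    refine ⟨fun l => ?_, fun i => ?_, fun i => ?_⟩
    · have h1 := h _ (mem_fsl.2 (Or.inl ⟨l, rfl⟩))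
      rw [apL] at h1
      linarith
    · have h1 := h _ (mem_fsl.2 (Or.inr (Or.inl ⟨i, rfl⟩)))
      rw [apB] at h1
      linarith
    · have h1 := h _ (mem_fsl.2 (Or.inr (Or.inr ⟨i, rfl⟩)))
      rw [apB] at h1
      linarith
  · rintro ⟨h1, h2, h3⟩ f hf
    rcases mem_fsl.1 hf with ⟨l, rfl⟩ | ⟨i, rfl⟩ | ⟨i, rfl⟩
    · rw [apL]
      linarith [h1 l]
    · rw [apB]
      linarith [h2 i]
    · rw [apB]
      linarith [h3 i]

/-- duality for `Vs` -/
lemma Vs_dual {k : ℕ} {Λ : Type} [Fintype Λ] {a : Λ → Fin k → R} {b : Λ → R} {t s : R}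
    (ht : 0 ≤ t) {w : Fin (k + 1) → R} (hw0 : 0 < w 0)
    (hlo : ∀ i : Fin k, -(t + 1) * w 0 ≤ w i.succ) (hup : ∀ i : Fin k, w i.succ ≤ (t + 1) * w 0)
    (hf : ∀ f ∈ fsl a b t s, 0 ≤ ap f w) (g : Fin (k + 1) → R)
    (hg : ∀ v ∈ Vs a b t s, 0 ≤ ap g v) : 0 ≤ ap g w :=
  dual (fun g hg => simplex (by linarith) hw0 hlo hup g hg) (fsl a b t s) hf g hg

lemma Vs_pos {k : ℕ} {Λ : Type} [Fintype Λ] (a : Λ → Fin k → R) (b : Λ → R) (t s : R) :
    ∀ v ∈ Vs a b t s, 0 < v 0 := cuts_pos G0_pos _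

theorem inside {k : ℕ} {Λ : Type} [Fintype Λ] {a : Λ → Fin k → R} {b : Λ → R} {t : R}
    (ht : 0 ≤ t) (s : R) (hs : 0 ≤ s) (x : Fin k → R) (hx : ∀ i, |x i| ≤ t)
    (hc : ∀ l, b l + ∑ i, a l i * x i ≤ 0) (g : Fin (k + 1) → R)
    (hg : ∀ v ∈ Vs a b t s, 0 ≤ ap g v) : 0 ≤ ap g (Fin.cons 1 x : Fin (k + 1) → R) := by
  refine Vs_dual ht ?_ (fun i => ?_) (fun i => ?_) ?_ g hg
  · rw [Fin.cons_zero]
    exact one_pos
  · rw [Fin.cons_zero, Fin.cons_succ]
    have := (abs_le.1 (hx i)).1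
    linarith
  · rw [Fin.cons_zero, Fin.cons_succ]
    have := (abs_le.1 (hx i)).2
    linarith
  · rw [fsl_sat]
    simp only [Fin.cons_zero, Fin.cons_succ, mul_one]
    refine ⟨fun l => ?_, fun i => ?_, fun i => ?_⟩
    · have := hc l
      linarith
    · have := (abs_le.1 (hx i)).2
      linarith
    · have := (abs_le.1 (hx i)).1
      linarith

theorem outside {k : ℕ} {Λ : Type} [Fintype Λ] {a : Λ → Fin k → R} {b : Λ → R} {t : R}
    (hd : ∀ a : R, 0 < a → 1 ≤ a) (_ht : 0 ≤ t) (x : Fin k → R)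
    (hno : ¬ ((∀ i, |x i| ≤ t) ∧ ∀ l, b l + ∑ i, a l i * x i ≤ 0)) :
    ∃ f : Fin (k + 1) → R, (∀ v ∈ Vs a b t 3, 0 ≤ ap f v) ∧
      ap f (Fin.cons 1 x : Fin (k + 1) → R) < 0 := by
  have hsat : ∀ f ∈ fsl a b t 3, ∀ v ∈ Vs a b t 3, 0 ≤ ap f v := fun f hf v hv =>
    cuts_sat (fsl a b t 3) v hv f hf
  by_cases h1 : ∀ i, |x i| ≤ t
  · have h2 : ∃ l, 0 < b l + ∑ i, a l i * x i := by
      by_contra h
      push Not at h
      exact hno ⟨h1, h⟩
    obtain ⟨l, hl⟩ := h2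
    have h3 := hd _ hl
    refine ⟨_, hsat _ (mem_fsl.2 (Or.inl ⟨l, rfl⟩)), ?_⟩
    rw [apL]
    simp only [Fin.cons_zero, Fin.cons_succ, mul_one]
    linarith
  · push Not at h1
    obtain ⟨i, hi⟩ := h1
    rcases lt_abs.1 hi with h | h
    · have h3 := hd _ (sub_pos.2 h)
      refine ⟨_, hsat _ (mem_fsl.2 (Or.inr (Or.inl ⟨i, rfl⟩))), ?_⟩
      rw [apB]
      simp only [Fin.cons_zero, Fin.cons_succ, mul_one]
      linarith
    · have h3 := hd _ (sub_pos.2 h)
      refine ⟨_, hsat _ (mem_fsl.2 (Or.inr (Or.inr ⟨i, rfl⟩))), ?_⟩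
      rw [apB]
      simp only [Fin.cons_zero, Fin.cons_succ, mul_one]
      linarith

lemma abs_le_kap {k : ℕ} {Λ : Type} [Fintype Λ] (a : Λ → Fin k → R) (l : Λ) (i : Fin k) :
    |a l i| ≤ 1 + ∑ l, ∑ i, a l i * a l i := by
  have h1 : a l i * a l i ≤ ∑ i, a l i * a l i :=
    Finset.single_le_sum (f := fun i => a l i * a l i) (fun j _ => mul_self_nonneg _)
      (Finset.mem_univ i)
  have h2 : ∑ i, a l i * a l i ≤ ∑ l, ∑ i, a l i * a l i :=
    Finset.single_le_sum (f := fun l => ∑ i, a l i * a l i)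
      (fun j _ => Finset.sum_nonneg fun i _ => mul_self_nonneg _) (Finset.mem_univ l)
  have h3 : |a l i| ≤ 1 + a l i * a l i := by
    rw [← abs_mul_abs_self (a l i)]
    have h4 := abs_nonneg (a l i)
    rcases le_total (|a l i|) 1 with h | h
    · have := mul_nonneg h4 h4
      linarith
    · have := mul_le_mul_of_nonneg_left h h4
      linarith
  linarith

/-- the pushed point -/
def push {k : ℕ} (κ ε : R) (i : Fin k) (v : Fin (k + 1) → R) : Fin (k + 1) → R :=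
  Fin.cons (4 * κ * v 0) fun j => 4 * κ * v j.succ + if j = i then ε * v 0 else 0

omit [LinearOrder R] [IsStrictOrderedRing R] in
lemma push_sum {k : ℕ} (κ ε : R) (i : Fin k) (v : Fin (k + 1) → R) (u : Fin k → R) :
    ∑ j : Fin k, u j * push κ ε i v j.succ =
      4 * κ * (∑ j : Fin k, u j * v j.succ) + ε * u i * v 0 := by
  have h1 : ∀ j : Fin k, u j * push κ ε i v j.succ =
      4 * κ * (u j * v j.succ) + if j = i then ε * u j * v 0 else 0 := by
    intro j
    unfold push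
    rw [Fin.cons_succ]
    split_ifs
    · ring
    · ring
  rw [Finset.sum_congr rfl fun j _ => h1 j, Finset.sum_add_distrib, ← Finset.mul_sum,
    Finset.sum_ite_eq' Finset.univ i fun j => ε * u j * v 0]
  simp

lemma push_dual {k : ℕ} {Λ : Type} [Fintype Λ] {a : Λ → Fin k → R} {b : Λ → R} {t : R}
    (ht : 0 ≤ t) {v : Fin (k + 1) → R} (hv : v ∈ Vs a b t 2) (i : Fin k) {ε : R} (hε : |ε| ≤ 1)
    (g : Fin (k + 1) → R) (hg : ∀ v ∈ Vs a b t 3, 0 ≤ ap g v) :
    0 ≤ ap g (push (1 + ∑ l, ∑ i, a l i * a l i) ε i v) := by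
  set κ : R := 1 + ∑ l, ∑ i, a l i * a l i with hκ
  have hv0 : 0 < v 0 := Vs_pos a b t 2 v hv
  have hκ1 : 1 ≤ κ := by
    have : 0 ≤ ∑ l, ∑ i, a l i * a l i :=
      Finset.sum_nonneg fun l _ => Finset.sum_nonneg fun i _ => mul_self_nonneg _
    linarith
  have hκv : v 0 ≤ κ * v 0 := by
    have := mul_le_mul_of_nonneg_right hκ1 hv0.le
    linarith
  have hκv0 : 0 < κ * v 0 := lt_of_lt_of_le hv0 hκv
  obtain ⟨h1, h2, h3⟩ := fsl_sat.1 (cuts_sat (fsl a b t 2) v hv)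
  have hε1 : ε * v 0 ≤ v 0 := by
    have := mul_le_mul_of_nonneg_right (abs_le.1 hε).2 hv0.le
    linarith
  have hε2 : -v 0 ≤ ε * v 0 := by
    have := mul_le_mul_of_nonneg_right (abs_le.1 hε).1 hv0.le
    linarith
  have hp0 : push κ ε i v 0 = 4 * (κ * v 0) := by
    unfold push
    rw [Fin.cons_zero]
    ring
  have hκ0 : 0 ≤ κ := by linarith
  have hup : ∀ j : Fin k, 4 * push κ ε i v j.succ ≤ (4 * t + 3) * (4 * (κ * v 0)) := by
    intro j
    have h4 := mul_le_mul_of_nonneg_left (h2 j) hκ0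
    unfold push
    rw [Fin.cons_succ]
    split_ifs
    · linarith
    · linarith
  have hlo : ∀ j : Fin k, -(4 * push κ ε i v j.succ) ≤ (4 * t + 3) * (4 * (κ * v 0)) := by
    intro j
    have h4 := mul_le_mul_of_nonneg_left (h3 j) hκ0
    unfold push
    rw [Fin.cons_succ]
    split_ifs
    · linarith
    · linarith
  refine Vs_dual ht ?_ (fun j => ?_) (fun j => ?_) (fsl_sat.2 ⟨fun l => ?_, fun j => ?_, fun j => ?_⟩) g hg
  · rw [hp0]
    linarith
  · rw [hp0]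
    have h4 := hlo j
    linarith
  · rw [hp0]
    have h4 := hup j
    linarith
  · rw [hp0, push_sum]
    have h4 := mul_le_mul_of_nonneg_left (h1 l) hκ0
    have h5 : ε * a l i * v 0 ≤ κ * v 0 := by
      refine mul_le_mul_of_nonneg_right ?_ hv0.le
      have h6 : ε * a l i ≤ |ε| * |a l i| := by
        rw [← abs_mul]
        exact le_abs_self _
      have h7 : |ε| * |a l i| ≤ 1 * κ :=
        mul_le_mul hε (abs_le_kap a l i) (abs_nonneg _) zero_le_one
      linarith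
    linarith
  · rw [hp0]
    exact hup j
  · rw [hp0]
    exact hlo j

theorem fat {k : ℕ} {Λ : Type} [Fintype Λ] (_hd : ∀ a : R, 0 < a → 1 ≤ a) (a : Λ → Fin k → R)
    (b : Λ → R) (t : R) (ht : 0 ≤ t) (h2 : Vs a b t 2 ≠ []) (u : Fin k → R) (c W : R)
    (hs : StripH (Vs a b t 3) u c W) :
    ∀ i, |u i| ≤ 2 * (1 + ∑ l, ∑ i, a l i * a l i) * W := by
  intro i
  obtain ⟨v, hv⟩ := List.exists_mem_of_ne_nil _ h2
  have hv0 : 0 < v 0 := Vs_pos a b t 2 v hv
  set κ : R := 1 + ∑ l, ∑ i, a l i * a l i with hκ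
  have key : ∀ ε : R, |ε| ≤ 1 → c * (4 * κ * v 0) ≤
      4 * κ * (∑ j : Fin k, u j * v j.succ) + ε * u i * v 0 ∧
      4 * κ * (∑ j : Fin k, u j * v j.succ) + ε * u i * v 0 ≤ (c + W) * (4 * κ * v 0) := by
    intro ε hε
    have h0 : push κ ε i v 0 = 4 * κ * v 0 := by
      unfold push
      rw [Fin.cons_zero]
    have hA := push_dual ht hv i hε (Fin.cons (-c) u) fun x hx => by
      rw [ap_cons_left]
      linarith [(hs x hx).1]
    have hB := push_dual ht hv i hε (Fin.cons (c + W) fun j => -u j) fun x hx => by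
      rw [ap_cons_left]
      have h1 : ∑ j : Fin k, -u j * x j.succ = -∑ j : Fin k, u j * x j.succ := by
        rw [← Finset.sum_neg_distrib]
        exact Finset.sum_congr rfl fun j _ => neg_mul _ _
      rw [h1]
      linarith [(hs x hx).2]
    rw [ap_cons_left, ← hκ, push_sum, h0] at hA
    rw [ap_cons_left, ← hκ, push_sum, h0] at hB
    have h1 : ∑ j : Fin k, -u j * v j.succ = -∑ j : Fin k, u j * v j.succ := by
      rw [← Finset.sum_neg_distrib]
      exact Finset.sum_congr rfl fun j _ => neg_mul _ _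
    rw [h1] at hB
    constructor
    · linarith
    · linarith
  obtain ⟨hp1, hp2⟩ := key 1 (by rw [abs_one])
  obtain ⟨hm1, hm2⟩ := key (-1) (by rw [abs_neg, abs_one])
  rw [abs_le]
  constructor
  · have h1 : 0 ≤ (u i + 2 * κ * W) * v 0 := by linarith
    have h2 := nonneg_of_mul_nonneg_left h1 hv0
    linarith
  · have h1 : 0 ≤ (2 * κ * W - u i) * v 0 := by linarith
    have h2 := nonneg_of_mul_nonneg_left h1 hv0
    linarith

end Pool.Agent.H20.FN
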