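import Pool.Agent.H20.FN.Defs

set_option autoImplicit false

/-!
# Strips for homogeneous vectors
-/

namespace Pool.Agent.H20.FN

variable {R : Type} [CommRing R] [LinearOrder R] [IsStrictOrderedRing R]

/-- the strip condition `c ≤ u · x ≤ c + W` at the points of `V` -/
def StripH {k : ℕ} (V : List (Fin (k + 1) → R)) (u : Fin k → R) (c W : R) : Prop :=
  ∀ v ∈ V, c * v 0 ≤ ∑ i : Fin k, u i * v i.succ ∧ ∑ i : Fin k, u i * v i.succ ≤ (c + W) * v 0

/-- flatness for homogeneous vectors -/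
def HF (R : Type) [CommRing R] [LinearOrder R] [IsStrictOrderedRing R] (k w : ℕ) : Prop :=
  ∀ (V : List (Fin (k + 1) → R)) (K : R), (∀ v ∈ V, 0 < v 0) → V ≠ [] →
    (∀ (u : Fin k → R) (c W : R), 1 ≤ W → StripH V u c W → ∀ i, |u i| ≤ K * W) →
    (∀ x : Fin k → R, ∃ f : Fin (k + 1) → R, (∀ v ∈ V, 0 ≤ ap f v) ∧
      ap f (Fin.cons 1 x : Fin (k + 1) → R) < 0) →
    ∃ (u : Fin k → R) (c : R), u ≠ 0 ∧ StripH V u c (w : R)

end Pool.Agent.H20.FN
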