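import Pool.Agent.H20.FN.VH
import Pool.Agent.H20.FN.StripH

set_option autoImplicit false

/-!
# The constraints of a polytope, with slack `s / 4`
-/

namespace Pool.Agent.H20.FN

variable {R : Type} [CommRing R] [LinearOrder R] [IsStrictOrderedRing R]

/-- `4 (b l + Σ a l i x i) ≤ s`, `4 (x i - t) ≤ s`, `4 (- x i - t) ≤ s`, homogeneous -/
noncomputable def fsl {k : ℕ} {Λ : Type} [Fintype Λ] (a : Λ → Fin k → R) (b : Λ → R) (t s : R) :
    List (Fin (k + 1) → R) :=
  (Finset.univ : Finset Λ).toList.map (fun l => Fin.cons (s - 4 * b l) (fun i => -(4 * a l i))) ++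
    ((List.finRange k).map (fun i => Fin.cons (4 * t + s) (fun j => if j = i then -4 else 0)) ++
    (List.finRange k).map (fun i => Fin.cons (4 * t + s) (fun j => if j = i then 4 else 0)))

/-- the generators -/
noncomputable def Vs {k : ℕ} {Λ : Type} [Fintype Λ] (a : Λ → Fin k → R) (b : Λ → R) (t s : R) :
    List (Fin (k + 1) → R) := cuts (fsl a b t s) (G0 k (t + 1))

end Pool.Agent.H20.FN
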