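import Pool.Agent.H20.FN.Bridge
import Pool.Agent.H20.FN.Field
import Pool.Agent.H20.FN.Lnp

set_option autoImplicit false

/-!
# Flatness for homogeneous vectors in the models of `IE_1`: final form
-/

namespace Pool.Agent.H20.FN

open Pool.Agent.H20.FL

theorem hf (k : ℕ) : ∃ w : ℕ, ∀ M : Md, HF M.R k w :=
  hf_of_all (fun R _ _ _ => exists_field R) (fun M _ _ _ _ ι h1 h2 => lnpf M ι h1 h2)
    (fun M => lnpb M) k

end Pool.Agent.H20.FN
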