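import Pool.Agent.H20.FN.Fs
import Pool.Agent.H20.FN.Fat

set_option autoImplicit false

/-!
# The certificate for the absence of integer points
-/

namespace Pool.Agent.H20.FN

section

variable {R : Type} [CommRing R] [LinearOrder R] [IsStrictOrderedRing R]

/-- no integer point of the box satisfies all constraints `b l + Σ a l i x i ≤ 0` -/
def NoPt {k : ℕ} {Λ : Type} (t : R) (a : Λ → Fin k → R) (b : Λ → R) : Prop :=
  ∀ x : Fin k → R, (∀ i, |x i| ≤ t) → ∃ l, 0 < b l + ∑ i, a l i * x i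

/-- constraints on the slice -/
def sa {k : ℕ} {Λ : Type} (a : Λ → Fin (k + 1) → R) (B : Fin (k + 1) → Fin (k + 1) → R) :
    Λ ⊕ (Fin (k + 1) ⊕ Fin (k + 1)) → Fin k → R
  | .inl l, j => ∑ i, a l i * B i j.succ
  | .inr (.inl i), j => B i j.succ
  | .inr (.inr i), j => - B i j.succ

def sb {k : ℕ} {Λ : Type} (t : R) (a : Λ → Fin (k + 1) → R) (b : Λ → R)
    (B : Fin (k + 1) → Fin (k + 1) → R) (c : R) : Λ ⊕ (Fin (k + 1) ⊕ Fin (k + 1)) → R
  | .inl l => b l + ∑ i, a l i * (B i 0 * c)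
  | .inr (.inl i) => B i 0 * c - t
  | .inr (.inr i) => - (B i 0 * c) - t

theorem slice_sum {k : ℕ} {Λ : Type} (t : R) (a : Λ → Fin (k + 1) → R) (b : Λ → R)
    (B : Fin (k + 1) → Fin (k + 1) → R) (c : R) (x : Fin k → R) :
    (∀ l, sb t a b B c (.inl l) + ∑ j, sa a B (.inl l) j * x j =
      b l + ∑ i, a l i * (B i 0 * c + ∑ j, B i j.succ * x j)) ∧
    (∀ i, sb t a b B c (.inr (.inl i)) + ∑ j, sa a B (.inr (.inl i)) j * x j =
      (B i 0 * c + ∑ j, B i j.succ * x j) - t) ∧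
    (∀ i, sb t a b B c (.inr (.inr i)) + ∑ j, sa a B (.inr (.inr i)) j * x j =
      -(B i 0 * c + ∑ j, B i j.succ * x j) - t) := by
  refine ⟨fun l => ?_, fun i => ?_, fun i => ?_⟩
  · simp only [sb, sa, mul_add, Finset.sum_add_distrib, Finset.sum_mul, Finset.mul_sum]
    rw [Finset.sum_comm]
    simp only [mul_assoc, add_assoc]
  · simp only [sb, sa]; ring
  · simp only [sb, sa, neg_mul, Finset.sum_neg_distrib]; ring

theorem abs_sum_le' {n : ℕ} (f g : Fin n → R) (F G : R) (hF : 0 ≤ F) (hf : ∀ i, |f i| ≤ F) (hg : ∀ i, |g i| ≤ G) :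
    |∑ i, f i * g i| ≤ (n : R) * (F * G) := by
  refine (Finset.abs_sum_le_sum_abs _ _).trans ?_
  calc ∑ i, |f i * g i| ≤ ∑ _i : Fin n, F * G := Finset.sum_le_sum (fun i _ => by
        rw [abs_mul]
        exact mul_le_mul (hf i) (hg i) (abs_nonneg _) hF)
    _ = (n : R) * (F * G) := by simp

theorem small' (hd : ∀ a : R, 0 < a → 1 ≤ a) : ∀ (k : ℕ) (x : R), 0 ≤ x → x < (k : R) →
    ∃ ρ : ℕ, ρ < k ∧ x = (ρ : R) := by
  intro k
  induction k with
  | zero => intro x h1 h2; exact absurd h1 (not_le.2 (by simpa using h2))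
  | succ k ih =>
    intro x h1 h2
    push_cast at h2
    rcases lt_or_ge x (k : R) with h3 | h3
    · obtain ⟨ρ, h4, h5⟩ := ih x h1 h3
      exact ⟨ρ, h4.trans (Nat.lt_succ_self k), h5⟩
    · refine ⟨k, Nat.lt_succ_self k, ?_⟩
      rcases h3.eq_or_lt with h4 | h4
      · exact h4.symm
      · have := hd (x - k) (by linarith)
        linarith

/-- the bound for the certificate -/
def bd {k : ℕ} {Λ : Type} [Fintype Λ] (a : Λ → Fin (k + 1) → R) (t : R) (w e : ℕ) : R :=
  ((k + 1 : ℕ) : R) * ((2 + ((k + 1 : ℕ) : R) * ((2 * (1 + ∑ l, ∑ i, a l i * a l i) * ((w : R) + 1)) *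
    (2 * (1 + ∑ l, ∑ i, a l i * a l i) * ((w : R) + 1)))) ^ e * (t + 1)) +
    (2 + ((k + 1 : ℕ) : R) * ((2 * (1 + ∑ l, ∑ i, a l i * a l i) * ((w : R) + 1)) *
    (2 * (1 + ∑ l, ∑ i, a l i * a l i) * ((w : R) + 1)))) ^ e + (w : R) + 3

/-- the certificate -/
def Ce {k : ℕ} {Λ : Type} [Fintype Λ] (t : R) (a : Λ → Fin (k + 1) → R) (b : Λ → R) (w e : ℕ)
    (A B : Fin (k + 1) → Fin (k + 1) → R) (c : R) : Prop :=
  (∀ i j, ∑ l, A i l * B l j = if i = j then 1 else 0) ∧
  (∀ i j, ∑ l, B i l * A l j = if i = j then 1 else 0) ∧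
  StripH (Vs a b t 3) (A 0) c ((w : R) + 1) ∧
  ∀ j ∈ List.range (w + 2), NoPt (((k + 1 : ℕ) : R) * (bd a t w e * t)) (sa a B) (sb t a b B (c + ((j : ℕ) : R)))

theorem cert_sound (hd : ∀ a : R, 0 < a → 1 ≤ a) {k : ℕ} {Λ : Type} [Fintype Λ] (w e : ℕ)
    (a : Λ → Fin (k + 1) → R) (b : Λ → R) (t : R) (ht : 0 ≤ t)
    (h : Vs a b t 2 = [] ∨ ∃ (A B : Fin (k + 1) → Fin (k + 1) → R) (c : R),
      (∀ i j, |A i j| ≤ bd a t w e) ∧ Ce t a b w e A B c) : NoPt t a b := by
  intro x hx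
  by_contra hcon
  push Not at hcon
  rcases h with h | ⟨A, B, c, hA, hAB, hBA, hS, hN⟩
  · have h1 := inside (a := a) (b := b) (t := t) ht 2 (by norm_num) x hx hcon (Fin.cons (-1) (fun _ => 0)) (by
      rw [h]; intro v hv; exact absurd hv (List.not_mem_nil))
    unfold ap at h1
    rw [Fin.sum_univ_succ] at h1
    simp at h1
    linarith
  · have h1 := inside (a := a) (b := b) (t := t) ht 3 (by norm_num) x hx hcon (Fin.cons (-c) (A 0)) (by
      intro v hv
      have := (hS v hv).1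
      unfold ap
      rw [Fin.sum_univ_succ]
      simp only [Fin.cons_zero, Fin.cons_succ]
      linarith)
    have h2 := inside (a := a) (b := b) (t := t) ht 3 (by norm_num) x hx hcon (Fin.cons (c + ((w : R) + 1)) (fun i => - A 0 i)) (by
      intro v hv
      have := (hS v hv).2
      unfold ap
      rw [Fin.sum_univ_succ]
      simp only [Fin.cons_zero, Fin.cons_succ, neg_mul, Finset.sum_neg_distrib]
      linarith)
    unfold ap at h1 h2
    rw [Fin.sum_univ_succ] at h1 h2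
    simp only [Fin.cons_zero, Fin.cons_succ, neg_mul, Finset.sum_neg_distrib, mul_one] at h1 h2
    obtain ⟨j, hj, he⟩ := small' hd (w + 2) (∑ i, A 0 i * x i - c) (by linarith) (by
      push_cast; linarith)
    have hbd : 0 ≤ bd a t w e := (abs_nonneg _).trans (hA 0 0)
    obtain ⟨l, hl⟩ := hN j (List.mem_range.2 hj) (fun j => ∑ i, A j.succ i * x i) (fun j =>
      abs_sum_le' _ _ _ _ hbd (fun i => hA _ _) hx)
    have hX : ∀ i, B i 0 * (c + ((j : ℕ) : R)) + ∑ j, B i (Fin.succ j) * (∑ l, A j.succ l * x l) = x i := by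
      intro i
      have e1 : c + ((j : ℕ) : R) = ∑ l, A 0 l * x l := by linarith
      rw [e1]
      have e2 : B i 0 * (∑ l, A 0 l * x l) + ∑ j, B i (Fin.succ j) * (∑ l, A j.succ l * x l) =
          ∑ j, B i j * (∑ l, A j l * x l) :=
        (Fin.sum_univ_succ (fun j => B i j * (∑ l, A j l * x l))).symm
      rw [e2]
      have e3 : ∑ j, B i j * (∑ l, A j l * x l) = ∑ l, (∑ j, B i j * A j l) * x l := by
        simp only [Finset.mul_sum, Finset.sum_mul]
        rw [Finset.sum_comm]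
        simp only [mul_assoc]
      rw [e3]
      simp only [hBA]
      simp
    obtain ⟨s1, s2, s3⟩ := slice_sum t a b B (c + ((j : ℕ) : R)) (fun j => ∑ i, A j.succ i * x i)
    rcases l with l | (i | i)
    · rw [s1] at hl
      simp only [hX] at hl
      exact absurd hl (not_lt.2 (hcon l))
    · rw [s2, hX] at hl
      have := (abs_le.1 (hx i)).2
      linarith
    · rw [s3, hX] at hl
      have := (abs_le.1 (hx i)).1
      linarith

theorem cert_complete (hd : ∀ a : R, 0 < a → 1 ≤ a)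
    (hv : ∀ a b : R, 0 < b → ∃ q, b * q ≤ a ∧ a < b * (q + 1)) {k : ℕ} {Λ : Type} [Fintype Λ] (w e : ℕ)
    (hHF : HF R (k + 1) w) (hCo : Compl R k e)
    (a : Λ → Fin (k + 1) → R) (b : Λ → R) (t : R) (ht : 0 ≤ t) (hno : NoPt t a b) :
    Vs a b t 2 = [] ∨ ∃ (A B : Fin (k + 1) → Fin (k + 1) → R) (c : R),
      (∀ i j, |A i j| ≤ bd a t w e) ∧ (∀ i j, |B i j| ≤ bd a t w e) ∧ |c| ≤ bd a t w e ∧
        Ce t a b w e A B c := by
  by_cases h2 : Vs a b t 2 = []
  · exact Or.inl h2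
  right
  set κ : R := 1 + ∑ l, ∑ i, a l i * a l i with hκ
  have hκ0 : 1 ≤ κ := by
    have : 0 ≤ ∑ l, ∑ i, a l i * a l i :=
      Finset.sum_nonneg (fun l _ => Finset.sum_nonneg (fun i _ => mul_self_nonneg _))
    linarith
  have hfat := fun (u : Fin (k + 1) → R) (c W : R) (hs : StripH (Vs a b t 3) u c W) =>
    fat hd a b t ht h2 u c W hs
  have h3 : Vs a b t 3 ≠ [] := by
    intro h3
    have := hfat (fun _ => 2 * κ + 1) 0 1 (by rw [h3]; intro v hv; exact absurd hv (List.not_mem_nil)) 0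
    rw [abs_of_nonneg (by linarith)] at this
    linarith
  have hpos : ∀ v ∈ Vs a b t 3, 0 < v 0 := cuts_pos (fun v hv => G0_pos v hv) _
  obtain ⟨u, c, hu, hS⟩ := hHF (Vs a b t 3) (2 * κ) hpos h3 (fun u c W _ hs => hfat u c W hs)
    (fun x => outside (a := a) (b := b) (t := t) hd ht x (fun hh => by
      obtain ⟨l, hl⟩ := hno x hh.1
      exact absurd hl (not_lt.2 (hh.2 l))))
  have hw0 : (0 : R) ≤ (w : R) := Nat.cast_nonneg w
  have hS1 : StripH (Vs a b t 3) u c ((w : R) + 1) := fun v hv => ⟨(hS v hv).1, (hS v hv).2.trans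
    (mul_le_mul_of_nonneg_right (by linarith) (hpos v hv).le)⟩
  have hub := hfat u c _ hS1
  obtain ⟨g, A, B, hg, hAB, hBA, huA, hA, hB⟩ := hCo u hu
  set U : R := 2 * κ * ((w : R) + 1) with hU
  have hU0 : 0 ≤ U := by positivity
  have hsq : ∑ l, u l * u l ≤ ((k + 1 : ℕ) : R) * (U * U) := by
    calc ∑ l, u l * u l ≤ ∑ _l : Fin (k + 1), U * U := Finset.sum_le_sum (fun i _ => by
          rw [← abs_mul_abs_self]
          exact mul_le_mul (hub i) (hub i) (abs_nonneg _) hU0)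
      _ = ((k + 1 : ℕ) : R) * (U * U) := by simp
  set β : R := (2 + ((k + 1 : ℕ) : R) * (U * U)) ^ e with hβ
  have hsum0 : 0 ≤ ∑ l, u l * u l := Finset.sum_nonneg (fun l _ => mul_self_nonneg _)
  have hpow : (2 + ∑ l, u l * u l) ^ e ≤ β := pow_le_pow_left₀ (by linarith) (by linarith) e
  have hβ0 : 0 ≤ β := by positivity
  have hA' : ∀ i j, |A i j| ≤ β := fun i j => (hA i j).trans hpow
  have hB' : ∀ i j, |B i j| ≤ β := fun i j => (hB i j).trans hpow
  have hbd : bd a t w e = ((k + 1 : ℕ) : R) * (β * (t + 1)) + β + (w : R) + 3 := rfl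
  have hk0 : (0 : R) ≤ ((k + 1 : ℕ) : R) * (β * (t + 1)) := by positivity
  have hle : β ≤ bd a t w e := by rw [hbd]; linarith
  -- the strip of the first row
  obtain ⟨c0, hc1, hc2⟩ := hv c g hg
  have hg1 := hd g hg
  have hgA : ∀ v : Fin (k + 2) → R, ∑ i : Fin (k + 1), u i * v i.succ = g * ∑ i : Fin (k + 1), A 0 i * v i.succ := by
    intro v
    rw [Finset.mul_sum]
    refine Finset.sum_congr rfl (fun i _ => ?_)
    rw [huA]; ring
  have hst : StripH (Vs a b t 3) (A 0) c0 ((w : R) + 1) := by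
    intro v hv
    obtain ⟨k1, k2⟩ := hS v hv
    rw [hgA] at k1 k2
    have hv0 := hpos v hv
    constructor
    · refine le_of_mul_le_mul_left ?_ hg
      have := mul_le_mul_of_nonneg_right hc1 hv0.le
      nlinarith
    · refine le_of_mul_le_mul_left ?_ hg
      have h5 : c + (w : R) ≤ g * (c0 + ((w : R) + 1)) := by nlinarith
      have := mul_le_mul_of_nonneg_right h5 hv0.le
      nlinarith
  have hc0 : |c0| ≤ bd a t w e := by
    obtain ⟨v, hv⟩ := List.exists_mem_of_ne_nil _ h3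
    have hv0 := hpos v hv
    have hvb : ∀ i : Fin (k + 1), |v i.succ| ≤ (t + 1) * v 0 := by
      intro i
      have m1 : (Fin.cons (4 * t + 3) (fun j => if j = i then -4 else 0) : Fin (k + 2) → R) ∈ fsl a b t 3 := by
        unfold fsl
        exact List.mem_append_right _ (List.mem_append_left _ (List.mem_map.2 ⟨i, List.mem_finRange i, rfl⟩))
      have m2 : (Fin.cons (4 * t + 3) (fun j => if j = i then 4 else 0) : Fin (k + 2) → R) ∈ fsl a b t 3 := by
        unfold fsl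
        exact List.mem_append_right _ (List.mem_append_right _ (List.mem_map.2 ⟨i, List.mem_finRange i, rfl⟩))
      have q1 := cuts_sat _ v hv _ m1
      have q2 := cuts_sat _ v hv _ m2
      unfold ap at q1 q2
      rw [Fin.sum_univ_succ] at q1 q2
      simp only [Fin.cons_zero, Fin.cons_succ, ite_mul, zero_mul, Finset.sum_ite_eq', Finset.mem_univ, if_true] at q1 q2
      rw [abs_le]
      constructor <;> nlinarith
    have hAv := abs_sum_le' (fun i => A 0 i) (fun i => v i.succ) β ((t + 1) * v 0) hβ0 (fun i => hA' 0 i) hvb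
    obtain ⟨k1, k2⟩ := hst v hv
    obtain ⟨j1, j2⟩ := abs_le.1 hAv
    have e3 : ((k + 1 : ℕ) : R) * (β * ((t + 1) * v 0)) = (((k + 1 : ℕ) : R) * (β * (t + 1))) * v 0 := by ring
    rw [e3] at j1 j2
    have l1 : c0 ≤ ((k + 1 : ℕ) : R) * (β * (t + 1)) := le_of_mul_le_mul_right (k1.trans j2) hv0
    have l2 : -(((k + 1 : ℕ) : R) * (β * (t + 1))) ≤ c0 + ((w : R) + 1) := by
      refine le_of_mul_le_mul_right ?_ hv0
      rw [neg_mul]
      exact j1.trans k2
    rw [hbd, abs_le]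
    constructor <;> linarith
  refine ⟨A, B, c0, fun i j => (hA' i j).trans hle, fun i j => (hB' i j).trans hle, hc0, ?_, ?_, hst, ?_⟩
  · intro i j
    have := congrFun (congrFun hAB i) j
    rw [Matrix.mul_apply, Matrix.one_apply] at this
    exact this
  · intro i j
    have := congrFun (congrFun hBA i) j
    rw [Matrix.mul_apply, Matrix.one_apply] at this
    exact this
  · intro j _ x' _
    obtain ⟨s1, s2, s3⟩ := slice_sum t a b (fun i j => B i j) (c0 + ((j : ℕ) : R)) x'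
    by_cases hb : ∀ i, |B i 0 * (c0 + ((j : ℕ) : R)) + ∑ j, B i (Fin.succ j) * x' j| ≤ t
    · obtain ⟨l, hl⟩ := hno _ hb
      exact ⟨.inl l, by rw [s1]; exact hl⟩
    · push Not at hb
      obtain ⟨i, hi⟩ := hb
      rcases lt_abs.1 hi with h | h
      · exact ⟨.inr (.inl i), by rw [s2]; linarith⟩
      · exact ⟨.inr (.inr i), by rw [s3]; linarith⟩

end

end Pool.Agent.H20.FN
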