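import Pool.Agent.H20.FN.Step
import Pool.Agent.H20.FN.Ball

set_option autoImplicit false

/-!
# Absence of integer points is uniformly `E_1` in the models of `IE_1`, in every dimension
-/

namespace Pool.Agent.H20.FN

open Pool.Agent.H20.E1 Pool.Agent.H20.FL

/-- the parameters of a system with constraints `Λ` in `k` unknowns -/
abbrev Ix (Λ : Type) (k : ℕ) : Type := Unit ⊕ (Λ ⊕ (Λ × Fin k))

def NP {Λ : Type} {k : ℕ} (M : Md) (z : Ix Λ k → M.R) : Prop :=
  NoPt (z (Sum.inl ())) (fun l i => z (Sum.inr (Sum.inr (l, i)))) (fun l => z (Sum.inr (Sum.inl l)))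

section gen

variable {ι Λ : Type} [Fintype Λ] {k : ℕ} {t : ∀ M : Md, (ι → M.R) → M.R}
  {a : Λ → Fin k → ∀ M : Md, (ι → M.R) → M.R} {b : Λ → ∀ M : Md, (ι → M.R) → M.R}

/-- polynomial constraints -/
noncomputable def fslV (ht : PF ι t) (ha : ∀ l i, PF ι (a l i)) (hb : ∀ l, PF ι (b l)) (s : ℕ) :
    List (FV ι (k + 1)) :=
  (Finset.univ : Finset Λ).toList.map (fun l => (⟨Fin.cons (fun M z => (s : M.R) - 4 * b l M z)
      (fun i M z => -(4 * a l i M z)), fun j => by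
        refine Fin.cases ?_ (fun j => ?_) j
        · exact (PF.nat s).sub ((by simpa using PF.nat (ι := ι) 4 : PF ι (fun _ _ => 4)).mul (hb l))
        · exact ((by simpa using PF.nat (ι := ι) 4 : PF ι (fun _ _ => 4)).mul (ha l j)).neg⟩ : FV ι (k + 1))) ++
    ((List.finRange k).map (fun i => (⟨Fin.cons (fun M z => 4 * t M z + (s : M.R))
      (fun j M z => if j = i then -4 else 0), fun j => by
        refine Fin.cases ?_ (fun j => ?_) j
        · exact ((by simpa using PF.nat (ι := ι) 4 : PF ι (fun _ _ => 4)).mul ht).add (PF.nat s)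
        · show PF ι (fun M z => if j = i then -4 else 0)
          by_cases h : j = i
          · simp only [h, if_true]
            exact (by simpa using PF.nat (ι := ι) 4 : PF ι (fun _ _ => 4)).neg
          · simp only [h, if_false]
            exact PF.zero⟩ : FV ι (k + 1))) ++
    (List.finRange k).map (fun i => (⟨Fin.cons (fun M z => 4 * t M z + (s : M.R))
      (fun j M z => if j = i then 4 else 0), fun j => by
        refine Fin.cases ?_ (fun j => ?_) j
        · exact ((by simpa using PF.nat (ι := ι) 4 : PF ι (fun _ _ => 4)).mul ht).add (PF.nat s)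
        · show PF ι (fun M z => if j = i then 4 else 0)
          by_cases h : j = i
          · simp only [h, if_true]
            exact (by simpa using PF.nat (ι := ι) 4 : PF ι (fun _ _ => 4))
          · simp only [h, if_false]
            exact PF.zero⟩ : FV ι (k + 1))))

theorem fslV_ev (ht : PF ι t) (ha : ∀ l i, PF ι (a l i)) (hb : ∀ l, PF ι (b l)) (s : ℕ) (M : Md)
    (z : ι → M.R) : (fslV ht ha hb s).map (fun f => ev f M z) =
      fsl (fun l i => a l i M z) (fun l => b l M z) (t M z) (s : M.R) := by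
  unfold fslV fsl
  simp only [List.map_append, List.map_map]
  congr 1
  · refine List.map_congr_left (fun l _ => ?_)
    funext j
    refine Fin.cases rfl (fun j => rfl) j
  · congr 1
    · refine List.map_congr_left (fun l _ => ?_)
      funext j
      refine Fin.cases rfl (fun j => rfl) j
    · refine List.map_congr_left (fun l _ => ?_)
      funext j
      refine Fin.cases rfl (fun j => rfl) j

noncomputable def G0V (k : ℕ) (ht : PF ι t) : List (FV ι (k + 1)) :=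
  (⟨Fin.cons (fun _ _ => 1) (fun _ M z => -(t M z + 1)), fun j => by
    refine Fin.cases ?_ (fun j => ?_) j
    · exact PF.one
    · exact (ht.add PF.one).neg⟩ : FV ι (k + 1)) ::
  (List.finRange k).map (fun i => (⟨Fin.cons (fun _ _ => 1) (fun j M z =>
      if j = i then -(t M z + 1) + 2 * (k : M.R) * (t M z + 1) else -(t M z + 1)), fun j => by
    refine Fin.cases ?_ (fun j => ?_) j
    · exact PF.one
    · show PF ι (fun M z => if j = i then -(t M z + 1) + 2 * (k : M.R) * (t M z + 1) else -(t M z + 1))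
      by_cases h : j = i
      · simp only [h, if_true]
        exact (ht.add PF.one).neg.add (((by simpa using PF.nat (ι := ι) 2 : PF ι (fun _ _ => 2)).mul
          (PF.nat k)).mul (ht.add PF.one))
      · simp only [h, if_false]
        exact (ht.add PF.one).neg⟩ : FV ι (k + 1)))

theorem G0V_ev (ht : PF ι t) (M : Md) (z : ι → M.R) :
    (G0V k ht).map (fun f => ev f M z) = G0 k (t M z + 1) := by
  unfold G0V G0
  simp only [List.map_cons, List.map_map]
  congr 1
  · funext j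
    refine Fin.cases rfl (fun j => rfl) j
  · refine List.map_congr_left (fun l _ => ?_)
    funext j
    refine Fin.cases rfl (fun j => rfl) j

/-- quantification over the generators of a polytope -/
theorem DS.gen (ht : PF ι t) (ha : ∀ l i, PF ι (a l i)) (hb : ∀ l, PF ι (b l)) (s : ℕ)
    {κ : Type} (r : ι → κ) (φ : ∀ M : Md, (Fin (k + 1) ⊕ κ → M.R) → Prop) (hφ : DS (Fin (k + 1) ⊕ κ) φ) :
    DS κ (fun M z => ∀ v ∈ Vs (fun l i => a l i M (fun i => z (r i))) (fun l => b l M (fun i => z (r i)))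
      (t M (fun i => z (r i))) (s : M.R), φ M (Sum.elim v z)) := by
  refine (ball_cuts (G0V k ht) (fslV ht ha hb s) κ r φ hφ).congr ?_
  intro M z
  rw [fslV_ev, G0V_ev]
  rfl

end gen

theorem DS.np0 (Λ : Type) [Fintype Λ] : DS (Ix Λ 0) (fun M z => NP M z) := by
  refine (DS.any (fun l : Λ => DS.lt PF.zero (PF.proj (Sum.inr (Sum.inl l))))).congr ?_
  intro M z
  unfold NP NoPt
  constructor
  · intro h
    obtain ⟨l, hl⟩ := h (fun i => i.elim0) (fun i => i.elim0)
    exact ⟨l, by simpa using hl⟩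
  · rintro ⟨l, hl⟩ x _
    exact ⟨l, by simpa using hl⟩

/-- index type of the certificate -/
abbrev Cx (k : ℕ) : Type := (Fin (k + 1) × Fin (k + 1)) ⊕ ((Fin (k + 1) × Fin (k + 1)) ⊕ Unit)

theorem PF.four {ι : Type} : PF ι (fun _ _ => 4) := by simpa using PF.nat (ι := ι) 4
theorem PF.two {ι : Type} : PF ι (fun _ _ => 2) := by simpa using PF.nat (ι := ι) 2

theorem PF.fsum {ι α : Type} [Fintype α] {f : α → ∀ M : Md, (ι → M.R) → M.R} (hf : ∀ i, PF ι (f i)) :
    PF ι (fun M z => ∑ i, f i M z) := by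
  have h := PF.sum (f := fun i => f ((Fintype.equivFin α).symm i)) (fun i => hf _)
  have e : (fun (M : Md) (z : ι → M.R) => ∑ i, f i M z) =
      fun M z => ∑ i, f ((Fintype.equivFin α).symm i) M z := by
    funext M z
    exact ((Fintype.equivFin α).symm.sum_comp (fun i => f i M z)).symm
  rw [e]
  exact h

theorem PF.bdg {ι Λ : Type} [Fintype Λ] {k : ℕ} {a : Λ → Fin (k + 1) → ∀ M : Md, (ι → M.R) → M.R}
    {t : ∀ M : Md, (ι → M.R) → M.R} (ha : ∀ l i, PF ι (a l i)) (ht : PF ι t) (w e : ℕ) :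
    PF ι (fun M z => bd (fun l i => a l i M z) (t M z) w e) := by
  have hκ : PF ι (fun M z => 1 + ∑ l : Λ, ∑ i, a l i M z * a l i M z) :=
    PF.one.add (PF.fsum (fun l => PF.sum (fun i => (ha l i).mul (ha l i))))
  have hw : PF ι (fun M _ => (w : M.R) + 1) := (PF.nat w).add PF.one
  have hU := (PF.two.mul hκ).mul hw
  have hβ := (PF.two.add ((PF.nat (k + 1)).mul (hU.mul hU))).pow e
  have h3 : PF ι (fun _ _ => 3) := by simpa using PF.nat (ι := ι) 3
  exact ((((PF.nat (k + 1)).mul (hβ.mul (ht.add PF.one))).add hβ).add (PF.nat w)).add h3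

theorem PF.bdd (Λ : Type) [Fintype Λ] (k w e : ℕ) : PF (Ix Λ (k + 1)) (fun M z =>
    bd (fun (l : Λ) i => z (Sum.inr (Sum.inr (l, i)))) (z (Sum.inl ())) w e) :=
  PF.bdg (ι := Ix Λ (k + 1)) (a := fun (l : Λ) i M z => z (Sum.inr (Sum.inr (l, i))))
    (t := fun M z => z (Sum.inl ())) (fun _ _ => PF.proj _) (PF.proj _) w e

section pieces

variable {Λ : Type} [Fintype Λ] {k : ℕ}

/-- the parts of the certificate -/
def cA {M : Md} (y : Cx k ⊕ Ix Λ (k + 1) → M.R) (i j : Fin (k + 1)) : M.R := y (Sum.inl (Sum.inl (i, j)))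
def cB {M : Md} (y : Cx k ⊕ Ix Λ (k + 1) → M.R) (i j : Fin (k + 1)) : M.R := y (Sum.inl (Sum.inr (Sum.inl (i, j))))
def cc {M : Md} (y : Cx k ⊕ Ix Λ (k + 1) → M.R) : M.R := y (Sum.inl (Sum.inr (Sum.inr ())))
def ct {M : Md} (y : Cx k ⊕ Ix Λ (k + 1) → M.R) : M.R := y (Sum.inr (Sum.inl ()))
def ca {M : Md} (y : Cx k ⊕ Ix Λ (k + 1) → M.R) (l : Λ) (i : Fin (k + 1)) : M.R :=
  y (Sum.inr (Sum.inr (Sum.inr (l, i))))
def cb {M : Md} (y : Cx k ⊕ Ix Λ (k + 1) → M.R) (l : Λ) : M.R := y (Sum.inr (Sum.inr (Sum.inl l)))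

theorem PF.cA (i j : Fin (k + 1)) : PF (Cx k ⊕ Ix Λ (k + 1)) (fun _ y => FN.cA y i j) := PF.proj _
theorem PF.cB (i j : Fin (k + 1)) : PF (Cx k ⊕ Ix Λ (k + 1)) (fun _ y => FN.cB y i j) := PF.proj _
theorem PF.cc : PF (Cx k ⊕ Ix Λ (k + 1)) (fun _ y => FN.cc y) := PF.proj _
theorem PF.ct : PF (Cx k ⊕ Ix Λ (k + 1)) (fun _ y => FN.ct y) := PF.proj _
theorem PF.ca (l : Λ) (i : Fin (k + 1)) : PF (Cx k ⊕ Ix Λ (k + 1)) (fun _ y => FN.ca y l i) := PF.proj _
theorem PF.cb (l : Λ) : PF (Cx k ⊕ Ix Λ (k + 1)) (fun _ y => FN.cb y l) := PF.proj _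

theorem DS.p1 : DS (Ix Λ (k + 1)) (fun M z => ∀ v ∈ Vs (fun l i => z (Sum.inr (Sum.inr (l, i))))
    (fun l => z (Sum.inr (Sum.inl l))) (z (Sum.inl ())) ((2 : ℕ) : M.R), False) :=
  DS.gen (ι := Ix Λ (k + 1)) (t := fun M z => z (Sum.inl ())) (a := fun l i M z => z (Sum.inr (Sum.inr (l, i))))
    (b := fun l M z => z (Sum.inr (Sum.inl l))) (PF.proj _) (fun _ _ => PF.proj _) (fun _ => PF.proj _) 2
    (fun i => i) (fun _ _ => False) DS.false

theorem DS.det1 : DS (Cx k ⊕ Ix Λ (k + 1))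
    (fun _ y => ∀ i j, ∑ l, FN.cA y i l * FN.cB y l j = if i = j then 1 else 0) := by
  refine DS.all (fun i => DS.all (fun j => DS.eq (PF.sum (fun l => (PF.cA i l).mul (PF.cB l j))) ?_))
  by_cases h : i = j
  · simp only [h, if_true]; exact PF.one
  · simp only [h, if_false]; exact PF.zero

theorem DS.det2 : DS (Cx k ⊕ Ix Λ (k + 1))
    (fun _ y => ∀ i j, ∑ l, FN.cB y i l * FN.cA y l j = if i = j then 1 else 0) := by
  refine DS.all (fun i => DS.all (fun j => DS.eq (PF.sum (fun l => (PF.cB i l).mul (PF.cA l j))) ?_))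
  by_cases h : i = j
  · simp only [h, if_true]; exact PF.one
  · simp only [h, if_false]; exact PF.zero

theorem DS.p2 (w : ℕ) : DS (Cx k ⊕ Ix Λ (k + 1)) (fun M y => StripH (Vs (FN.ca y) (FN.cb y) (FN.ct y) ((3 : ℕ) : M.R))
    (FN.cA y 0) (FN.cc y) ((w : M.R) + 1)) := by
  have q1 : PF (Fin (k + 1 + 1) ⊕ (Cx k ⊕ Ix Λ (k + 1))) (fun M u => ∑ i : Fin (k + 1),
      FN.cA (fun j => u (Sum.inr j)) 0 i * u (Sum.inl i.succ)) :=
    PF.sum (fun i => (PF.proj _).mul (PF.proj _))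
  have q2 : PF (Fin (k + 1 + 1) ⊕ (Cx k ⊕ Ix Λ (k + 1))) (fun M u => FN.cc (fun j => u (Sum.inr j))) := PF.proj _
  have q3 := (DS.le (q2.mul (PF.proj (Sum.inl 0))) q1).and
    (DS.le q1 ((q2.add ((PF.nat w).add PF.one)).mul (PF.proj (Sum.inl 0))))
  exact DS.gen (ι := Ix Λ (k + 1)) (t := fun M z => z (Sum.inl ())) (a := fun l i M z => z (Sum.inr (Sum.inr (l, i))))
    (b := fun l M z => z (Sum.inr (Sum.inl l))) (PF.proj _) (fun _ _ => PF.proj _) (fun _ => PF.proj _) 3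
    (κ := Cx k ⊕ Ix Λ (k + 1)) (fun i => Sum.inr i) _ q3

/-- parameters of the slice -/
def sl (w e j : ℕ) : ∀ M : Md, (Cx k ⊕ Ix Λ (k + 1) → M.R) → Ix (Λ ⊕ (Fin (k + 1) ⊕ Fin (k + 1))) k → M.R :=
  fun M y o => match o with
  | Sum.inl _ => ((k + 1 : ℕ) : M.R) * (bd (FN.ca y) (FN.ct y) w e * FN.ct y)
  | Sum.inr (Sum.inl l) => sb (FN.ct y) (FN.ca y) (FN.cb y) (FN.cB y) (FN.cc y + ((j : ℕ) : M.R)) l
  | Sum.inr (Sum.inr (l, i)) => sa (FN.ca y) (FN.cB y) l i

theorem PF.sl1 (w e : ℕ) : PF (Cx k ⊕ Ix Λ (k + 1)) (fun M y => bd (FN.ca y) (FN.ct y) w e) :=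
  PF.bdg (ι := Cx k ⊕ Ix Λ (k + 1)) (a := fun (l : Λ) i _ y => FN.ca y l i)
    (t := fun _ y => FN.ct y) (fun l i => PF.ca l i) PF.ct w e

theorem PF.sl (w e j : ℕ) (o : Ix (Λ ⊕ (Fin (k + 1) ⊕ Fin (k + 1))) k) :
    PF (Cx k ⊕ Ix Λ (k + 1)) (fun M y => FN.sl w e j M y o) := by
  have hcj : PF (Cx k ⊕ Ix Λ (k + 1)) (fun M y => FN.cc y + ((j : ℕ) : M.R)) := PF.cc.add (PF.nat j)
  have hbd : PF (Cx k ⊕ Ix Λ (k + 1)) (fun M y => bd (FN.ca y) (FN.ct y) w e) := PF.sl1 w e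
  rcases o with o | (l | ⟨l, i⟩)
  · simp only [FN.sl]
    exact (PF.nat (k + 1)).mul (hbd.mul PF.ct)
  · rcases l with l | (l | l)
    · simp only [FN.sl, sb]
      exact (PF.cb l).add (PF.sum (fun i => (PF.ca l i).mul ((PF.cB i 0).mul hcj)))
    · simp only [FN.sl, sb]
      exact ((PF.cB l 0).mul hcj).sub PF.ct
    · simp only [FN.sl, sb]
      exact (((PF.cB l 0).mul hcj).neg).sub PF.ct
  · rcases l with l | (l | l)
    · simp only [FN.sl, sa]
      exact PF.sum (fun i' => (PF.ca l i').mul (PF.cB i' i.succ))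
    · simp only [FN.sl, sa]
      exact PF.cB l i.succ
    · simp only [FN.sl, sa]
      exact (PF.cB l i.succ).neg

theorem DS.p3 (w e : ℕ) (hS : ∀ (Λ : Type) [Fintype Λ], DS (Ix Λ k) (fun M z => NP M z)) :
    DS (Cx k ⊕ Ix Λ (k + 1)) (fun M y => ∀ j ∈ List.range (w + 2), NP M (FN.sl w e j M y)) :=
  DS.ball _ (fun j _ => (hS (Λ ⊕ (Fin (k + 1) ⊕ Fin (k + 1)))).comp (PF.sl w e j))

theorem np_iff (w e : ℕ) (M : Md) (hHF : HF M.R (k + 1) w) (hCo : Compl M.R k e) (z : Ix Λ (k + 1) → M.R) :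
    NP M z ↔ (z (Sum.inl ()) < 0 ∨ (0 ≤ z (Sum.inl ()) ∧
      ((∀ v ∈ Vs (fun l i => z (Sum.inr (Sum.inr (l, i)))) (fun l => z (Sum.inr (Sum.inl l))) (z (Sum.inl ()))
        ((2 : ℕ) : M.R), False) ∨
      ∃ y : Cx k → M.R, (∀ i, |y i| ≤ bd (fun (l : Λ) i => z (Sum.inr (Sum.inr (l, i)))) (z (Sum.inl ())) w e) ∧
        ((∀ i j, ∑ l, FN.cA (Sum.elim y z) i l * FN.cB (Sum.elim y z) l j = if i = j then 1 else 0) ∧
        ((∀ i j, ∑ l, FN.cB (Sum.elim y z) i l * FN.cA (Sum.elim y z) l j = if i = j then 1 else 0) ∧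
        (StripH (Vs (FN.ca (Sum.elim y z)) (FN.cb (Sum.elim y z)) (FN.ct (Sum.elim y z)) ((3 : ℕ) : M.R))
          (FN.cA (Sum.elim y z) 0) (FN.cc (Sum.elim y z)) ((w : M.R) + 1) ∧
        ∀ j ∈ List.range (w + 2), NP M (FN.sl w e j M (Sum.elim y z)))))))) := by
  have e2 : ((2 : ℕ) : M.R) = 2 := by norm_num
  have e3 : ((3 : ℕ) : M.R) = 3 := by norm_num
  rcases lt_or_ge (z (Sum.inl ())) 0 with ht | ht
  · constructor
    · intro _
      exact Or.inl ht
    · intro _ x hx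
      exact absurd ((abs_nonneg _).trans (hx 0)) (not_le.2 ht)
  · constructor
    · intro h
      refine Or.inr ⟨ht, ?_⟩
      rcases cert_complete M.hd M.hv w e hHF hCo _ _ _ ht h with h1 | ⟨A0, B0, c0, k1, k2, k3, k4, k5, k6, k7⟩
      · left
        intro v hv
        rw [e2, h1] at hv
        exact absurd hv (List.not_mem_nil)
      · right
        refine ⟨Sum.elim (fun p => A0 p.1 p.2) (Sum.elim (fun p => B0 p.1 p.2) (fun _ => c0)), ?_, k4, k5, ?_, k7⟩
        · rintro (⟨i, j⟩ | ⟨i, j⟩ | _)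
          · exact k1 i j
          · exact k2 i j
          · exact k3
        · rw [e3]
          exact k6
    · rintro (h | ⟨-, h⟩)
      · exact absurd ht (not_le.2 h)
      · refine cert_sound M.hd w e _ _ _ ht ?_
        rcases h with h | ⟨y, hy, h1, h2, h3, h4⟩
        · left
          rw [e2] at h
          by_contra hne
          obtain ⟨v, hv⟩ := List.exists_mem_of_ne_nil _ hne
          exact h v hv
        · right
          rw [e3] at h3
          exact ⟨fun i j => y (Sum.inl (i, j)), fun i j => y (Sum.inr (Sum.inl (i, j))), y (Sum.inr (Sum.inr ())),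
            fun i j => hy _, h1, h2, h3, h4⟩

end pieces

theorem DS.step (k w e : ℕ) (hHF : ∀ M : Md, HF M.R (k + 1) w) (hCo : ∀ M : Md, Compl M.R k e)
    (hS : ∀ (Λ : Type) [Fintype Λ], DS (Ix Λ k) (fun M z => NP M z)) (Λ : Type) [Fintype Λ] :
    DS (Ix Λ (k + 1)) (fun M z => NP M z) := by
  have p4 := DS.exf (α := Cx k) (ι := Ix Λ (k + 1))
    ((DS.det1).and ((DS.det2).and ((DS.p2 w).and (DS.p3 w e hS)))) (PF.bdd Λ k w e)
  exact ((DS.lt (PF.proj _) PF.zero).or ((DS.le PF.zero (PF.proj _)).and (DS.p1.or p4))).congr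
    (fun M z => np_iff w e M (hHF M) (hCo M) z)

end Pool.Agent.H20.FN
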