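import Pool.Agent.H20.FN.Defs
import Pool.Agent.H20.FL.Red

set_option autoImplicit false

/-!
# [H20 FN VH] The double description of a polytope

`cuts fs G` generates the part of the cone of `G` where all `f ∈ fs` are nonnegative, up to multiples.
-/

namespace Pool.Agent.H20.FN

variable {R : Type} [CommRing R]

lemma ap_add {q : ℕ} (f v w : Fin q → R) : ap f (v + w) = ap f v + ap f w := by
  unfold ap
  rw [← Finset.sum_add_distrib]
  refine Finset.sum_congr rfl fun i _ => ?_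
  rw [Pi.add_apply, mul_add]

lemma ap_sub {q : ℕ} (f v w : Fin q → R) : ap f (v - w) = ap f v - ap f w := by
  unfold ap
  rw [← Finset.sum_sub_distrib]
  refine Finset.sum_congr rfl fun i _ => ?_
  rw [Pi.sub_apply, mul_sub]

lemma ap_smul {q : ℕ} (f : Fin q → R) (c : R) (v : Fin q → R) : ap f (c • v) = c * ap f v := by
  unfold ap
  rw [Finset.mul_sum]
  refine Finset.sum_congr rfl fun i _ => ?_
  rw [Pi.smul_apply, smul_eq_mul]
  ring

lemma ap_sub_left {q : ℕ} (f g v : Fin q → R) : ap (f - g) v = ap f v - ap g v := by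
  unfold ap
  rw [← Finset.sum_sub_distrib]
  refine Finset.sum_congr rfl fun i _ => ?_
  rw [Pi.sub_apply, sub_mul]

lemma ap_smul_left {q : ℕ} (f : Fin q → R) (c : R) (v : Fin q → R) : ap (c • f) v = c * ap f v := by
  unfold ap
  rw [Finset.mul_sum]
  refine Finset.sum_congr rfl fun i _ => ?_
  rw [Pi.smul_apply, smul_eq_mul]
  ring

lemma ap_cons {k : ℕ} (g : Fin (k + 1) → R) (a : R) (f : Fin k → R) :
    ap g (Fin.cons a f) = g 0 * a + ∑ j : Fin k, g j.succ * f j := by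
  unfold ap
  rw [Fin.sum_univ_succ]
  rfl

variable [LinearOrder R]

lemma mem_cut {q : ℕ} {f : Fin q → R} {G : List (Fin q → R)} {v : Fin q → R} :
    v ∈ cut f G ↔ (v ∈ G ∧ 0 ≤ ap f v) ∨
      ∃ a ∈ G, ∃ b ∈ G, 0 < ap f a ∧ ap f b < 0 ∧ v = ap f a • b - ap f b • a := by
  unfold cut
  rw [List.mem_append, List.mem_filter, List.mem_map]
  simp only [decide_eq_true_eq]
  constructor
  · rintro (h | ⟨⟨a, b⟩, h, rfl⟩)
    · exact Or.inl h
    · rw [List.mem_filter] at h
      simp only [decide_eq_true_eq] at h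
      have h1 := List.mem_product.1 h.1
      exact Or.inr ⟨a, h1.1, b, h1.2, h.2.1, h.2.2, rfl⟩
  · rintro (h | ⟨a, ha, b, hb, h1, h2, rfl⟩)
    · exact Or.inl h
    · refine Or.inr ⟨(a, b), ?_, rfl⟩
      rw [List.mem_filter]
      simp only [decide_eq_true_eq]
      exact ⟨List.mem_product.2 ⟨ha, hb⟩, h1, h2⟩

lemma cuts_nil {q : ℕ} (G : List (Fin q → R)) : cuts [] G = G := rfl

lemma cuts_cons {q : ℕ} (f : Fin q → R) (fs G : List (Fin q → R)) :
    cuts (f :: fs) G = cut f (cuts fs G) := rfl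

variable [IsStrictOrderedRing R]

lemma cut_pos {k : ℕ} {f : Fin (k + 1) → R} {G : List (Fin (k + 1) → R)}
    (hG : ∀ v ∈ G, 0 < v 0) : ∀ v ∈ cut f G, 0 < v 0 := by
  intro v hv
  rcases mem_cut.1 hv with h | ⟨a, ha, b, hb, h1, h2, rfl⟩
  · exact hG v h.1
  · rw [Pi.sub_apply, Pi.smul_apply, Pi.smul_apply, smul_eq_mul, smul_eq_mul]
    have h3 := mul_pos h1 (hG b hb)
    have h4 := mul_pos (neg_pos.2 h2) (hG a ha)
    linarith

theorem cuts_pos {k : ℕ} {G : List (Fin (k + 1) → R)} (hG : ∀ v ∈ G, 0 < v 0) :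
    ∀ fs : List (Fin (k + 1) → R), ∀ v ∈ cuts fs G, 0 < v 0
  | [] => hG
  | _ :: fs => cut_pos (cuts_pos hG fs)

lemma cut_keep {q : ℕ} {f g : Fin q → R} {G : List (Fin q → R)} (hG : ∀ v ∈ G, 0 ≤ ap g v) :
    ∀ v ∈ cut f G, 0 ≤ ap g v := by
  intro v hv
  rcases mem_cut.1 hv with h | ⟨a, ha, b, hb, h1, h2, rfl⟩
  · exact hG v h.1
  · rw [ap_sub, ap_smul, ap_smul]
    have h3 := mul_nonneg h1.le (hG b hb)
    have h4 := mul_nonneg (neg_pos.2 h2).le (hG a ha)
    linarith

omit [IsStrictOrderedRing R] in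
lemma cut_self {q : ℕ} {f : Fin q → R} {G : List (Fin q → R)} : ∀ v ∈ cut f G, 0 ≤ ap f v := by
  intro v hv
  rcases mem_cut.1 hv with h | ⟨a, ha, b, hb, h1, h2, rfl⟩
  · exact h.2
  · rw [ap_sub, ap_smul, ap_smul]
    exact le_of_eq (by ring)

/-- a linear inequality which holds on `G` holds on `cuts fs G` -/
theorem cuts_keep {q : ℕ} {g : Fin q → R} {G : List (Fin q → R)} (hG : ∀ v ∈ G, 0 ≤ ap g v) :
    ∀ fs : List (Fin q → R), ∀ v ∈ cuts fs G, 0 ≤ ap g v
  | [] => hG
  | _ :: fs => cut_keep (cuts_keep hG fs)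

theorem cuts_sat {q : ℕ} {G : List (Fin q → R)} :
    ∀ fs : List (Fin q → R), ∀ v ∈ cuts fs G, ∀ f ∈ fs, 0 ≤ ap f v
  | [], _, _, _, hf => absurd hf List.not_mem_nil
  | f' :: fs, v, hv, f, hf => by
    rw [cuts_cons] at hv
    rcases List.mem_cons.1 hf with rfl | hf
    · exact cut_self v hv
    · exact cut_keep (fun u hu => cuts_sat fs u hu f hf) v hv

/-- one step of the duality -/
theorem cut_dual {q : ℕ} {f w : Fin q → R} {G : List (Fin q → R)}
    (hw : ∀ g : Fin q → R, (∀ v ∈ G, 0 ≤ ap g v) → 0 ≤ ap g w) (hf : 0 ≤ ap f w)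
    (g : Fin q → R) (hg : ∀ v ∈ cut f G, 0 ≤ ap g v) : 0 ≤ ap g w := by
  have key : ∃ ρ μ : R, 0 < ρ ∧ 0 ≤ μ ∧ ∀ v ∈ G, 0 ≤ ρ * ap g v - μ * ap f v := by
    have hpos : ∀ v ∈ G, 0 ≤ ap f v → 0 ≤ ap g v := fun v hv h =>
      hg v (mem_cut.2 (Or.inl ⟨hv, h⟩))
    by_cases hN : ∀ v ∈ G, ap f v < 0 → 0 ≤ ap g v
    · refine ⟨1, 0, one_pos, le_rfl, fun v hv => ?_⟩
      rw [one_mul, zero_mul, sub_zero]
      rcases lt_or_ge (ap f v) 0 with h | h
      · exact hN v hv h
      · exact hpos v hv h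
    · push Not at hN
      obtain ⟨v₀, hv₀, hf₀, hg₀⟩ := hN
      have hS : (G.filter fun v => decide (ap f v < 0)) ≠ [] := by
        refine List.ne_nil_of_mem (a := v₀) ?_
        rw [List.mem_filter]
        exact ⟨hv₀, decide_eq_true hf₀⟩
      obtain ⟨i, hi, hm⟩ := Pool.Agent.H20.FL.exists_max (fun v => -ap g v) (fun v => -ap f v)
        (G.filter fun v => decide (ap f v < 0)) hS (fun l hl => by
          rw [List.mem_filter] at hl
          exact neg_pos.2 (of_decide_eq_true hl.2))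
      rw [List.mem_filter] at hi
      have hi1 : 0 < -ap f i := neg_pos.2 (of_decide_eq_true hi.2)
      have h0 := hm v₀ (by
        rw [List.mem_filter]
        exact ⟨hv₀, decide_eq_true hf₀⟩)
      have hi2 : 0 < -ap g i := by
        have h1 : 0 < -ap g v₀ * -ap f i := mul_pos (neg_pos.2 hg₀) hi1
        have h2 : 0 < -ap g i * -ap f v₀ := lt_of_lt_of_le h1 h0
        exact (pos_iff_pos_of_mul_pos h2).2 (neg_pos.2 hf₀)
      refine ⟨-ap f i, -ap g i, hi1, hi2.le, fun v hv => ?_⟩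
      rcases lt_trichotomy (ap f v) 0 with h | h | h
      · have h1 := hm v (by
          rw [List.mem_filter]
          exact ⟨hv, decide_eq_true h⟩)
        linarith
      · rw [h, mul_zero, sub_zero]
        exact mul_nonneg hi1.le (hpos v hv h.ge)
      · have h1 := hg _ (mem_cut.2 (Or.inr ⟨v, hv, i, hi.1, h, neg_pos.1 hi1, rfl⟩))
        rw [ap_sub, ap_smul, ap_smul] at h1
        linarith
  obtain ⟨ρ, μ, hρ, hμ, h⟩ := key
  have h1 := hw (ρ • g - μ • f) fun v hv => by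
    rw [ap_sub_left, ap_smul_left, ap_smul_left]
    exact h v hv
  rw [ap_sub_left, ap_smul_left, ap_smul_left] at h1
  have h2 : 0 ≤ ρ * ap g w := by
    have := mul_nonneg hμ hf
    linarith
  exact nonneg_of_mul_nonneg_right h2 hρ

/-- duality: `w` satisfies every linear inequality which holds on `cuts fs G` -/
theorem dual {q : ℕ} {w : Fin q → R} {G : List (Fin q → R)}
    (hw : ∀ g : Fin q → R, (∀ v ∈ G, 0 ≤ ap g v) → 0 ≤ ap g w) :
    ∀ fs : List (Fin q → R), (∀ f ∈ fs, 0 ≤ ap f w) →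
      ∀ g : Fin q → R, (∀ v ∈ cuts fs G, 0 ≤ ap g v) → 0 ≤ ap g w
  | [], _ => hw
  | f :: fs, hf => fun g hg =>
    cut_dual (dual hw fs fun f' hf' => hf f' (List.mem_cons_of_mem _ hf'))
      (hf f List.mem_cons_self) g hg

/-- the vertices of a simplex which contains the cube of side `2 T` -/
def G0 (k : ℕ) (T : R) : List (Fin (k + 1) → R) :=
  (Fin.cons 1 fun _ : Fin k => -T) ::
    (List.finRange k).map fun i =>
      (Fin.cons 1 fun j : Fin k => if j = i then -T + 2 * (k : R) * T else -T)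

omit [LinearOrder R] [IsStrictOrderedRing R] in
lemma mem_G0 {k : ℕ} {T : R} {v : Fin (k + 1) → R} : v ∈ G0 k T ↔
    (v = Fin.cons 1 fun _ : Fin k => -T) ∨
      ∃ i : Fin k, v = Fin.cons 1 fun j : Fin k => if j = i then -T + 2 * (k : R) * T else -T := by
  unfold G0
  rw [List.mem_cons, List.mem_map]
  constructor
  · rintro (h | ⟨i, _, h⟩)
    · exact Or.inl h
    · exact Or.inr ⟨i, h.symm⟩
  · rintro (h | ⟨i, h⟩)
    · exact Or.inl h
    · exact Or.inr ⟨i, List.mem_finRange i, h.symm⟩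

omit [LinearOrder R] [IsStrictOrderedRing R] in
lemma G0_zero {k : ℕ} {T : R} {v : Fin (k + 1) → R} (hv : v ∈ G0 k T) : v 0 = 1 := by
  rcases mem_G0.1 hv with rfl | ⟨i, rfl⟩
  · rfl
  · rfl

lemma G0_pos {k : ℕ} {T : R} : ∀ v ∈ G0 k T, 0 < v 0 := fun v hv => by
  rw [G0_zero hv]
  exact one_pos

lemma G0_lower {k : ℕ} {T : R} (hT : 0 ≤ T) {v : Fin (k + 1) → R} (hv : v ∈ G0 k T) (i : Fin k) :
    -T ≤ v i.succ := by
  rcases mem_G0.1 hv with rfl | ⟨j, rfl⟩
  · rw [Fin.cons_succ]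
  · rw [Fin.cons_succ]
    split_ifs with h
    · have : 0 ≤ 2 * (k : R) * T := by positivity
      linarith
    · exact le_rfl

lemma G0_upper {k : ℕ} {T : R} (hT : 0 ≤ T) {v : Fin (k + 1) → R} (hv : v ∈ G0 k T) (i : Fin k) :
    v i.succ ≤ -T + 2 * (k : R) * T := by
  have h0 : 0 ≤ 2 * (k : R) * T := by positivity
  rcases mem_G0.1 hv with rfl | ⟨j, rfl⟩
  · rw [Fin.cons_succ]
    linarith
  · rw [Fin.cons_succ]
    split_ifs with h
    · exact le_rfl
    · linarith

theorem simplex {k : ℕ} {T : R} (hT : 0 < T) {w : Fin (k + 1) → R} (hw0 : 0 < w 0)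
    (hlo : ∀ i : Fin k, -T * w 0 ≤ w i.succ) (hup : ∀ i : Fin k, w i.succ ≤ T * w 0)
    (g : Fin (k + 1) → R) (hg : ∀ v ∈ G0 k T, 0 ≤ ap g v) : 0 ≤ ap g w := by
  have hA : 0 ≤ g 0 * 1 + ∑ j : Fin k, g j.succ * -T := by
    rw [← ap_cons]
    exact hg _ (mem_G0.2 (Or.inl rfl))
  have hB : ∀ i : Fin k, 0 ≤ (g 0 * 1 + ∑ j : Fin k, g j.succ * -T) + g i.succ * (2 * (k : R) * T) := by
    intro i
    have h1 := hg _ (mem_G0.2 (Or.inr ⟨i, rfl⟩))
    rw [ap_cons] at h1
    have h2 : (∑ j : Fin k, g j.succ * (if j = i then -T + 2 * (k : R) * T else -T)) =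
        (∑ j : Fin k, g j.succ * -T) + g i.succ * (2 * (k : R) * T) := by
      have h3 : ∀ j : Fin k, g j.succ * (if j = i then -T + 2 * (k : R) * T else -T) =
          g j.succ * -T + (if j = i then g j.succ * (2 * (k : R) * T) else 0) := by
        intro j
        split_ifs with h
        · ring
        · ring
      rw [Finset.sum_congr rfl fun j _ => h3 j, Finset.sum_add_distrib, Finset.sum_ite_eq']
      simp
    rw [h2] at h1
    linarith
  set a : R := g 0 * 1 + ∑ j : Fin k, g j.succ * -T with ha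
  -- `2 k T w = Σ (w_i + T w_0) a_i + (2 k T w_0 - Σ (w_i + T w_0)) a_0`
  have hap : ap g w = g 0 * w 0 + ∑ j : Fin k, g j.succ * w j.succ := by
    unfold ap
    rw [Fin.sum_univ_succ]
  have hid : 2 * (k : R) * T * ap g w =
      (∑ i : Fin k, (w i.succ + T * w 0) * (a + g i.succ * (2 * (k : R) * T))) +
        (2 * (k : R) * T * w 0 - ∑ i : Fin k, (w i.succ + T * w 0)) * a := by
    have h1 : (∑ i : Fin k, (w i.succ + T * w 0) * (a + g i.succ * (2 * (k : R) * T))) =
        (∑ i : Fin k, (w i.succ + T * w 0)) * a +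
          (2 * (k : R) * T) * ((∑ i : Fin k, g i.succ * w i.succ) +
            T * w 0 * ∑ i : Fin k, g i.succ) := by
      rw [Finset.sum_mul, Finset.mul_sum, ← Finset.sum_add_distrib, Finset.mul_sum,
        ← Finset.sum_add_distrib]
      refine Finset.sum_congr rfl fun i _ => ?_
      ring
    have h2 : a = g 0 - T * ∑ i : Fin k, g i.succ := by
      rw [ha, Finset.mul_sum, mul_one, sub_eq_add_neg, ← Finset.sum_neg_distrib]
      refine (add_right_inj _).2 (Finset.sum_congr rfl fun i _ => ?_)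
      ring
    rw [h1, hap]
    have h3 : 2 * (k : R) * T * w 0 * a = 2 * (k : R) * T * w 0 * (g 0 - T * ∑ i : Fin k, g i.succ) := by
      rw [h2]
    linear_combination -h3
  have hsum : (∑ i : Fin k, (w i.succ + T * w 0)) ≤ 2 * (k : R) * T * w 0 := by
    have h1 : (∑ i : Fin k, (w i.succ + T * w 0)) ≤ ∑ _i : Fin k, 2 * T * w 0 :=
      Finset.sum_le_sum fun i _ => by
        have := hup i
        linarith
    refine h1.trans (le_of_eq ?_)
    rw [Finset.sum_const, Finset.card_univ, Fintype.card_fin, nsmul_eq_mul]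
    ring
  have hge : 0 ≤ 2 * (k : R) * T * ap g w := by
    rw [hid]
    refine add_nonneg (Finset.sum_nonneg fun i _ => mul_nonneg ?_ (hB i)) (mul_nonneg ?_ hA)
    · have := hlo i
      linarith
    · linarith
  rcases Nat.eq_zero_or_pos k with hk | hk
  · subst hk
    rw [hap, Fin.sum_univ_zero, add_zero]
    have h1 : 0 ≤ g 0 := by
      rw [ha, Fin.sum_univ_zero, add_zero, mul_one] at hA
      exact hA
    exact mul_nonneg h1 hw0.le
  · have hk' : (0 : R) < 2 * (k : R) * T := by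
      have : (0 : R) < (k : R) := Nat.cast_pos.2 hk
      positivity
    exact nonneg_of_mul_nonneg_right hge hk'

end Pool.Agent.H20.FN
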